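import Pool.Agent.Helper38.TH.GoalsC
import Pool.Agent.Helper32.TH.TLRGG
import Pool.Agent.Helper11.M3.Goals4b

/-!
# Project TH (MP_fc6b1e_nt, T100): the case `χ₀ ≡ ω`, `J ≠ K`: the moment theorem `MT₄`, case (b), with a `V`-weight

Case (b) of `Hyp₄`: `N q` implies that `q` is not split, `Y = ⊥`; then `Bad` implies `Bad₄`. The primes of `N` are not in
`V` (in the application `N` is the set of the primes which are neither split nor in `V`), so the pivot is not in `V`; `V` is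
arbitrary. Every statement is a `def ... : Prop` with its complete proof in the docstring. `Q = |k|`,
`e(z)` is `exp(-z)` (not to be confused with the label `e q`). The weight is expanded by `T_FOU` for
`ψ₁ = ps ψ u₀`; `Wz S ψ₁ V h z b` (`Pool/Agent/Helper32/TH/TLRGG.lean`, with `AA`, `BB`, `cV`, `Wz_insert`, `chr_mul`) is the summand for
`z`. In the statements with `∃ K'` the constant `K'` depends only on the data in front of it.
-/

set_option autoImplicit false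

namespace Pool.Agent.Helper38.TH

open Finset Pool.Agent.Helper17.PP Pool.Agent.Helper17.PP0 Pool.Agent.Helper17.PP2
  Pool.Agent.Helper11.M3
open Pool.Agent.Helper32.TH (ps Wz cV)

section defs

variable {p : ℕ} {B B₀ k U Λ C : Type} [Field k] [AddCommGroup U] [Module k U]
    [AddCommGroup Λ] [Module k Λ] [AddCommGroup C] (S : Sys p B B₀ k U Λ C)

open Classical in
/-- The analytic hypotheses: those of `Hyp₄` in case (b), with more room in `ht`, `bl₁`, `bl₄`. -/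
structure HypG4 [Fintype k] [Algebra (ZMod p) k] (ψ : AddChar k ℂ) (e : B → k) (N : B → Prop)
    (g : ℝ → ℝ) (K : ℕ) : Prop extends Hyp₄ S ψ e N ⊥ g K where
  nspl : ∀ q, N q → ¬ S.spl q
  /-- The upper bound for sums of multiplicative functions. -/
  htG : ∀ (f : B → ℝ), (∀ q, 0 ≤ f q ∧ f q ≤ ((Fintype.card k : ℝ) + 1) ^ 2) →
    ∀ (Y : ℝ), 0 < Y →
    ∀ P : Finset B, ∑ b ∈ P.powerset, (∏ q ∈ b, f q) * Real.exp (-(S.nm b / Y)) ≤
      K * (Y * min 1 Y * g Y) * Real.exp (∑ q ∈ S.upto Y, (f q - 1) / S.N q)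
  /-- `bl₁` with more room. -/
  bl₁G : ∀ (i j : ℕ) (t ε : k) (y c : B → k) (α : B → ℂ) (β : Finset B → ℂ) (X : ℝ), 1 ≤ j →
    t ≠ 0 → 0 < X → (∀ q, ‖α q‖ ≤ 1) → (∀ D, ‖β D‖ ≤ (Fintype.card k : ℝ) ^ (2 * D.card)) →
    (∀ D, β D ≠ 0 → Set.InjOn S.bs (D : Set B) ∧
      ∀ q ∈ D, S.spl q ∧ S.bl q ≠ j ∧ y q ≠ 0 ∧ c q * ε ≠ t * e q) →
    ‖∑ q ∈ S.blk j with (S.spl q ∧ e q = ε), ∑ D ∈ S.mods i, α q * β D * S.chr ψ D y c t q *
      (Real.exp (-(S.N q * S.nm D / X)) : ℂ)‖ ≤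
      K * 2 ^ (i + j) * (i + 1) ^ K * (2 : ℝ) ^ (-(min i j : ℝ) / K) *
        Real.exp (-((2 : ℝ) ^ (i + j) / (2 * X)))
  /-- `bl₄` with more room. -/
  bl₄G : ∀ (i j : ℕ) (y c : B → k) (α : B → ℂ) (β : Finset B → ℂ) (X : ℝ), 1 ≤ j →
    0 < X → (∀ q, ‖α q‖ ≤ 1) → (∀ D, ‖β D‖ ≤ (Fintype.card k : ℝ) ^ (2 * D.card)) →
    (∀ D, β D ≠ 0 → Set.InjOn S.bs (D : Set B) ∧
      ∀ q ∈ D, S.spl q ∧ y q ≠ 0 ∧ c q ≠ 0) →
    ‖∑ P₁ ∈ S.blk j with N P₁, ∑ D ∈ S.mods i, α P₁ * β D *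
      (∏ q' ∈ D, ψ (y q' * (c q' * algebraMap (ZMod p) k (S.kap q' P₁)))) *
      (Real.exp (-(S.N P₁ * S.nm D / X)) : ℂ)‖ ≤
      K * 2 ^ (i + j) * (i + 1) ^ K * (2 : ℝ) ^ (-(min i j : ℝ) / K) *
        Real.exp (-((2 : ℝ) ^ (i + j) / (2 * X)))

open Classical in
/-- The primes `q'` of `sp b q P₁` with `y ≠ 0`. -/
noncomputable def Da (b : Finset B) (q P₁ : B) (y : B → k) : Finset B :=
  (sp S b q P₁).filter fun q' ↦ y q' ≠ 0

open Classical in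
/-- The primes `q'` of `sp b q P₁` with `y ≠ 0`, `c' e(q) ≠ t e(q')`, `c'` the shifted label. -/
noncomputable def D₁z [Fact p.Prime] [Algebra (ZMod p) k] (V : B → Prop) (u₀ : k) (z : B → ZMod p) (e : B → k)
    (b : Finset B) (q P₁ : B) (t : k) (c y : B → k) : Finset B :=
  (sp S b q P₁).filter fun q' ↦ y q' ≠ 0 ∧
    cV V u₀ z y (cutd S (S.bl q) q P₁ t c) q' * e q ≠ t * e q'

open Classical in
/-- The primes `q'` of `sp b q P₁` with `y ≠ 0`, `c' e(q) = t e(q')`, `c'` the shifted label. -/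
noncomputable def D₂z [Fact p.Prime] [Algebra (ZMod p) k] (V : B → Prop) (u₀ : k) (z : B → ZMod p) (e : B → k)
    (b : Finset B) (q P₁ : B) (t : k) (c y : B → k) : Finset B :=
  (sp S b q P₁).filter fun q' ↦ y q' ≠ 0 ∧
    cV V u₀ z y (cutd S (S.bl q) q P₁ t c) q' * e q = t * e q'

/-- The small moduli. -/
def HA (I : ℕ) (b : Finset B) (q P₁ : B) (χ : AddChar Λ ℂ) (_c y : B → k) : Prop :=
  (χ ≠ 1 ∨ ∃ q' ∈ sp S b q P₁, y q' ≠ 0) ∧ Nat.log 2 (S.nm (Da S b q P₁ y)) < 2 * I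

/-- The large moduli. -/
def HL (I : ℕ) (b : Finset B) (q P₁ : B) (_χ : AddChar Λ ℂ) (_c y : B → k) : Prop :=
  2 * I ≤ Nat.log 2 (S.nm (Da S b q P₁ y))

/-- The large moduli, `D₁z` in the block `i`. -/
def HB [Fact p.Prime] [Algebra (ZMod p) k] (V : B → Prop) (u₀ : k) (z : B → ZMod p) (e : B → k) (I i : ℕ)
    (b : Finset B) (q P₁ : B) (t : k) (χ : AddChar Λ ℂ) (c y : B → k) : Prop :=
  HL S I b q P₁ χ c y ∧ Nat.log 2 (S.nm (D₁z S V u₀ z e b q P₁ t c y)) = i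

/-- The large moduli, `D₁z` is small, `D₂z` is in the block `i`. -/
def HC [Fact p.Prime] [Algebra (ZMod p) k] (V : B → Prop) (u₀ : k) (z : B → ZMod p) (e : B → k) (I i : ℕ)
    (b : Finset B) (q P₁ : B) (t : k) (χ : AddChar Λ ℂ) (c y : B → k) : Prop :=
  HL S I b q P₁ χ c y ∧ Nat.log 2 (S.nm (D₁z S V u₀ z e b q P₁ t c y)) < I ∧
    Nat.log 2 (S.nm (D₂z S V u₀ z e b q P₁ t c y)) = i

end defs

open Classical in
/-- **G4_PSM** (`Q_PSM` for `HA`).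

PROOF. That of `Q_PSM` (`Pool/Agent/Helper56/M3/QPSM.lean`), simpler: `HA` depends only on `χ`, `y` (not on `c`), and for fixed `y` the
set `D` there is `Da S b q P₁ y`; `Nat.log 2 (nm D) < 2 I` is `nm D < 2^(2I)`. -/
def G4_PSM : Prop :=
  ∀ (p : ℕ) [Fact p.Prime] (B B₀ k U Λ C : Type) [Field k] [Fintype k] [Algebra (ZMod p) k]
    [AddCommGroup U] [Module k U] [Fintype U] [AddCommGroup Λ] [Module k Λ] [Fintype Λ]
    [AddCommGroup C] (S : Sys p B B₀ k U Λ C) (ψ : AddChar k ℂ)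
    (I : ℕ) (P b : Finset B) (q P₁ : B) (t : k), b ⊆ P → Wv S b q → P₁ ∈ b → P₁ ≠ q →
    ‖ful₄ S ψ P b q P₁ t 0 0 (HA S I b q P₁)‖ ≤
      (Fintype.card U * (Fintype.card k : ℝ) ^ (rs₄ S b q P₁).card / (lab k P).card) *
      ∑ χ : AddChar Λ ℂ, (((lab k P).filter fun y ↦
        (((sp S b q P₁).filter fun q' ↦ y q' ≠ 0).Nonempty ∨ χ ≠ 1) ∧
        S.nm ((sp S b q P₁).filter fun q' ↦ y q' ≠ 0) < 2 ^ (2 * I) ∧
        (∀ x : U, S.fU ψ χ ((sp S b q P₁).filter fun q' ↦ y q' ≠ 0) y x = 1) ∧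
        ∀ q'' ∈ rs₄ S b q P₁, y q'' = 0 → ∀ z : k,
          S.fB ψ χ ((sp S b q P₁).filter fun q' ↦ y q' ≠ 0) y q'' z = 1).card : ℝ)

open Classical in
/-- **G4_SML** (`Q_SML` for `HA`, case (b)).

PROOF (from `G4_PSM`). That of `Q_SML` (`Pool/Agent/Helper54/M3/QSML.lean`, theorem `q_sml_of`): it uses `Q_PSM` only through its conclusion,
which is the same as the one of `G4_PSM`. (If it is convenient, prove it for all the `S`, `N`, `Y` of `Q_SML`.) -/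
def G4_SML : Prop :=
  ∀ (p : ℕ) [Fact p.Prime] (B B₀ k U Λ C : Type) [Field k] [Fintype k] [Algebra (ZMod p) k]
    [AddCommGroup U] [Module k U] [Fintype U] [AddCommGroup Λ] [Module k Λ] [Fintype Λ]
    [AddCommGroup C] [Finite C] (S : Sys p B B₀ k U Λ C) (ψ : AddChar k ℂ) (e : B → k)
    (N : B → Prop) (g : ℝ → ℝ) (K : ℕ), HypG4 S ψ e N g K →
  ∃ K' : ℕ, ∀ (I j : ℕ) (t : k) (X : ℝ) (P : Finset B), 1 ≤ j → 1 ≤ X →
    ∑ b ∈ P.powerset with S.Fam b, ∑ q ∈ b with (Wv S b q ∧ S.bl q = j),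
      ∑ P₁ ∈ b with (Piv S N b P₁ ∧ P₁ ≠ q),
        ‖ful₄ S ψ P b q P₁ t 0 0 (HA S I b q P₁)‖ * Real.exp (-(S.nm b / X)) ≤
      K' * (2 * I + 2) ^ K' / j * min 1 (X / 2 ^ j) *
        ((max 1 (min j (lg X - (j + 1 + 2 * I))) : ℕ) : ℝ) ^ (-(1 / K : ℝ)) * (X * g X)

open Classical in
/-- **G4_SPL** (the parts of the expansion).

PROOF (compare `Q_SPL`, `Pool/Agent/Helper48/M3/QSPL.lean`). First part: for all `χ, c, y` exactly one of `FM`, `HA`, `HL` holds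
(`Nat.log 2 (nm ∅) = 0 < 2 I`). Second part, for fixed `z`: if `HL` holds, `Da` is the disjoint union of `D₁z` and `D₂z`, so
`nm Da = nm D₁z · nm D₂z`, and all these norms are at most `nm b < 2^J`. If `Nat.log 2 (nm D₁z) ≥ I` exactly one `HB i`,
`I ≤ i < J`, holds and no `HC i`. If it is `< I` then `nm D₁z < 2^I`, so `nm D₂z > 2^I` (`nm Da ≥ 2^(2I)`), `Nat.log 2 (nm D₂z) ≥ I`,
exactly one `HC i` and no `HB i` (`i ≥ I`). If `HL` does not hold, none of them. -/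
def G4_SPL : Prop :=
  ∀ (p : ℕ) [Fact p.Prime] (B B₀ k U Λ C : Type) [Field k] [Fintype k] [Algebra (ZMod p) k]
    [AddCommGroup U] [Module k U] [Fintype U] [AddCommGroup Λ] [Module k Λ] [Fintype Λ]
    [AddCommGroup C] (S : Sys p B B₀ k U Λ C) (ψ : AddChar k ℂ) (e : B → k) (I J : ℕ)
    (P b : Finset B) (q P₁ : B) (t : k), 1 ≤ I → I ≤ J → S.nm b < 2 ^ J →
    ful₄ S ψ P b q P₁ t 0 0 (fun _ _ _ ↦ True) = ful₄ S ψ P b q P₁ t 0 0 (FM S b q P₁) +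
      ful₄ S ψ P b q P₁ t 0 0 (HA S I b q P₁) + ful₄ S ψ P b q P₁ t 0 0 (HL S I b q P₁) ∧
    ∀ (V : B → Prop) (u₀ : k) (z : B → ZMod p),
      ful₄ S ψ P b q P₁ t 0 0 (HL S I b q P₁) =
        ∑ i ∈ Ico I J, ful₄ S ψ P b q P₁ t 0 0 (HB S V u₀ z e I i b q P₁ t) +
        ∑ i ∈ Ico I J, ful₄ S ψ P b q P₁ t 0 0 (HC S V u₀ z e I i b q P₁ t)

open Classical in
/-- **G4_B** (`D₁z` large: bilinear sum in `q` and `D₁z`), `z` fixed. `I₀ q` implies `q ∉ V`.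

PROOF (adaptation of `Q_B`, `Pool/Agent/Helper35/M3/QB.lean`, with the changes of `Pool/Agent/Helper32/TH/TLRGG.lean`). `z` is fixed.
Write `b = {q} ∪ D ∪ r`, `D = D₁z .. b q P₁ t c y`, `r = (b.erase q) \ D`, `P₁ ∈ r`. Bring the sums over `x, χ, c, y` outside, fix these,
`r`, `P₁ ∈ r` and the value `ε` of `e q`. *Conditions* as in `Q_B` (case (b)), with `c' q' = cV V u₀ z y c⁰ q'` in the place of
`c⁰ q'` in the conditions (3) `c' q' ε ≠ t e q'` for `q' ∈ D`, (4) every split `q' ∈ r`, `q' ≠ P₁`, has `y q' = 0` or `c' q' ε = t e q'`; the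
additional condition `HL` is a condition on `D` for given `r` (`Da` is the disjoint union of `D` and of the split `q' ∈ r`,
`q' ≠ P₁`, with `y q' ≠ 0`); the additional condition `I₀ q` on `q`. *Phases*: as in `Q_B`, times `Wz S ψ₁ V h z b`, `ψ₁ = ps ψ u₀`. `q ∉ V`, so by
`Wz_insert`: `Wz b = p^|r_V| · AA r q · (BB D r · AA D q)`, with `‖AA r q‖ = 1` (to `α q`), `‖BB D r‖ ≤ Q^|D|` (to `β D`), and
`chr ψ D y c⁰ t q · AA D q = chr ψ D y c' t q` (`chr_mul`; `y ≠ 0` on `D`). *The bilinear form* is bounded by `bl₁G` with `c := c'`,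
`‖β D‖ ≤ Q^|D| Q^|D|`. *Summation* as in `Q_B` with `(Q p)^|r|` in the place of `Q^|r|` (`htG` with `f = Q p ≤ (Q+1)²`, `p ≤ Q`). -/
def G4_B : Prop :=
  ∀ (p : ℕ) [Fact p.Prime] (B B₀ k U Λ C : Type) [Field k] [Fintype k] [Algebra (ZMod p) k]
    [AddCommGroup U] [Module k U] [Fintype U] [AddCommGroup Λ] [Module k Λ] [Fintype Λ]
    [AddCommGroup C] [Finite C] (S : Sys p B B₀ k U Λ C) (ψ : AddChar k ℂ) (e : B → k)
    (N : B → Prop) (g : ℝ → ℝ) (K : ℕ), HypG4 S ψ e N g K →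
  ∃ K' : ℕ, ∀ (V I₀ : B → Prop) (u₀ : k) (h : Finset B → (B → ZMod p) → ℂ) (z : B → ZMod p),
    (∀ q, N q → ¬ V q) → (∀ q, I₀ q → ¬ V q) → (∀ D z, ‖h D z‖ ≤ 1) →
  ∀ (I i j m : ℕ) (t : k) (X : ℝ) (P : Finset B), 1 ≤ i → 1 ≤ j → t ≠ 0 → 1 ≤ X →
    ‖∑ b ∈ P.powerset with S.Fam b, ∑ q ∈ b with (Wv S b q ∧ S.bl q = j ∧ I₀ q),
      ∑ P₁ ∈ b with (Piv S N b P₁ ∧ P₁ ≠ q ∧ m ≤ S.bl P₁),
        Wz S (ps ψ u₀) V h z b *
        ful₄ S ψ P b q P₁ t 0 0 (HB S V u₀ z e I i b q P₁ t) *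
          (Real.exp (-(S.nm b / X)) : ℂ)‖ ≤
      K' * (lg X + 2) ^ K' * (i + 1) ^ K * (2 : ℝ) ^ (-(min i j : ℝ) / K) *
        min 1 (X / 2 ^ (i + j)) * (X * g X)

open Classical in
/-- **G4_C** (`D₁z` small, `D₂z` large: bilinear sum in the pivot `P₁` and `D₂z`), `z` fixed.

PROOF (adaptation of `Q_C`, `Pool/Agent/Helper33/M3/QC.lean`, case (b) only, with the changes of `G4_B`). Write
`b = {P₁} ∪ D ∪ r`, `D = D₂z .. b q P₁ t c y`, `q ∈ r`; `j = bl q ≥ m`, `I₀ q`. With `c' q' = cV V u₀ z y c⁰ q'`. *Conditions*: (1) `N P₁`,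
`bl P₁ = i'`, `P₁ ∉ r`, `bs P₁ ∉ bs(r)`; (2) `Wv r q`, `m ≤ j`, `I₀ q`, `bs` injective on `r`, all the `q' ∈ r` with `N q'` are in blocks
`< i'`; every split `q' ∈ r`, `q' ≠ q`, has `y q' = 0` or `c' q' e q ≠ t e q'`; the norm of the set of those with `y q' ≠ 0` has
`Nat.log 2 < I`; (3) all `q' ∈ D` are split, `≠ q`, in blocks `≠ j` (this is now a condition; in `Q_C` it followed from `c⁰ ≠ 0`),
`y q' ≠ 0`, `c' q' e q = t e q'`; `Nat.log 2 (nm D) = i`; `bs` injective on `D ∪ r`; `HL`, a condition on `D` for given `r`; (4) the class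
condition. The primes of `D` are split and `P₁` is not, so `P₁ ∉ D`, `bs P₁ ∉ bs(D)` (`bsS`); `Piv b P₁`, `Wv b q` follow. Only (4)
involves both `P₁` and `D`. *Phases*: `ĉ P₁ = ŷ P₁ = 0`; the factor `∏_{q' ∈ D} ψ(y q' c⁰ q' κ(q', P₁))` of `Q_C`, and from `Wz b` (`P₁ ∉ V` because
of `N P₁`; `Wz_insert` with `P₁` in the place of `q`) `p^|r_V| · AA r P₁ · (BB D r · AA D P₁)`; for `q' ∈ D` the product of
`ψ(y q' c⁰ q' κ)` and (if `V q'`) `ψ₁(z q' κ)` is `ψ(y q' c' q' κ)`, `κ = κ(q', P₁)` (as in `chr_mul`), and `c' q' = t e q'/e q ≠ 0`. *The bilinear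
form* is bounded by `bl₄G` (`c := c'`), `‖α‖ ≤ 1`, `‖β D‖ ≤ Q^|D| Q^|D|` (`Q^|rs₄ b q P₁| = Q^|rs_j(D)| Q^|rs_j(r)|`, `≤ Q^|D| Q^|r|`). *Summation*: as in
`Q_C`, `∑_{q ∈ r} (Q p)^|r| ≤ Q p (Q p + 1)^|r|`, `htG` with `f = Q p + 1 ≤ (Q+1)²`. -/
def G4_C : Prop :=
  ∀ (p : ℕ) [Fact p.Prime] (B B₀ k U Λ C : Type) [Field k] [Fintype k] [Algebra (ZMod p) k]
    [AddCommGroup U] [Module k U] [Fintype U] [AddCommGroup Λ] [Module k Λ] [Fintype Λ]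
    [AddCommGroup C] [Finite C] (S : Sys p B B₀ k U Λ C) (ψ : AddChar k ℂ) (e : B → k)
    (N : B → Prop) (g : ℝ → ℝ) (K : ℕ), HypG4 S ψ e N g K →
  ∃ K' : ℕ, ∀ (V I₀ : B → Prop) (u₀ : k) (h : Finset B → (B → ZMod p) → ℂ) (z : B → ZMod p),
    (∀ q, N q → ¬ V q) → (∀ q, I₀ q → ¬ V q) → (∀ D z, ‖h D z‖ ≤ 1) →
  ∀ (I i i' m : ℕ) (t : k) (X : ℝ) (P : Finset B), 1 ≤ i → 1 ≤ i' → t ≠ 0 → 1 ≤ X →
    ‖∑ b ∈ P.powerset with S.Fam b, ∑ q ∈ b with (Wv S b q ∧ m ≤ S.bl q ∧ I₀ q),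
      ∑ P₁ ∈ b with (Piv S N b P₁ ∧ P₁ ≠ q ∧ S.bl P₁ = i'),
        Wz S (ps ψ u₀) V h z b *
        ful₄ S ψ P b q P₁ t 0 0 (HC S V u₀ z e I i b q P₁ t) *
          (Real.exp (-(S.nm b / X)) : ℂ)‖ ≤
      K' * (lg X + 2) ^ K' * (i + 1) ^ K * (2 : ℝ) ^ (-(min i i' : ℝ) / K) *
        min 1 (X / 2 ^ (i + i')) * (X * g X)

open Classical in
/-- **G4_D** (the condition at `q`: bilinear sum in `q` and the pivot `P₁`), `z` fixed.

PROOF (adaptation of `Q_D`, `Pool/Agent/Helper83/M3/QD.lean`, case (b), `y₁ = 0`; the changes are those of `T_OSB1`,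
`Pool/Agent/Helper49`, see also `Pool/Agent/Helper39/TH/TOSBG.lean`). `b = {q, P₁} ∪ r`, `q ∉ V` (`I₀ q`), `P₁ ∉ V` (`N P₁`), `b_V = r_V`, so
`Wz b = p^|r_V| h(r_V) · (function of r) · AA r q · AA r P₁`; the two last factors, of norm 1, go to the coefficients of `q` and `P₁`, the
condition `I₀ q` too. `bl₅` with `y = 0`, `s ≠ 0`. *Summation*: `(Q p)^|r|`, `htG`. -/
def G4_D : Prop :=
  ∀ (p : ℕ) [Fact p.Prime] (B B₀ k U Λ C : Type) [Field k] [Fintype k] [Algebra (ZMod p) k]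
    [AddCommGroup U] [Module k U] [Fintype U] [AddCommGroup Λ] [Module k Λ] [Fintype Λ]
    [AddCommGroup C] [Finite C] (S : Sys p B B₀ k U Λ C) (ψ : AddChar k ℂ) (e : B → k)
    (N : B → Prop) (g : ℝ → ℝ) (K : ℕ), HypG4 S ψ e N g K →
  ∃ K' : ℕ, ∀ (V I₀ : B → Prop) (u₀ : k) (h : Finset B → (B → ZMod p) → ℂ) (z : B → ZMod p),
    (∀ q, N q → ¬ V q) → (∀ q, I₀ q → ¬ V q) → (∀ D z, ‖h D z‖ ≤ 1) →
  ∀ (i j : ℕ) (t s : k) (X : ℝ) (P : Finset B), 1 ≤ i → 1 ≤ j → t ≠ 0 → s ≠ 0 → 1 ≤ X →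
    ‖∑ b ∈ P.powerset with S.Fam b, ∑ q ∈ b with (Wv S b q ∧ S.bl q = j ∧ I₀ q),
      ∑ P₁ ∈ b with (Piv S N b P₁ ∧ P₁ ≠ q ∧ S.bl P₁ = i),
        Wz S (ps ψ u₀) V h z b *
        ful₄ S ψ P b q P₁ t s 0 (fun _ _ _ ↦ True) * (Real.exp (-(S.nm b / X)) : ℂ)‖ ≤
      K' * (lg X + 2) ^ K' * (i + j) ^ K * (2 : ℝ) ^ (-(min i j : ℝ) / K) *
        min 1 (X / 2 ^ (i + j)) * (X * g X)

open Classical in
/-- **G4_PTW** (the main terms, pointwise). `P₁` is not split. The sum over the `q` with `Wv b q`, `bl q < m`, of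
`(Q - 1) Q^(-|ra₄ b q P₁|)` is at most `Q · Q^(-n)`, `n` the number of the split primes of `b` in the blocks `≥ m`.

PROOF (compare `T_PTW`, `Pool/Agent/Helper45/TH/PTW.lean`, and `Q_MNB`, `Pool/Agent/Helper86/M3/QMNB.lean`). Let `W` be the set of these `q`;
they are split and in distinct blocks. For `q ∈ W` the set `ra₄ b q P₁` contains all the split `q' ∈ b` with `bl q < bl q'` (they are
`≠ q` and `≠ P₁`), in particular the `n` split primes in the blocks `≥ m` and (disjoint from these) the `q' ∈ W` with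
`bl q < bl q'`. So the exponent is at least `n + h(q)`, `h` injective on `W`. -/
def G4_PTW : Prop :=
  ∀ (p : ℕ) (B B₀ k U Λ C : Type) [Field k] [Fintype k]
    [AddCommGroup U] [Module k U] [AddCommGroup Λ] [Module k Λ]
    [AddCommGroup C] (S : Sys p B B₀ k U Λ C) (m : ℕ) (b : Finset B) (P₁ : B), ¬ S.spl P₁ →
    ∑ q ∈ b with (Wv S b q ∧ S.bl q < m),
      ((Fintype.card k : ℝ) - 1) * (1 / Fintype.card k : ℝ) ^ (ra₄ S b q P₁).card ≤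
    Fintype.card k * (1 / Fintype.card k : ℝ) ^ (b.filter fun q ↦ S.spl q ∧ m ≤ S.bl q).card

open Classical in
/-- **BLK4** (the blocks `≥ sl A₅ L`, with a weight and a condition on `q`). `G` is a `V`-weight, the primes of `N` are not in `V`,
`I₀ q` implies `q ∉ V`. There is `A₅` such that for every `ε > 0` there is `X₀` such that for `X ≥ X₀`, `L = lg X`, the sum over `b` in
the family, over the `q` with `Wv`, `I₀ q` in the blocks `≥ sl A₅ L` and over the pivots `P₁` in the blocks `≥ √L`, of `G b cnt₅ e(nm b/X)`,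
is at most `(1/Q) (|U|/|Λ|)` times the sum of `G b (Q-1) Q^(-|ra₄|) e(nm b/X)` plus `ε X g(X)`. `X₀` does not depend on `V`, `G`, `I₀`,
`P`. -/
def BLK4 : Prop :=
  ∀ (p : ℕ) [Fact p.Prime] (B B₀ k U Λ C : Type) [Field k] [Fintype k] [Algebra (ZMod p) k]
    [AddCommGroup U] [Module k U] [Fintype U] [AddCommGroup Λ] [Module k Λ] [Fintype Λ]
    [AddCommGroup C] [Finite C] (S : Sys p B B₀ k U Λ C) (ψ : AddChar k ℂ) (e : B → k)
    (N : B → Prop) (g : ℝ → ℝ) (K : ℕ), HypG4 S ψ e N g K →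
  ∃ A₅ : ℕ, 2 ≤ A₅ ∧ ∀ ε : ℝ, 0 < ε → ∃ X₀ : ℝ, ∀ X : ℝ, X₀ ≤ X →
  ∀ (V : B → Prop) (G : Finset B → ℝ) (I₀ : B → Prop), WtG S V G → (∀ q, N q → ¬ V q) →
    (∀ q, I₀ q → ¬ V q) → ∀ P : Finset B,
    ∑ b ∈ P.powerset with S.Fam b,
      (∑ q ∈ b with (Wv S b q ∧ sl A₅ (lg X) ≤ S.bl q ∧ I₀ q),
        ∑ P₁ ∈ b with (Piv S N b P₁ ∧ P₁ ≠ q ∧ Nat.sqrt (lg X) ≤ S.bl P₁),
          (cnt₅ S b q P₁ : ℝ)) * (G b * Real.exp (-(S.nm b / X))) ≤
    (1 / Fintype.card k : ℝ) * ((Fintype.card U / Fintype.card Λ : ℝ) *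
      ∑ b ∈ P.powerset with S.Fam b,
      (∑ q ∈ b with (Wv S b q ∧ sl A₅ (lg X) ≤ S.bl q ∧ I₀ q),
        ∑ P₁ ∈ b with (Piv S N b P₁ ∧ P₁ ≠ q ∧ Nat.sqrt (lg X) ≤ S.bl P₁),
          ((Fintype.card k : ℝ) - 1) * (1 / Fintype.card k : ℝ) ^ (ra₄ S b q P₁).card) *
        (G b * Real.exp (-(S.nm b / X)))) + ε * (X * g X)

open Classical in
/-- **G4_BLK** (assembly of `BLK4`).

PROOF (compare the part of `q_finw`, `Pool/Agent/Helper17/M3/Q4D.lean`, on the large blocks, and `Q4C.lean`, whose lemmas `v_le`, `v0_le`,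
`d_eq`, `b_eq`, `c_eq`, `a_le`, `m_eq`, `sum_pairs` have to be adapted to the condition `I₀ q` and the weight). `Y = ⊥`
(`|Y| = 1`), so only `y₁ = 0`. Let `A` be the number given by `R_SM6` for the constants of `G4_B`, `G4_C`, `G4_D` (as in `q_finw`), `A₅ ≥ 2` at
least the `A₀` of `Q_SMA` for this `A` and the constant of `G4_SML`; `L = lg X`, `s = Nat.sqrt L`, `s' = sl A₅ L`, `I` as in `q_finw`, and `J`
larger than `L`, `s`, `Nat.log 2 (nm P) + 1`. (1) By `Q_FUL` (`Y = ⊥`) the left side is at most `(1/Q) ∑_{t ≠ 0} ∑_u Re VV(t, u)`, `VV(t, u)` the sum of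
`G b ful₄ t u 0 True e(nm b/X)`. (2) `u ≠ 0`: by `T_FOU` (for `ψ₁ = ps ψ u₀`, `ψ u₀ ≠ 1`: `ps_ne`), `G b = (1/p)^|P| ∑_{z ∈ lab P} Wz S ψ₁ V h z b` for
`b ⊆ P`, and `|lab (ZMod p) P| = p^|P|` (`C_LAB`), so the norm of `VV(t, u)` is at most the maximum over `z` of
`∑_{s' ≤ j < J} ∑_{s ≤ i < J}` of the norms of the sums of `G4_D`, `≤ C ε' X g(X)` by `R_SM6`. (3) `u = 0`: by `G4_SPL` (first part) `FM + HA + HL`.
`HA`: `G ≤ 1`, `G4_SML`, `Q_SMA` (drop `I₀`). `HL`: by `T_FOU` as in (2) and `G4_SPL` (second part, for each `z`), at most the maximum over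
`z` of `∑_{I ≤ i < J} ∑_{s' ≤ j < J} ‖G4_B‖ + ∑_{I ≤ i < J} ∑_{s ≤ i' < J} ‖G4_C‖` (`m = s`, resp. `m = s'`), `≤ C ε' X g(X)` by `R_SM6`. `FM`: `Q_MN`; the
number of the `t ≠ 0` is `Q - 1`. -/
def G4_BLK : Prop :=
  C_LAB → T_FOU → Q_FUL → Q_MN → G4_SPL → G4_SML → G4_B → G4_C → G4_D → Q_SMA → Q_SMB →
    R_SM6 → BLK4

open Classical in
/-- **MTG4**, the moment theorem for `χ₀ ≡ ω`, case (b), with a `V`-weight. -/
def MTG4 : Prop :=
  ∀ (p : ℕ) [Fact p.Prime] (B B₀ k U Λ C : Type) [Field k] [Fintype k] [Algebra (ZMod p) k]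
    [AddCommGroup U] [Module k U] [Fintype U] [AddCommGroup Λ] [Module k Λ] [Fintype Λ]
    [AddCommGroup C] [Finite C] (S : Sys p B B₀ k U Λ C) (ψ : AddChar k ℂ) (e : B → k)
    (N : B → Prop) (g : ℝ → ℝ) (K : ℕ), HypG4 S ψ e N g K →
  ∀ (V : B → Prop), (∀ q, N q → ¬ V q) →
  ∀ (T₀ r₀ : ℕ), 1 ≤ T₀ → ∀ ε : ℝ, 0 < ε → ∃ X₀ : ℝ, ∀ X : ℝ, X₀ ≤ X →
  ∀ G : Finset B → ℝ, WtG S V G → ∀ P : Finset B,
    ∑ b ∈ P.powerset with (S.Fam b ∧ S.Bad b), G b * Real.exp (-(S.nm b / X)) ≤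
      (Fintype.card U / Fintype.card Λ) * (1 / (Fintype.card k - 1)) *
        ∑ b ∈ P.powerset with S.Fam b, G b * Real.exp (-(S.nm b / X)) +
      (Fintype.card U / Fintype.card Λ) * (Fintype.card k / (Fintype.card k - 1)) *
        ((1 / Fintype.card k : ℝ) ^ r₀ *
            ∑ b ∈ P.powerset with S.Fam b, Real.exp (-(S.nm b / X)) +
          ∑ b ∈ P.powerset with (S.Fam b ∧ ExX S V T₀ r₀ (lg X) b),
            Real.exp (-(S.nm b / X))) +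
      ε * (X * g X)

/-- **G4_MTG** (assembly of `MTG4`).

PROOF (compare `q_finw`, `Pool/Agent/Helper17/M3/Q4A.lean`-`Q4D.lean`, and `t_mtg`, `Pool/Agent/Helper59/TH/TMTG.lean`). `Bad b`
implies `Bad₄ S N b`: if `c P₁ ≠ 0` then `P₁` is split (`IsSol.supp`), against `nspl`. `W b = G b e(nm b/X)`, `0 ≤ W ≤ e`. `A₅` from `BLK4`. Choose `j₀`, then
`X₀`, as in `q_finw`. `step1₄` (`Q4A.lean`, for the weight `W`): the exceptional sets (`W ≤ e`) are `≤ 4 ε' X g(X)`. `step2₄`, with the large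
blocks split into `V q` and `¬ V q`: `(Q - 1)` times the sum of `W` over the rest is at most
(a) `∑_{j₀ ≤ j < s'} U1W S e E P j` (`W ≤ e`; `small_le` of `Q4B.lean` for the weight `e`, then `U_MNS`, `U_LRG`, `U_SM1`, `U_SM2` as in `q_finw`, where
the weight is `w = exp`), `≤ C ε' X g(X)`, plus (b) the sum over the `q` with `V q`, `s' ≤ bl q`, of `cnt₅ e(nm b/X)`, plus (c) the sum over the `q`
with `¬ V q`, `s' ≤ bl q`, of `cnt₅ W b`. (b): `BLK4` with `V := ∅` (`False`), `G = 1` (a constant weight is a weight, see `T_BADW` or directly), `I₀ = V`; pointwise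
in `b` (there is at most one pivot `P₁`, `piv_uniq`; it is not split): let `m` be the least number with `L ≤ T₀ m`; if `ExX` does not
hold all `q ∈ b` in `V` have `bl q < m` and `b` has at least `r₀` split primes in the blocks `≥ m`, so the sum over `q` is at most
`Q Q^(-r₀)` by `G4_PTW`; if `ExX` holds it is at most `Q` by `Q_MNB`. So (b) is at most `ρ₀ (Q^(-r₀) ∑ e + ∑_{ExX} e) + ε' X g(X)`. (c): `BLK4` with `V`,
`G`, `I₀ = ¬ V`, and `Q_MNB` pointwise (`mmw_le` in `Q4C.lean`): at most `ρ₀ ∑ W + ε' X g(X)`. Divide by `Q - 1 ≥ 1` (`1/(Q-1) ≤ Q/(Q-1)`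
in the bracket). -/
def G4_MTG : Prop :=
  Q_CNT → U_ORT → U_LRG → U_MNS → U_SM1 → U_SM2 → Q_SMB → X_EX0 → X_EX2 → X_EX5 → X_EXN →
    Q_MNB → G4_PTW → BLK4 → MTG4

open Classical in
/-- **G4_NV** (from the pivots `¬ spl` to the pivots which are neither split nor in `V`).

PROOF. All the fields of `HypG4` are monotone in `K` (larger `K`, weaker statement): `1/K ≥ 1/K'`, and the logarithms which occur are
`≥ 0` (`n/m ≥ 1`, `n ≥ 1`, `log (nm D + 3) ≥ log 4 > 1`); in `ht`, `htG`, `che`, `g_mono` the right side increases with `K` (`g ≥ 1`,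
`Y > 0`); in `bl₁`, `bl₄`, `bl₅`, `bl₁G`, `bl₄G` the factors `K`, `(i+1)^K` (or `(i+j)^K`), `2^(-min/K)` increase with `K` (if `i + j = 0` is possible
use `1 ≤ K`; `i, j ≥ 1` in `bl₅`). The new `N` is contained in the old one, so `bl₄`, `bl₅`, `bl₄G` for the new `N` follow with
`α` replaced by `α · 1[¬ V]`. `cas`: second case. `merN`: by `MerN` and `Spr.up`, the sum over the new `N` is at least
`κ log(n/m) - K₃ - ρ log(n/m) - K₂ ≥ (κ/2) log(n/m) - K₃ - K₂`; take `K' ≥ K`, `K' ≥ 2/κ`, `K' ≥ K₃ + K₂`. -/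
def G4_NV : Prop :=
  ∀ (p : ℕ) [Fact p.Prime] (B B₀ k U Λ C : Type) [Field k] [Fintype k] [Algebra (ZMod p) k]
    [AddCommGroup U] [Module k U] [Fintype U] [AddCommGroup Λ] [Module k Λ] [Fintype Λ]
    [AddCommGroup C] [Finite C] (S : Sys p B B₀ k U Λ C) (ψ : AddChar k ℂ) (e : B → k)
    (g : ℝ → ℝ) (K : ℕ), HypG4 S ψ e (fun q ↦ ¬ S.spl q) g K →
  ∀ κ : ℝ, 0 < κ → MerN S κ →
  ∀ (V : B → Prop) (ρ K₂ : ℝ), Spr S V ρ K₂ → 8 * ((Fintype.card k : ℝ) + 1) * ρ ≤ κ →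
  ∃ K' : ℕ, HypG4 S ψ e (fun q ↦ ¬ S.spl q ∧ ¬ V q) g K'

end Pool.Agent.Helper38.TH
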