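import Pool.Agent.Helper38.TH.DefsD
import Pool.Agent.Helper38.WY.Goals4
import Pool.Agent.Helper38.FY.Defs

/-!
# Project TH (MP_fc6b1e_nt, T100), part II (the dichotomy): goals

Every statement is a `def ... : Prop` with its complete proof in the docstring. `T` is `TSet ιinf ιp S`, `G = Gal(Ω/K)`,
`U_E = Additive (𝓞 E)ˣ`.
-/

set_option autoImplicit false

namespace Pool.Agent.Helper38.TH

open NumberField Module IsDedekindDomain TensorProduct
open Pool.Agent.Helper51.SigLeo Pool.Agent.Helper51.RP Pool.Agent.Helper42.RD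
open Pool.Agent.Helper38.FD (Chr CutsOut LeopoldtFor)
open Pool.Agent.Helper38.FW (InDec IsOmega IsLocal IsWeight AllChr tame countChr)
open Pool.Agent.Helper38.FY (BaseChr)

/-- **D_EIG** (the `Σ`-Leopoldt statement in a larger field). Let `E/K` be finite Galois and `ξ` a character of `G` which is
trivial on `Gal(Ω/E)`. `LeopoldtFor` for `ξ` holds if and only if the only vector `v` of `ℂ_p ⊗ U_E` with `g v = ξ(g) v` for all
`g` and `L ∘ τ (v) = 0` for all embeddings `τ` of `E` above `T` is `0`.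

PROOF. Let `H ⊆ E` be the field of `ξ` (the fixed field of the kernel of `ξ` on `Gal(E/K)`; `CutsOut ξ H'` implies `H' = H` by Galois
theory: `IntermediateField.fixedField`, `InfiniteGalois.fixedField_fixingSubgroup`), a Galois extension of `K`, `χ'` the character of `Gal(H/K)`
induced by `ξ` (it exists and is unique because restriction is surjective). (1) *Level `H`:* a vector `w ∈ ℂ_p ⊗ U_H` is of the form `e_{χ'}(x)`
if and only if `h w = χ'(h) w` for all `h` (`e_{χ'}(x)` is such a vector, and `e_{χ'}(w) = w`). The set `logSigma ιinf ιp S L` is the set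
of the `logUnits L τ`, `τ : H → ℂ_p` above `T`: if `τ|_K = ιp ∘ σ₀`, `τ(H)` is algebraic over `ιp(Ω)`, which is algebraically closed, so `τ = ιp ∘ σ`
(compare the proof of `Z_CO1`, `W_CO1` in `Pool/Agent/Helper32/PW/WCO1.lean`). So `LeopoldtFor` is the statement of the lemma for `E = H`. (2) *From
`H` to `E`:* `ℂ_p ⊗ U_H → ℂ_p ⊗ U_E` is injective (flatness) and commutes with the action and with the logarithms (`τ` on `E` and its
restriction to `H`; every embedding of `H` above `T` extends to `E`). If `v ∈ ℂ_p ⊗ U_E`, `g v = ξ(g) v`, then `v` is fixed by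
`Gal(E/H)`, so `[E:H] v = N(v)` is the image of a vector of `ℂ_p ⊗ U_H` (the norm of a unit of `E` is a unit of `H`:
`∏_{h ∈ Gal(E/H)} h(u) ∈ U_H`). -/
def D_EIG : Prop :=
  ∀ (p : ℕ) [Fact p.Prime] (K : Type) [Field K] [NumberField K]
    (ιinf : AlgebraicClosure K →+* ℂ) (ιp : AlgebraicClosure K →+* ℂ_[p]) (Lg : IwasawaLog p ℂ_[p])
    (S : Set (K →+* ℂ)) (E : IntermediateField K (AlgebraicClosure K)) [NumberField E]
    [Normal K E] (ξ : Chr K (AlgebraicClosure K) ℂ_[p]), (∀ g, (∀ x ∈ E, g x = x) → ξ g = 1) →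
    (LeopoldtFor ιinf ιp Lg S ξ ↔ ∀ v : ℂ_[p] ⊗[ℤ] Additive (𝓞 E)ˣ,
      (∀ g, extEnd (actU E g) v = ((ξ g : ℂ_[p]ˣ) : ℂ_[p]) • v) →
      (∀ τ ∈ (above (TSet ιinf ιp S) : Set (E →+* ℂ_[p])), extHom (logUnits Lg τ) v = 0) →
      v = 0)

/-- **D_INV** (conjugation). If `T` is place closed and `LeopoldtFor` holds for `ξ` (a character of finite order), then it holds for `σ ∘ ξ`, for
every automorphism `σ` of `ℂ_p` over `ℚ_p` (not necessarily continuous).

PROOF (from `D_EIG`, `S_RAT`). Suppose that it fails for `σ ∘ ξ`. `E` the field of `ξ` (also of `σ ∘ ξ`), `w ≠ 0` as in `D_EIG` for `σ ∘ ξ`, `f i` as in `S_RAT`. `v = (σ⁻¹ ⊗ 1) w`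
(semilinear): `v ≠ 0`, `g v = ξ(g) v`, `f i (v) = σ⁻¹(f i (w)) = 0`, so `L ∘ τ (v) = 0` for `τ` above `T` by the second part of `S_RAT`. Contradiction to `D_EIG`. -/
def D_INV : Prop :=
  ∀ (p : ℕ) [Fact p.Prime] (K : Type) [Field K] [NumberField K]
    (ιinf : AlgebraicClosure K →+* ℂ) (ιp : AlgebraicClosure K →+* ℂ_[p]) (Lg : IwasawaLog p ℂ_[p])
    (S : Set (K →+* ℂ)), PlaceClosed (TSet ιinf ιp S) →
  ∀ (ξ : Chr K (AlgebraicClosure K) ℂ_[p]), LeopoldtFor ιinf ιp Lg S ξ →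
  ∀ σ : ℂ_[p] ≃ₐ[ℚ_[p]] ℂ_[p],
    LeopoldtFor ιinf ιp Lg S ((Units.map (σ : ℂ_[p] →* ℂ_[p])).comp ξ)

/-- **DICH**, the dichotomy (II; the output of part II, helper17 and helper31). If `χ` is good (and `RamD`), then `χ ξ` is
good for all but finitely many `ξ ∈ Hat η`. -/
def DICH : Prop :=
  ∀ (p : ℕ) [Fact p.Prime] (K : Type) [Field K] [NumberField K]
    (ιinf : AlgebraicClosure K →+* ℂ) (ιp : AlgebraicClosure K →+* ℂ_[p]) (Lg : IwasawaLog p ℂ_[p])
    (S : Set (K →+* ℂ)), PlaceClosed (TSet ιinf ιp S) →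
  ∀ (χ : Chr K (AlgebraicClosure K) ℂ_[p]) (η : ℕ → Chr K (AlgebraicClosure K) ℂ_[p]),
    IsTower η → Unr η → RamD χ η → LeopoldtFor ιinf ιp Lg S χ →
    {ξ | ξ ∈ Hat η ∧ ¬ LeopoldtFor ιinf ιp Lg S (χ * ξ)}.Finite

/-- **D_RAM** (II.8). For a character `κ` of finite order there is `n₁` such that `RamD (κ φ η_n) η` for all `n ≥ n₁` and all `φ` with `φ^p = 1`.

PROOF. Let `N > 0`, `κ^N = 1`, `N p = p^c N'`, `p ∤ N'`. There are only finitely many embeddings `σ : K → ℂ_p`. If `τ, τ' : Ω → ℂ_p` are both above `σ` then `τ' = τ ∘ h` with `h ∈ G` (the images are both the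
algebraic closure of `σ(K)` in `ℂ_p`; `IsAlgClosure.equiv` or `AlgHom` between algebraic closures is bijective), and `InDec τ' g ↔ InDec τ (h g h⁻¹)`, `η_n(h g h⁻¹) = η_n(g)`. So there is `n₂` such that for every `τ` with `∃ n g, InDec τ g ∧ η n g ≠ 1` there
is `g` with `InDec τ g`, `η_{n₂}(g) ≠ 1` (for `n ≤ n₂`, `η_n = η_{n₂}^(p^(n₂-n))`). Let `n₁ = n₂ + c`, `n ≥ n₁`, `φ^p = 1`, `τ, g` as above. Suppose `(κ φ η_n)(g) = 1`. Then `η_n(g)^(N p) = 1`, and `η_n(g)` has `p`-power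
order (`η_n^(p^n) = 1`), so `η_n(g)^(p^c) = 1`, `η_{n-c}(g) = 1`, and `n - c ≥ n₂`, so `η_{n₂}(g) = 1`, a contradiction. -/
def D_RAM : Prop :=
  ∀ (p : ℕ) [Fact p.Prime] (K : Type) [Field K] [NumberField K]
    (η : ℕ → Chr K (AlgebraicClosure K) ℂ_[p]), IsTower η →
  ∀ (κ : Chr K (AlgebraicClosure K) ℂ_[p]), (∃ N : ℕ, 0 < N ∧ κ ^ N = 1) →
  ∃ n₁ : ℕ, ∀ n, n₁ ≤ n → ∀ φ : Chr K (AlgebraicClosure K) ℂ_[p], φ ^ p = 1 → RamD (κ * φ * η n) η

/-- **D_UNR** (a tower is unramified outside `p`).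

PROOF. Let `H_n` be the field of `η_n` (`CutsOut η_n H` determines `H`); it is cyclic of degree `p^n` over `K`, `H_n ⊆ H_{n+1}`. Suppose that `v ∤ p` and `v 𝓞_{H_n} ⊆ V²`: `v` is ramified in `H_n`. For `N ≥ n` let `V_N` be a prime of `H_N` above `V`, `I_N` its inertia group in `Gal(H_N/K) = ⟨γ_N⟩`; it surjects onto the
inertia group `I_n ≠ 1` of `V`, which contains `γ_n^(p^(n-1))`; so `I_N` contains an element `γ_N^(p^(n-1) u)`, `p ∤ u`, and `|I_N| ≥ p^(N-n+1)`. (If you prefer: the ramification index of `V_N` over `v` is at least `p^(N-n+1)`.) CLAIM: `|I_N|` divides `Nv - 1`. This is a contradiction for `N` large.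
Let `V = V_N`, `I = I_N`, `D` the decomposition group, `k(V) = 𝓞/V` of characteristic `ℓ ≠ p`, `π ∈ V \ V²`. For `σ ∈ I`, `σ(π) ≡ θ(σ) π mod V²` with a unique `θ(σ) ∈ k(V)ˣ` (`V/V²` is one-dimensional over `k(V)`); `θ` is a homomorphism since `σ` acts trivially on `k(V)`. *`θ` is injective:* `I` is a `p`-group; let
`σ ∈ I`, `θ(σ) = 1`, `σ ≠ 1`, `σ^(p^j) = 1`. Let `i ≥ 1` be minimal such that `σ` acts nontrivially on `𝓞/V^(i+1)` (exists: `⋂ V^i = 0`): `σ x = x + y`, `y ∈ V^i`, `y ∉ V^(i+1)`. `σ` acts trivially on `V^i/V^(i+1)` (generated over `k(V)` by the class of `π^i`). So `σ^a x ≡ x + a y mod V^(i+1)`, with `a = p^j`: `p^j y ∈ V^(i+1)`, so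
`y ∈ V^(i+1)` (`p` is prime to `V`), a contradiction. *Frobenius:* let `φ ∈ D` act on `k(V)` as `x ↦ x^(Nv)`. `φ(π) ≡ c π`. `σ φ = φ σ`: `φ(σ π) ≡ θ(σ)^(Nv) c π`, `σ(φ π) ≡ c θ(σ) π`, so `θ(σ)^(Nv - 1) = 1`. `θ(I)` is a finite subgroup of the cyclic group `k(V)ˣ`, killed by `Nv - 1`, so its order divides `Nv - 1`. -/
def D_UNR : Prop :=
  ∀ (p : ℕ) [Fact p.Prime] (K : Type) [Field K] [NumberField K]
    (η : ℕ → Chr K (AlgebraicClosure K) ℂ_[p]), IsTower η → Unr η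

/-- **WOUT**, the output of part W. For every `n₀`, the pairs `(N, φ)` in `A` such that `κ φ η_n` is not good for all `n ≥ n₀` have
density `0` in `A`. -/
def WOUT : Prop :=
  ∀ (p : ℕ) [Fact p.Prime] (K : Type) [Field K] [NumberField K]
    (ιinf : AlgebraicClosure K →+* ℂ) (ιp : AlgebraicClosure K →+* ℂ_[p]) (L : IwasawaLog p ℂ_[p])
    (D : BaseChr ιinf ιp), ¬ IsOmega D.κ →
  ∀ (η : ℕ → Chr K (AlgebraicClosure K) ℂ_[p]), IsTower η →
  ∀ (A : Set (IntermediateField K (AlgebraicClosure K) × Chr K (AlgebraicClosure K) ℂ_[p])),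
    IsLocal A →
  ∀ (e : IntermediateField K (AlgebraicClosure K) × Chr K (AlgebraicClosure K) ℂ_[p] → ℕ),
    IsWeight e → ∀ (n₀ : ℕ) (ε : ℝ), 0 < ε → ∀ᶠ X : ℕ in Filter.atTop,
    countChr e {x | x ∈ A ∧ ∀ n, n₀ ≤ n → ¬ LeopoldtFor ιinf ιp L D.S (D.κ * x.2 * η n)} X ≤
      ε * countChr e A X

/-- **T100**, the theorem. -/
def T100 : Prop :=
  ∀ (p : ℕ) [Fact p.Prime] (K : Type) [Field K] [NumberField K]
    (ιinf : AlgebraicClosure K →+* ℂ) (ιp : AlgebraicClosure K →+* ℂ_[p]) (L : IwasawaLog p ℂ_[p])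
    (D : BaseChr ιinf ιp), ¬ IsOmega D.κ →
  ∀ (η : ℕ → Chr K (AlgebraicClosure K) ℂ_[p]), IsTower η →
  ∀ (A : Set (IntermediateField K (AlgebraicClosure K) × Chr K (AlgebraicClosure K) ℂ_[p])),
    IsLocal A →
  ∀ (e : IntermediateField K (AlgebraicClosure K) × Chr K (AlgebraicClosure K) ℂ_[p] → ℕ),
    IsWeight e → ∀ (ε : ℝ), 0 < ε → ∀ᶠ X : ℕ in Filter.atTop,
    countChr e {x | x ∈ A ∧ {ξ | ξ ∈ Hat η ∧ ¬ ∀ σ : ℂ_[p] ≃ₐ[ℚ_[p]] ℂ_[p],
      LeopoldtFor ιinf ιp L D.S ((Units.map (σ : ℂ_[p] →* ℂ_[p])).comp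
        (D.κ * x.2 * ξ))}.Infinite} X ≤ ε * countChr e A X

/-- **D_FIN** (from `WOUT` and `DICH` to `T100`).

PROOF. `D.isOrdinary` gives `PlaceClosed (TSet ιinf ιp D.S)` (compare the proof of `main_y`, search for `PlaceClosed (TSet`; an embedding `K → ℂ_p` is `ιp ∘ σ`). By `D_INV` the condition with all `σ` is equivalent to the one with `σ = 1`. `D.κ` has finite order (`D.finite`, `D.cutsOut`). Let `n₁` be as in `D_RAM`. CLAIM: if
`x ∈ A` and `κ φ η_n` is good (`φ = x.2`) for some `n ≥ n₁`, then `{ξ ∈ Hat η : κ φ ξ not good}` is finite. `φ^p = 1` (`x ∈ AllChr`: `φ` cuts out `N`, `[N : K] = p`). `χ = κ φ η_n`: `RamD χ η` by `D_RAM`, `Unr η` by `D_UNR`, so by `DICH` the set `Y` of the `ξ' ∈ Hat η` with `χ ξ'` not good is finite. If `κ φ ξ` is not good,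
then `ξ' = η_n⁻¹ ξ ∈ Hat η` (`η_n` has finite order) is in `Y`. So the set in `T100` is contained in the set of `WOUT` for `n₀ = n₁`; `countChr` is monotone in the set (finiteness of `{x ∈ AllChr, tame * e ≤ X}`: first part of the theorem `main_y` in `Pool/Agent/Helper38/FY/Final.lean`). -/
def D_FIN : Prop := WOUT → DICH → D_INV → D_RAM → D_UNR → T100

end Pool.Agent.Helper38.TH
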