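import Pool.Agent.Helper38.TH.AsmD

/-!
# Project TH: all `ℤ_p`-extensions at once

If no place above `p` splits completely in the tower `η`, then for `100 %` of the pairs `(N, φ)`, for all but finitely
many `ξ ∈ Hat η`, for every tower `η'`, for all but finitely many `ξ' ∈ Hat η'`, the statement holds for `κ φ ξ ξ'`.
-/

set_option autoImplicit false

namespace Pool.Agent.Helper38.TH

open NumberField Module IsDedekindDomain TensorProduct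
open Pool.Agent.Helper51.SigLeo Pool.Agent.Helper51.RP Pool.Agent.Helper42.RD
open Pool.Agent.Helper38.FD (Chr CutsOut LeopoldtFor)
open Pool.Agent.Helper38.FW (InDec IsOmega IsLocal IsWeight AllChr tame countChr)
open Pool.Agent.Helper38.FY (BaseChr)
open Pool.Agent.Helper57.TH (tower_pow tower_le tower_ord exists_level chr_pow_finrank)

section

variable {p : ℕ} [Fact p.Prime] {K : Type} [Field K]

/-- No place above `p` splits completely in the tower. -/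
def NoSplit (η : ℕ → Chr K (AlgebraicClosure K) ℂ_[p]) : Prop :=
  ∀ τ : AlgebraicClosure K →+* ℂ_[p], ∃ n g, InDec τ g ∧ η n g ≠ 1

theorem pow_finite {η : ℕ → Chr K (AlgebraicClosure K) ℂ_[p]} (hη : IsTower η) (m : ℕ) :
    {ξ : Chr K (AlgebraicClosure K) ℂ_[p] | ∃ a : ℕ, ξ = η m ^ a}.Finite := by
  have hp : p.Prime := Fact.out
  refine ((Finset.range (p ^ m)).finite_toSet.image fun a ↦ η m ^ a).subset ?_
  rintro ξ ⟨a, rfl⟩
  refine ⟨a % p ^ m, ?_, ?_⟩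
  · simp [Nat.mod_lt a (pow_pos hp.pos m)]
  · refine MonoidHom.ext fun g ↦ ?_
    show (η m g) ^ (a % p ^ m) = (η m g) ^ a
    conv_rhs => rw [← Nat.mod_add_div a (p ^ m), pow_add, pow_mul, tower_ord hη m g, one_pow,
      mul_one]

/-- The characters `ξ ∈ Hat η` for which `κ φ ξ` is trivial on a decomposition group above `p`. -/
theorem dec_finite [NumberField K] {η : ℕ → Chr K (AlgebraicClosure K) ℂ_[p]} (hη : IsTower η)
    (hS : NoSplit η) (χ : Chr K (AlgebraicClosure K) ℂ_[p]) {N : ℕ} (hN : 0 < N)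
    (hχ : χ ^ N = 1) :
    {ξ | ξ ∈ Hat η ∧ ¬ ∀ τ : AlgebraicClosure K →+* ℂ_[p], ∃ g, InDec τ g ∧ (χ * ξ) g ≠ 1}.Finite := by
  have hp : p.Prime := Fact.out
  obtain ⟨n₂, hn₂⟩ := exists_level hη
  obtain ⟨c, N', hN', hc⟩ := Nat.exists_eq_pow_mul_and_not_dvd hN.ne' p hp.ne_one
  refine (pow_finite hη (n₂ + c)).subset ?_
  rintro ξ ⟨⟨n, a, rfl⟩, h⟩
  push Not at h
  obtain ⟨τ, hτ⟩ := h
  obtain ⟨g, hg, hg1⟩ := hn₂ τ (hS τ)
  rcases Nat.le_total n (n₂ + c) with hn | hn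
  · obtain ⟨d, hd⟩ := Nat.exists_eq_add_of_le hn
    refine ⟨p ^ d * a, MonoidHom.ext fun g ↦ ?_⟩
    show (η n g) ^ a = (η (n₂ + c) g) ^ (p ^ d * a)
    rw [pow_mul, hd, tower_pow hη n d g]
  · obtain ⟨d, hd⟩ := Nat.exists_eq_add_of_le hn
    have h1 : (η n g) ^ (a * N) = 1 := by
      have h2 : χ g * (η n g) ^ a = 1 := hτ g hg
      have h3 : (χ g) ^ N = 1 := DFunLike.congr_fun hχ g
      have h4 : (χ g * (η n g) ^ a) ^ N = 1 := by rw [h2, one_pow]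
      rw [mul_pow, h3, one_mul, ← pow_mul] at h4
      exact h4
    -- the order of `η n g`
    have h5 : (η n g) ^ p ^ n = 1 := tower_ord hη n g
    rw [← orderOf_dvd_iff_pow_eq_one] at h1 h5
    obtain ⟨s, hs, hs2⟩ := (Nat.dvd_prime_pow hp).1 h5
    have h6 : ¬ s ≤ n - n₂ := by
      intro h7
      apply hg1
      have h8 := tower_pow hη n₂ (n - n₂) g
      rw [Nat.add_sub_cancel' (by omega : n₂ ≤ n)] at h8
      rw [← h8, ← orderOf_dvd_iff_pow_eq_one, hs2]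
      exact pow_dvd_pow p h7
    rw [hs2, hc, ← mul_assoc] at h1
    have h9 : p ^ s ∣ a * p ^ c := by
      have hcop : Nat.Coprime (p ^ s) N' :=
        Nat.Coprime.pow_left s ((Nat.Prime.coprime_iff_not_dvd hp).2 hN')
      exact hcop.dvd_of_dvd_mul_right h1
    have h10 : p ^ d ∣ a := by
      have h11 : s = d + c + (s - (d + c)) := by omega
      rw [h11, pow_add, pow_add] at h9
      have h12 : p ^ d * p ^ c ∣ a * p ^ c := (Dvd.intro _ rfl).trans h9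
      exact Nat.dvd_of_mul_dvd_mul_right (pow_pos hp.pos c) h12
    obtain ⟨a', rfl⟩ := h10
    refine ⟨a', MonoidHom.ext fun g ↦ ?_⟩
    show (η n g) ^ (p ^ d * a') = (η (n₂ + c) g) ^ a'
    rw [pow_mul, hd, tower_pow hη (n₂ + c) d g]

end

/-- **T100B**: all the `ℤ_p`-extensions of `K` at once. -/
def T100B : Prop :=
  ∀ (p : ℕ) [Fact p.Prime] (K : Type) [Field K] [NumberField K]
    (ιinf : AlgebraicClosure K →+* ℂ) (ιp : AlgebraicClosure K →+* ℂ_[p]) (L : IwasawaLog p ℂ_[p])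
    (D : BaseChr ιinf ιp), ¬ IsOmega D.κ →
  ∀ (η : ℕ → Chr K (AlgebraicClosure K) ℂ_[p]), IsTower η → NoSplit η →
  ∀ (A : Set (IntermediateField K (AlgebraicClosure K) × Chr K (AlgebraicClosure K) ℂ_[p])),
    IsLocal A →
  ∀ (e : IntermediateField K (AlgebraicClosure K) × Chr K (AlgebraicClosure K) ℂ_[p] → ℕ),
    IsWeight e → ∀ (ε : ℝ), 0 < ε → ∀ᶠ X : ℕ in Filter.atTop,
    countChr e {x | x ∈ A ∧ {ξ | ξ ∈ Hat η ∧ ∃ η', IsTower η' ∧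
      {ξ' | ξ' ∈ Hat η' ∧ ¬ ∀ σ : ℂ_[p] ≃ₐ[ℚ_[p]] ℂ_[p],
        LeopoldtFor ιinf ιp L D.S ((Units.map (σ : ℂ_[p] →* ℂ_[p])).comp
          (D.κ * x.2 * ξ * ξ'))}.Infinite}.Infinite} X ≤ ε * countChr e A X

theorem t100b_of (hT : T100) (hDich : DICH) : T100B := by
  intro p _ K _ _ ιinf ιp L D hom η hη hS A hA e he ε hε
  have hp : p.Prime := Fact.out
  have hcl : PlaceClosed (TSet ιinf ιp D.S) :=
    Pool.Agent.Helper35.RD.tset_closed ιinf ιp D.S D.isOrdinary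
  have hκ : ∃ N : ℕ, 0 < N ∧ D.κ ^ N = 1 := by
    have := D.finite
    exact ⟨finrank K D.H, finrank_pos, chr_pow_finrank D.cutsOut⟩
  obtain ⟨N, hN, hκN⟩ := hκ
  have hsub : {x | x ∈ A ∧ {ξ | ξ ∈ Hat η ∧ ∃ η', IsTower η' ∧
      {ξ' | ξ' ∈ Hat η' ∧ ¬ ∀ σ : ℂ_[p] ≃ₐ[ℚ_[p]] ℂ_[p],
        LeopoldtFor ιinf ιp L D.S ((Units.map (σ : ℂ_[p] →* ℂ_[p])).comp
          (D.κ * x.2 * ξ * ξ'))}.Infinite}.Infinite} ⊆
      {x | x ∈ A ∧ {ξ | ξ ∈ Hat η ∧ ¬ ∀ σ : ℂ_[p] ≃ₐ[ℚ_[p]] ℂ_[p],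
      LeopoldtFor ιinf ιp L D.S ((Units.map (σ : ℂ_[p] →* ℂ_[p])).comp
        (D.κ * x.2 * ξ))}.Infinite} := by
    rintro x ⟨hxA, hinf⟩
    refine ⟨hxA, fun hfin ↦ hinf ?_⟩
    have hφ : x.2 ^ p = 1 := by
      have h1 := hA.subset hxA
      have h2 := chr_pow_finrank h1.2
      rw [h1.1] at h2
      exact h2
    have hχN : (D.κ * x.2) ^ (N * p) = 1 := by
      refine MonoidHom.ext fun g ↦ ?_
      show (D.κ g * x.2 g) ^ (N * p) = 1
      have e1 : (D.κ g) ^ N = 1 := DFunLike.congr_fun hκN g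
      have e2 : (x.2 g) ^ p = 1 := DFunLike.congr_fun hφ g
      rw [mul_pow, pow_mul, e1, one_pow, one_mul, mul_comm, pow_mul, e2, one_pow]
    have hdec := dec_finite hη hS (D.κ * x.2) (Nat.mul_pos hN hp.pos) hχN
    refine (hfin.union hdec).subset ?_
    rintro ξ ⟨hξ, η', hη', hbad⟩
    by_contra hne
    simp only [Set.mem_union, Set.mem_setOf_eq, not_or, not_and, not_not] at hne
    obtain ⟨h1, h2⟩ := hne
    have h3 := h2 hξ
    have hgood : LeopoldtFor ιinf ιp L D.S (D.κ * x.2 * ξ) := by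
      have h4 := h1 hξ AlgEquiv.refl
      have h5 : (Units.map ((AlgEquiv.refl : ℂ_[p] ≃ₐ[ℚ_[p]] ℂ_[p]) : ℂ_[p] →* ℂ_[p])).comp
          (D.κ * x.2 * ξ) = D.κ * x.2 * ξ := by
        refine MonoidHom.ext fun g ↦ ?_
        ext
        rfl
      rw [h5] at h4
      exact h4
    have hfin' := hDich p K ιinf ιp L D.S hcl (D.κ * x.2 * ξ) η' hη'
      (Pool.Agent.Helper32.TH.d_unr p K η' hη') (fun τ _ ↦ h3 τ) hgood
    refine hbad (hfin'.subset ?_)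
    rintro ξ' ⟨hξ', hb⟩
    refine ⟨hξ', fun hL ↦ hb fun σ ↦ ?_⟩
    exact Pool.Agent.Helper8.TH.d_inv p K ιinf ιp L D.S hcl _ hL σ
  filter_upwards [hT p K ιinf ιp L D hom η hη A hA e he ε hε] with X hX
  refine le_trans ?_ hX
  unfold countChr
  have h5 := fun x (hx : x ∈ {x | x ∈ {x | x ∈ A ∧ {ξ | ξ ∈ Hat η ∧ ∃ η', IsTower η' ∧
      {ξ' | ξ' ∈ Hat η' ∧ ¬ ∀ σ : ℂ_[p] ≃ₐ[ℚ_[p]] ℂ_[p],
        LeopoldtFor ιinf ιp L D.S ((Units.map (σ : ℂ_[p] →* ℂ_[p])).comp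
          (D.κ * x.2 * ξ * ξ'))}.Infinite}.Infinite} ∧ tame p K x.1 * e x ≤ X}) ↦
    (⟨hsub hx.1, hx.2⟩ : x ∈ {x | x ∈ {x | x ∈ A ∧ {ξ | ξ ∈ Hat η ∧
      ¬ ∀ σ : ℂ_[p] ≃ₐ[ℚ_[p]] ℂ_[p],
      LeopoldtFor ιinf ιp L D.S ((Units.map (σ : ℂ_[p] →* ℂ_[p])).comp
        (D.κ * x.2 * ξ))}.Infinite} ∧ tame p K x.1 * e x ≤ X})
  have h6 : {x | x ∈ {x | x ∈ A ∧ {ξ | ξ ∈ Hat η ∧
      ¬ ∀ σ : ℂ_[p] ≃ₐ[ℚ_[p]] ℂ_[p],
      LeopoldtFor ιinf ιp L D.S ((Units.map (σ : ℂ_[p] →* ℂ_[p])).comp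
        (D.κ * x.2 * ξ))}.Infinite} ∧ tame p K x.1 * e x ≤ X}.Finite :=
    (Pool.Agent.Helper57.TH.fin_y p K ιinf ιp L D A hA e he X).subset
      fun x hx ↦ ⟨hA.subset hx.1.1, hx.2⟩
  exact_mod_cast Set.ncard_le_ncard h5 h6

end Pool.Agent.Helper38.TH
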