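import Pool.Agent.Helper38.FW.Defs
import Pool.Agent.Helper42.RD.Defs
import Pool.Agent.Helper51.RP.Defs

/-!
# Project TH (MP_fc6b1e_nt, T100), part II (the dichotomy): definitions

`Ω` is the algebraic closure of the number field `K`, `G = Gal(Ω/K)`.
-/

set_option autoImplicit false

namespace Pool.Agent.Helper38.TH

open NumberField Module IsDedekindDomain TensorProduct
open Pool.Agent.Helper51.SigLeo Pool.Agent.Helper51.RP
open Pool.Agent.Helper38.FD (Chr CutsOut LeopoldtFor)
open Pool.Agent.Helper38.FW (InDec)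

section tower

variable {p : ℕ} [Fact p.Prime] {K : Type} [Field K]

/-- A tower of characters: `η_0 = 1`, `η_1 ≠ 1`, `η_{n+1}^p = η_n`, and every `η_n` cuts out a finite extension of `K`
(cyclic of degree `p^n`). The union of these extensions is a `ℤ_p`-extension `K_∞` of `K`, and every
`ℤ_p`-extension is obtained in this way. -/
structure IsTower (η : ℕ → Chr K (AlgebraicClosure K) ℂ_[p]) : Prop where
  zero : η 0 = 1
  one_ne : η 1 ≠ 1
  pow : ∀ n, η (n + 1) ^ p = η n
  fin : ∀ n, ∃ H : IntermediateField K (AlgebraicClosure K),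
    FiniteDimensional K H ∧ CutsOut (η n) H

/-- The characters of finite order of `Gal(K_∞/K)`. -/
def Hat (η : ℕ → Chr K (AlgebraicClosure K) ℂ_[p]) : Set (Chr K (AlgebraicClosure K) ℂ_[p]) :=
  {ξ | ∃ n a : ℕ, ξ = η n ^ a}

/-- The tower is unramified outside `p`. -/
def Unr [NumberField K] (η : ℕ → Chr K (AlgebraicClosure K) ℂ_[p]) : Prop :=
  ∀ (n : ℕ) (H : IntermediateField K (AlgebraicClosure K)), CutsOut (η n) H →
  ∀ v : HeightOneSpectrum (𝓞 K), (p : 𝓞 K) ∉ v.asIdeal → ∀ V : HeightOneSpectrum (𝓞 H),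
    ¬ v.asIdeal.map (algebraMap (𝓞 K) (𝓞 H)) ≤ V.asIdeal ^ 2

/-- At every place above `p` which does not split completely in the tower, `χ` is not trivial on the decomposition
group. -/
def RamD (χ : Chr K (AlgebraicClosure K) ℂ_[p]) (η : ℕ → Chr K (AlgebraicClosure K) ℂ_[p]) :
    Prop :=
  ∀ τ : AlgebraicClosure K →+* ℂ_[p], (∃ n g, InDec τ g ∧ η n g ≠ 1) →
    ∃ g, InDec τ g ∧ χ g ≠ 1

end tower

section act

variable {K : Type} [Field K]

/-- The action of `g ∈ Gal(Ω/K)` on the units of the normal extension `E` of `K`. -/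
noncomputable def actU (E : IntermediateField K (AlgebraicClosure K)) [Normal K E]
    (g : AlgebraicClosure K ≃ₐ[K] AlgebraicClosure K) : Additive (𝓞 E)ˣ →+ Additive (𝓞 E)ˣ :=
  unitsHom (AlgEquiv.restrictNormalHom E g)

end act

end Pool.Agent.Helper38.TH
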