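import Pool.Agent.Helper38.FY.Defs
import Pool.Agent.Helper38.TH.DefsD

/-!
# Project TH (MP_fc6b1e_nt): the definitions of the final statement

`Ω` is the algebraic closure of the number field `K`. A tower (`IsTower`, `DefsD.lean`) is a `ℤ_p`-extension of `K`,
`Hat` is the set of its characters of finite order.
-/

set_option autoImplicit false

namespace Pool.Agent.Helper38.TH

open Pool.Agent.Helper51.SigLeo
open Pool.Agent.Helper38.FD (Chr)
open Pool.Agent.Helper38.FW (InDec)
open Pool.Agent.Helper38.FY (BaseChr)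

section

variable {p : ℕ} [Fact p.Prime] {K : Type} [Field K]

/-- Every place above `p` which splits completely in the tower `η` splits completely in the tower `η'`. -/
def Below (η' η : ℕ → Chr K (AlgebraicClosure K) ℂ_[p]) : Prop :=
  ∀ τ : AlgebraicClosure K →+* ℂ_[p], (∃ n g, InDec τ g ∧ η' n g ≠ 1) →
    ∃ n g, InDec τ g ∧ η n g ≠ 1

end

section

variable {p : ℕ} [Fact p.Prime] {K : Type} [Field K] [NumberField K]
  {ιinf : AlgebraicClosure K →+* ℂ} {ιp : AlgebraicClosure K →+* ℂ_[p]}

/-- The pair `x = (N, φ)` and the character `ξ` of the tower `η`: the statement holds for `κ φ ξ` (and its conjugates), and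
for all the towers `η'` with `Below η' η` it holds for `κ φ ξ ξ'` for all but finitely many `ξ' ∈ Hat η'`. -/
def Full (D : BaseChr ιinf ιp) (L : IwasawaLog p ℂ_[p])
    (η : ℕ → Chr K (AlgebraicClosure K) ℂ_[p])
    (x : IntermediateField K (AlgebraicClosure K) × Chr K (AlgebraicClosure K) ℂ_[p])
    (ξ : Chr K (AlgebraicClosure K) ℂ_[p]) : Prop :=
  D.Good L (x.1, x.2 * ξ) ∧ ∀ η', IsTower η' → Below η' η →
    {ξ' | ξ' ∈ Hat η' ∧ ¬ D.Good L (x.1, x.2 * ξ * ξ')}.Finite

end

end Pool.Agent.Helper38.TH
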