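import Pool.Agent.Helper38.TH.AllZp
import Mathlib.NumberTheory.Cyclotomic.CyclotomicCharacter

/-!
# Project TH: the cyclotomic `ℤ_p`-extension (a tower in which no place above `p` splits completely)
-/

set_option autoImplicit false

namespace Pool.Agent.Helper38.TH

open NumberField Module
open Pool.Agent.Helper38.FD (Chr CutsOut)
open Pool.Agent.Helper38.FW (InDec)

/-- **E_LOG**. A homomorphism `l : ℤ_pˣ → ℤ_p` with kernel of exponent `2 (p - 1)`, continuous at `1`.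

PROOF. `l(u) = log(u^(2(p-1)))`. Let `q = p` (`p` odd), `q = 4` (`p = 2`). `v = u^(2(p-1)) ∈ 1 + q ℤ_p` (`p` odd: Fermat in `ℤ_p/p = ZMod p`; `p = 2`: the square of an odd number is `1 mod 8`; `toZModPow`). For `v ∈ 1 + q ℤ_p` there is for every `n` a unique `a_n(v) ∈ q ℤ_p` with
`v^(p^n) = 1 + p^n a_n(v)`: `a_0 = v - 1`; with `t = p^n a_n`, `(1 + t)^p = 1 + p t + ∑_{k ≥ 2} C(p,k) t^k`, and `p^(n+1)` divides `t^k`, more precisely: `C(p,k) t^k` for `2 ≤ k < p` is divisible by `p t²` and `t^p` (`p` odd) is divisible by `t³`, in all the cases the sum over `k ≥ 2` is `p^(n+1) a_n y` with `y ∈ p^n ℤ_p`, `y ∈ p ℤ_p`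
(`p` odd: `C(p,k) t^k = p t · (C(p,k)/p) t^(k-1)`, `t^p = p t · t^(p-1)/p`, `t^(p-1)/p` is divisible by `t`, as `t² / p` is divisible by `t`; `p = 2`: `t² = 2 t · (t/2)`, `t/2 = 2^(n-1) a_n` with `4 ∣ a_n`). So `a_(n+1) = a_n (1 + y_n)`, `y_n ∈ p^(max(n,1)) ℤ_p`, hence `‖a_(n+1) - a_n‖ ≤ p^(-n)` and
`‖a_n‖ = ‖a_0‖ = ‖v - 1‖` for all `n`. So the `a_n` are a Cauchy sequence (`cauchySeq_of_le_geometric`), `λ(v) = lim a_n`, `‖λ(v)‖ = ‖v - 1‖` (so `λ(v) = 0` implies `v = 1`: first claim; and `p^n ∣ v - 1` implies `p^n ∣ λ(v)`: second claim with `c = n`, since `u ≡ 1 mod p^n` implies `u^(2(p-1)) ≡ 1 mod p^n`).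
`λ(v w) = λ(v) + λ(w)`: `(v w)^(p^n) - 1 = (v^(p^n) - 1)(w^(p^n) - 1) + (v^(p^n) - 1) + (w^(p^n) - 1)`, so `a_n(v w) = p^n a_n(v) a_n(w) + a_n(v) + a_n(w)`.
(Any other construction of `l` is fine, for instance as a limit in `ℤ_p` of `(v^(p^n) - 1)/p^n` computed in `ℚ_p`.) -/
def E_LOG : Prop :=
  ∀ (p : ℕ) [Fact p.Prime], ∃ l : ℤ_[p]ˣ →* Multiplicative ℤ_[p],
    (∀ u : ℤ_[p]ˣ, Multiplicative.toAdd (l u) = 0 → u ^ (2 * (p - 1)) = 1) ∧
    ∀ n : ℕ, ∃ c : ℕ, ∀ u : ℤ_[p]ˣ, (p : ℤ_[p]) ^ c ∣ (u : ℤ_[p]) - 1 →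
      (p : ℤ_[p]) ^ n ∣ Multiplicative.toAdd (l u)

/-- **E_IMG**. The cyclotomic character has infinite image on every decomposition group above `p`.

PROOF. Let `Ω = AlgebraicClosure K`, `E = ℚ_p(τ(K)) ⊆ ℂ_p` (`IntermediateField.adjoin ℚ_[p]` of the image of `K`), `[E : ℚ_p] = m < ∞` (generated by finitely many algebraic elements: the image of a primitive element of `K`), `Q` the algebraic closure of `E` in `ℂ_p`; `τ(Ω) ⊆ Q`. (1) *Restriction:* let
`s` be an automorphism of `Q` over `E`. `s(τ Ω) = τ Ω`, because `τ Ω` is the set of the elements of `Q` which are algebraic over `ℚ`. So there is `g : Ω ≃ₐ[K] Ω` with `τ (g x) = s (τ x)`. `InDec τ g`: `‖s y‖ = ‖y‖` for `y ∈ Q` because `s` is `ℚ_p`-linear: the norm of `ℂ_p` restricted to `Q` and its composition with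
`s` are both multiplicative norms which extend the norm of the complete field `ℚ_p`, `Q/ℚ_p` algebraic (`spectralNorm_unique`, `spectralNorm_unique_field_norm_ext` or `spectralNorm_aut_isom` and the like; or: the minimal polynomials of `y` and `s y` are the same and `‖y‖ = spectralNorm`). (2) Suppose that `cyc(g)^d = 1` for all the `g` of (1). The image of `cyc` on these `g` has at most `d`
elements (roots of `X^d - 1` in the domain `ℤ_p`). Let `ζ ∈ Ω` be a primitive `p^c`-th root of unity. The conjugates of `τ ζ` over `E` are the `s(τ ζ) = τ(g ζ)` (every root of the minimal polynomial of `τ ζ` over `E` is `s(τ ζ)` for an automorphism `s` of the algebraic closure `Q` of `E`: `minpoly`, `IsAlgClosed.lift`, `Normal`,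
`exists_algHom_of_splits`, or `IsConjRoot`/`isConjRoot_iff_exists_algEquiv`), and `g ζ = ζ^(cyc(g) mod p^c)` (`cyclotomicCharacter.spec`): at most `d` elements. So `[E(τ ζ) : E] ≤ d`, `[ℚ_p(τ ζ) : ℚ_p] ≤ [E(τ ζ) : ℚ_p] ≤ d m` for all `c`. But `[ℚ_p(τ ζ) : ℚ_p] = φ(p^c)` (for instance: `f = cyclotomic (p^c)`,
`f.comp (X + 1)` is an Eisenstein polynomial at `p`: `Polynomial.cyclotomic_prime_pow_comp_X_add_one_isEisensteinAt` over `ℤ`, map it to `ℤ_p`, irreducible over `ℤ_p` and over `ℚ_p` by Gauss (`Polynomial.Monic.irreducible_iff_irreducible_map_fraction_map`); or by norms: `π = τ ζ - 1`, `‖π‖^(φ(p^c)) = ‖p‖` (`∏ (1 - ζ^j) = p`,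
`(1 - ζ^j)/(1 - ζ)` is a unit), and `‖π‖^D ∈ p^ℤ` for `D = [ℚ_p(π) : ℚ_p]`), a contradiction for `c` large. -/
def E_IMG : Prop :=
  ∀ (p : ℕ) [Fact p.Prime] (K : Type) [Field K] [NumberField K]
    (τ : AlgebraicClosure K →+* ℂ_[p]) (d : ℕ), 0 < d →
  ∃ g : AlgebraicClosure K ≃ₐ[K] AlgebraicClosure K, InDec τ g ∧
    cyclotomicCharacter (AlgebraicClosure K) p (g : AlgebraicClosure K ≃+* AlgebraicClosure K) ^ d ≠
      1

/-- **E_CYC**: the cyclotomic `ℤ_p`-extension is a tower in which no place above `p` splits completely. -/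
def E_CYC : Prop :=
  ∀ (p : ℕ) [Fact p.Prime] (K : Type) [Field K] [NumberField K],
    ∃ η : ℕ → Chr K (AlgebraicClosure K) ℂ_[p], IsTower η ∧ NoSplit η

/-- **E_TOW** (from the logarithm and the image of the decomposition groups to the tower).

PROOF. `l` as in `E_LOG`, `cyc(g) = cyclotomicCharacter Ω p g`, `ℓ(g) = l(cyc(g)) ∈ ℤ_p`, a homomorphism. `ℓ ≠ 0` (`E_IMG` with `d = 2(p-1)` for one `τ`: `Ω → ℂ_p` exists since `ℂ_p` is algebraically closed: `IsAlgClosed.lift`). Let `a` be the minimum of the `PadicInt.valuation` of the `ℓ(g) ≠ 0`, `ℓ(g₀)` of valuation `a`,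
`ℓ(g) = p^a ℓ'(g)`, `ℓ' : G → ℤ_p` a homomorphism, `ℓ'(g₀)` a unit. Let `ζ_n ∈ ℂ_pˣ` be primitive `p^n`-th roots of unity, `ζ_(n+1)^p = ζ_n` (recursively by `IsAlgClosed.exists_pow_nat_eq`), `η_n(g) = ζ_n^((toZModPow n (ℓ'(g))).val)`. It is a homomorphism; `η_0 = 1`, `η_1(g₀) ≠ 1`, `η_(n+1)^p = η_n` (`p · val` : `ζ_(n+1)^(p b) = ζ_n^b`, and
`b` and `val (toZModPow n ..)` are congruent modulo `p^n`: `PadicInt.cast_toZModPow`, `zmod_cast_comp_toZModPow`). *Finite:* let `c` be as in `E_LOG` for `n + a`. If `g` fixes `F = K(ζ)`, `ζ` a primitive `p^c`-th root of unity of `Ω`, then `toZModPow c (cyc g) = 1` (`cyclotomicCharacter.spec`, `modularCyclotomicCharacter.unique`; see the last lines of the proof of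
`cyclotomicCharacter.continuous` in Mathlib), so `p^c ∣ cyc(g) - 1` (`PadicInt.ker_toZModPow`), `p^(n+a) ∣ ℓ(g)`, `p^n ∣ ℓ'(g)`, `η_n(g) = 1`. So `ker η_n` contains the open subgroup `F.fixingSubgroup`, it is open, hence closed, `H = fixedField (ker η_n) ⊆ F` is finite, and `CutsOut (η n) H` is `InfiniteGalois.fixingSubgroup_fixedField` (for `F ⊆ Ω` finite and separable, or work in the Galois closure of
`F`, which is finite: `Gal(F/K)` finite Galois theory). *NoSplit:* given `τ` let `g` be as in `E_IMG` for `d = 2(p-1)`; `ℓ(g) ≠ 0`, `ℓ'(g) ≠ 0`, so `p^n ∤ ℓ'(g)` for some `n`, and `η_n(g) ≠ 1`. -/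
def E_TOW : Prop := E_LOG → E_IMG → E_CYC

theorem e_cyc_of (h : E_TOW) (h1 : E_LOG) (h2 : E_IMG) : E_CYC := h h1 h2

end Pool.Agent.Helper38.TH
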