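import Pool.Agent.Helper38.TH.AllZp
import Pool.Agent.Helper38.TH.DefsF

/-!
# Project TH: the final form of the theorem

`Full L D η φ ξ`: the statement holds for `κ φ ξ`, and for every tower `η'` in which every place above `p` which splits
completely in `η` splits completely, it holds for `κ φ ξ ξ'` for all but finitely many `ξ' ∈ Hat η'`.
-/

set_option autoImplicit false

namespace Pool.Agent.Helper38.TH

open NumberField Module IsDedekindDomain TensorProduct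
open Pool.Agent.Helper51.SigLeo Pool.Agent.Helper51.RP Pool.Agent.Helper42.RD
open Pool.Agent.Helper38.FD (Chr CutsOut LeopoldtFor)
open Pool.Agent.Helper38.FW (InDec IsOmega IsLocal IsWeight AllChr tame countChr)
open Pool.Agent.Helper38.FY (BaseChr)
open Pool.Agent.Helper57.TH (tower_pow tower_le tower_ord exists_level chr_pow_finrank)

section

variable {p : ℕ} [Fact p.Prime] {K : Type} [Field K]

/-- The characters `ξ ∈ Hat η` for which `RamD (χ ξ) η` is false. -/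
theorem ram_finite [NumberField K] {η : ℕ → Chr K (AlgebraicClosure K) ℂ_[p]} (hη : IsTower η)
    (χ : Chr K (AlgebraicClosure K) ℂ_[p]) {N : ℕ} (hN : 0 < N) (hχ : χ ^ N = 1) :
    {ξ | ξ ∈ Hat η ∧ ¬ RamD (χ * ξ) η}.Finite := by
  have hp : p.Prime := Fact.out
  obtain ⟨n₂, hn₂⟩ := exists_level hη
  obtain ⟨c, N', hN', hc⟩ := Nat.exists_eq_pow_mul_and_not_dvd hN.ne' p hp.ne_one
  refine (pow_finite hη (n₂ + c)).subset ?_
  rintro ξ ⟨⟨n, a, rfl⟩, h⟩
  unfold RamD at h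
  push Not at h
  obtain ⟨τ, hsp, hτ⟩ := h
  obtain ⟨g, hg, hg1⟩ := hn₂ τ hsp
  rcases Nat.le_total n (n₂ + c) with hn | hn
  · obtain ⟨d, hd⟩ := Nat.exists_eq_add_of_le hn
    refine ⟨p ^ d * a, MonoidHom.ext fun g ↦ ?_⟩
    show (η n g) ^ a = (η (n₂ + c) g) ^ (p ^ d * a)
    rw [pow_mul, hd, tower_pow hη n d g]
  · obtain ⟨d, hd⟩ := Nat.exists_eq_add_of_le hn
    have h1 : (η n g) ^ (a * N) = 1 := by
      have h2 : χ g * (η n g) ^ a = 1 := hτ g hg
      have h3 : (χ g) ^ N = 1 := DFunLike.congr_fun hχ g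
      have h4 : (χ g * (η n g) ^ a) ^ N = 1 := by rw [h2, one_pow]
      rw [mul_pow, h3, one_mul, ← pow_mul] at h4
      exact h4
    -- the order of `η n g`
    have h5 : (η n g) ^ p ^ n = 1 := tower_ord hη n g
    rw [← orderOf_dvd_iff_pow_eq_one] at h1 h5
    obtain ⟨s, hs, hs2⟩ := (Nat.dvd_prime_pow hp).1 h5
    have h6 : ¬ s ≤ n - n₂ := by
      intro h7
      apply hg1
      have h8 := tower_pow hη n₂ (n - n₂) g
      rw [Nat.add_sub_cancel' (by omega : n₂ ≤ n)] at h8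
      rw [← h8, ← orderOf_dvd_iff_pow_eq_one, hs2]
      exact pow_dvd_pow p h7
    rw [hs2, hc, ← mul_assoc] at h1
    have h9 : p ^ s ∣ a * p ^ c := by
      have hcop : Nat.Coprime (p ^ s) N' :=
        Nat.Coprime.pow_left s ((Nat.Prime.coprime_iff_not_dvd hp).2 hN')
      exact hcop.dvd_of_dvd_mul_right h1
    have h10 : p ^ d ∣ a := by
      have h11 : s = d + c + (s - (d + c)) := by omega
      rw [h11, pow_add, pow_add] at h9
      have h12 : p ^ d * p ^ c ∣ a * p ^ c := (Dvd.intro _ rfl).trans h9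
      exact Nat.dvd_of_mul_dvd_mul_right (pow_pos hp.pos c) h12
    obtain ⟨a', rfl⟩ := h10
    refine ⟨a', MonoidHom.ext fun g ↦ ?_⟩
    show (η n g) ^ (p ^ d * a') = (η (n₂ + c) g) ^ a'
    rw [pow_mul, hd, tower_pow hη (n₂ + c) d g]

end

section

variable {p : ℕ} [Fact p.Prime] {K : Type} [Field K] [NumberField K]
  {ιinf : AlgebraicClosure K →+* ℂ} {ιp : AlgebraicClosure K →+* ℂ_[p]}

/-- From `LeopoldtFor` for `κ φ ξ` to `Full`. -/
theorem full_finite (hDich : DICH) (D : BaseChr ιinf ιp) (L : IwasawaLog p ℂ_[p])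
    {η : ℕ → Chr K (AlgebraicClosure K) ℂ_[p]} (hη : IsTower η)
    (x : IntermediateField K (AlgebraicClosure K) × Chr K (AlgebraicClosure K) ℂ_[p])
    (hx : x ∈ AllChr p K)
    (hfin : {ξ | ξ ∈ Hat η ∧ ¬ ∀ σ : ℂ_[p] ≃ₐ[ℚ_[p]] ℂ_[p],
      LeopoldtFor ιinf ιp L D.S ((Units.map (σ : ℂ_[p] →* ℂ_[p])).comp
        (D.κ * x.2 * ξ))}.Finite) : {ξ | ξ ∈ Hat η ∧ ¬ Full D L η x ξ}.Finite := by
  have hp : p.Prime := Fact.out
  have hcl : PlaceClosed (TSet ιinf ιp D.S) :=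
    Pool.Agent.Helper35.RD.tset_closed ιinf ιp D.S D.isOrdinary
  obtain ⟨N, hN, hκN⟩ : ∃ N : ℕ, 0 < N ∧ D.κ ^ N = 1 := by
    have := D.finite
    exact ⟨finrank K D.H, finrank_pos, chr_pow_finrank D.cutsOut⟩
  have hφ : x.2 ^ p = 1 := by
    have h2 := chr_pow_finrank hx.2
    rw [hx.1] at h2
    exact h2
  have hχN : (D.κ * x.2) ^ (N * p) = 1 := by
    refine MonoidHom.ext fun g ↦ ?_
    show (D.κ g * x.2 g) ^ (N * p) = 1
    have e1 : (D.κ g) ^ N = 1 := DFunLike.congr_fun hκN g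
    have e2 : (x.2 g) ^ p = 1 := DFunLike.congr_fun hφ g
    rw [mul_pow, pow_mul, e1, one_pow, one_mul, mul_comm, pow_mul, e2, one_pow]
  refine (hfin.union (ram_finite hη (D.κ * x.2) (Nat.mul_pos hN hp.pos) hχN)).subset ?_
  rintro ξ ⟨hξ, hbad⟩
  by_contra hne
  simp only [Set.mem_union, Set.mem_setOf_eq, not_or, not_and, not_not] at hne
  obtain ⟨h1, h2⟩ := hne
  have h3 := h2 hξ
  have h4 := h1 hξ
  have hgood : LeopoldtFor ιinf ιp L D.S (D.κ * x.2 * ξ) := by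
    have h5 : (Units.map ((AlgEquiv.refl : ℂ_[p] ≃ₐ[ℚ_[p]] ℂ_[p]) : ℂ_[p] →* ℂ_[p])).comp
        (D.κ * x.2 * ξ) = D.κ * x.2 * ξ := by
      refine MonoidHom.ext fun g ↦ ?_
      ext
      rfl
    have h6 := h4 AlgEquiv.refl
    rw [h5] at h6
    exact h6
  refine hbad ⟨fun σ ↦ ?_, fun η' hη' hb ↦ ?_⟩
  · have h7 : D.κ * (x.2 * ξ) = D.κ * x.2 * ξ :=
      MonoidHom.ext fun g ↦ (mul_assoc (D.κ g) (x.2 g) (ξ g)).symm
    show LeopoldtFor ιinf ιp L D.S ((Units.map (σ : ℂ_[p] →* ℂ_[p])).comp (D.κ * (x.2 * ξ)))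
    rw [h7]
    exact h4 σ
  · have hfin' := hDich p K ιinf ιp L D.S hcl (D.κ * x.2 * ξ) η' hη'
      (Pool.Agent.Helper32.TH.d_unr p K η' hη') (fun τ hτ ↦ h3 τ (hb τ hτ)) hgood
    refine hfin'.subset ?_
    rintro ξ' ⟨hξ', hb'⟩
    refine ⟨hξ', fun hL ↦ hb' fun σ ↦ ?_⟩
    have h7 : D.κ * (x.2 * ξ * ξ') = D.κ * x.2 * ξ * ξ' :=
      MonoidHom.ext fun g ↦ by
        show D.κ g * (x.2 g * ξ g * ξ' g) = D.κ g * x.2 g * ξ g * ξ' g
        rw [mul_assoc, mul_assoc, mul_assoc]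
    show LeopoldtFor ιinf ιp L D.S ((Units.map (σ : ℂ_[p] →* ℂ_[p])).comp (D.κ * (x.2 * ξ * ξ')))
    rw [h7]
    exact Pool.Agent.Helper8.TH.d_inv p K ιinf ιp L D.S hcl _ hL σ

end

end Pool.Agent.Helper38.TH
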