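import Pool.Agent.Helper38.TH.GoalsC
import Pool.Agent.Helper34.TH.TCHN
import Pool.Agent.Helper46.TH.TBADW

/-!
# Project TH (MP_fc6b1e_nt, T100): proof of `CHAINW`, and `MW` from `MTG`, `MTG1`
-/

set_option autoImplicit false

namespace Pool.Agent.Helper38.TH

open Finset Pool.Agent.Helper17.PP Pool.Agent.Helper17.PP0 Pool.Agent.Helper17.PP2
  Pool.Agent.Helper11.M3
open Pool.Agent.Helper34.TH (nm_eq fam_eq wtG_ind chain_ind)

open Classical in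
/-- The moment theorem for a chain of systems, from `MW` for each system. -/
theorem chainW : CHAINW := by
  intro p _ B B₀ k U Λ C _ _ _ _ _ _ _ _ n S g hg1 hC θ hθ0 hθ1 T₀ r₀ hM ε hε
  have hB := Pool.Agent.Helper46.TH.t_badw
  have hn1 : (0 : ℝ) < n + 1 := by positivity
  have hε' : 0 < ε / (n + 1) := by positivity
  have key : ∀ i : ℕ, ∃ X₀ : ℝ, i < n → ∀ X : ℝ, X₀ ≤ X →
      ∀ G : Finset B → ℝ, WtG (S i) (VU S n i) G → ∀ P : Finset B,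
    ∑ b ∈ P.powerset with ((S i).Fam b ∧ (S i).Bad b), G b * Real.exp (-((S i).nm b / X)) ≤
      θ * ∑ b ∈ P.powerset with (S i).Fam b, G b * Real.exp (-((S i).nm b / X)) +
      2 * ((1 / Fintype.card k : ℝ) ^ r₀ i *
            ∑ b ∈ P.powerset with (S i).Fam b, Real.exp (-((S i).nm b / X)) +
          ∑ b ∈ P.powerset with ((S i).Fam b ∧ ExX (S i) (VU S n i) (T₀ i) (r₀ i) (lg X) b),
            Real.exp (-((S i).nm b / X))) +
      ε / (n + 1) * (X * g X) := by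
    intro i
    by_cases hi : i < n
    · obtain ⟨X₀, hX₀⟩ := hM i hi (ε / (n + 1)) hε'
      exact ⟨X₀, fun _ X hX G hG P ↦ hX₀ X hX G hG P⟩
    · exact ⟨0, fun h ↦ absurd h hi⟩
  choose X₀ hX₀ using key
  refine ⟨(∑ i ∈ range n, |X₀ i|), fun X hX P ↦ ?_⟩
  have hXpos : 0 ≤ X := le_trans (sum_nonneg fun i _ ↦ abs_nonneg _) hX
  have hXi : ∀ i < n, X₀ i ≤ X := fun i hi ↦ by
    refine le_trans (le_abs_self _) (le_trans ?_ hX)
    exact single_le_sum (f := fun i ↦ |X₀ i|) (fun i _ ↦ abs_nonneg _) (mem_range.2 hi)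
  have hg : 0 ≤ X * g X := mul_nonneg hXpos (le_trans zero_le_one (hg1 X))
  set Φ : ℕ → ℝ := fun i ↦ ∑ b ∈ P.powerset with
    ((S 0).Fam b ∧ ∀ i', i ≤ i' → i' < n → (S i').Bad b), Real.exp (-((S 0).nm b / X)) with hΦ
  set br : ℕ → ℝ := fun i ↦ (1 / Fintype.card k : ℝ) ^ r₀ i *
            ∑ b ∈ P.powerset with (S 0).Fam b, Real.exp (-((S 0).nm b / X)) +
          ∑ b ∈ P.powerset with ((S 0).Fam b ∧ ExX (S i) (VU S n i) (T₀ i) (r₀ i) (lg X) b),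
            Real.exp (-((S 0).nm b / X)) with hbr
  have hbr0 : ∀ i, 0 ≤ br i := fun i ↦ by
    refine add_nonneg (mul_nonneg (by positivity) ?_) ?_ <;>
      exact sum_nonneg fun b _ ↦ (Real.exp_pos _).le
  have hstep : ∀ i < n, Φ i ≤ θ * Φ (i + 1) + 2 * br i + ε / (n + 1) * (X * g X) := by
    intro i hi
    have h1 := hX₀ i hi X (hXi i hi) _ (wtG_ind hB hC n i n le_rfl) P
    rw [fam_eq hC i, nm_eq hC i] at h1
    have e1 : ∑ b ∈ P.powerset with ((S 0).Fam b ∧ (S i).Bad b),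
        (if ∀ i', i < i' → i' < n → (S i').Bad b then (1 : ℝ) else 0) *
          Real.exp (-((S 0).nm b / X)) = Φ i := by
      simp only [ite_mul, one_mul, zero_mul, hΦ]
      rw [← sum_filter, filter_filter]
      congr 1
      apply filter_congr
      intro b _
      constructor
      · rintro ⟨⟨h1, h2⟩, h3⟩
        refine ⟨h1, fun i' h4 h5 ↦ ?_⟩
        rcases Nat.eq_or_lt_of_le h4 with h6 | h6
        · rw [← h6]; exact h2
        · exact h3 i' h6 h5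
      · rintro ⟨h1, h2⟩
        exact ⟨⟨h1, h2 i le_rfl hi⟩, fun i' h4 h5 ↦ h2 i' h4.le h5⟩
    have e2 : ∑ b ∈ P.powerset with (S 0).Fam b,
        (if ∀ i', i < i' → i' < n → (S i').Bad b then (1 : ℝ) else 0) *
          Real.exp (-((S 0).nm b / X)) = Φ (i + 1) := by
      simp only [ite_mul, one_mul, zero_mul, hΦ]
      rw [← sum_filter, filter_filter]
      refine sum_congr (filter_congr fun b _ ↦ ?_) fun _ _ ↦ rfl
      exact Iff.rfl
    rw [e1, e2] at h1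
    exact h1
  have hfin := chain_ind n Φ br θ (ε / (n + 1) * (X * g X)) hθ0 hθ1 (fun i _ ↦ hbr0 i)
    (mul_nonneg hε'.le hg) hstep
  have e0 : Φ 0 = ∑ b ∈ P.powerset with ((S 0).Fam b ∧ ∀ i < n, (S i).Bad b),
        Real.exp (-((S 0).nm b / X)) := by
    simp only [hΦ, Nat.zero_le, forall_true_left]
  have en : Φ n = ∑ b ∈ P.powerset with (S 0).Fam b, Real.exp (-((S 0).nm b / X)) := by
    simp only [hΦ]
    congr 1
    apply filter_congr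
    intro b _
    constructor
    · exact fun h ↦ h.1
    · exact fun h ↦ ⟨h, fun i' h1 h2 ↦ absurd h2 (by omega)⟩
  rw [e0, en] at hfin
  refine hfin.trans ?_
  refine add_le_add le_rfl ?_
  have h4 : (n : ℝ) * (ε / (n + 1) * (X * g X)) = (n / (n + 1)) * (ε * (X * g X)) := by
    field_simp
  rw [h4]
  have h5 : (n : ℝ) / (n + 1) ≤ 1 := by
    rw [div_le_one hn1]; linarith
  have h6 : 0 ≤ ε * (X * g X) := mul_nonneg hε.le hg
  nlinarith

section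

variable {p : ℕ} [Fact p.Prime] {B B₀ k U Λ C : Type} [Field k] [Fintype k]
    [Algebra (ZMod p) k] [AddCommGroup U] [Module k U] [Fintype U] [AddCommGroup Λ] [Module k Λ]
    [Fintype Λ] [AddCommGroup C] [Finite C] {S : Sys p B B₀ k U Λ C}

open Classical in
/-- From the conclusion of a moment theorem to `MW`. -/
theorem mw_of_bound {V : B → Prop} {c θ : ℝ} {T₀ r₀ : ℕ} {g : ℝ → ℝ}
    (hUL : (Fintype.card U / Fintype.card Λ : ℝ) ≤ 1) (hc : c ≤ θ)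
    (h : ∀ ε : ℝ, 0 < ε → ∃ X₀ : ℝ, ∀ X : ℝ, X₀ ≤ X →
      ∀ G : Finset B → ℝ, WtG S V G → ∀ P : Finset B,
      ∑ b ∈ P.powerset with (S.Fam b ∧ S.Bad b), G b * Real.exp (-(S.nm b / X)) ≤
        c * ∑ b ∈ P.powerset with S.Fam b, G b * Real.exp (-(S.nm b / X)) +
        (Fintype.card U / Fintype.card Λ) * (Fintype.card k / (Fintype.card k - 1)) *
          ((1 / Fintype.card k : ℝ) ^ r₀ *
              ∑ b ∈ P.powerset with S.Fam b, Real.exp (-(S.nm b / X)) +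
            ∑ b ∈ P.powerset with (S.Fam b ∧ ExX S V T₀ r₀ (lg X) b),
              Real.exp (-(S.nm b / X))) +
        ε * (X * g X)) : MW S V θ T₀ r₀ g := by
  intro ε hε
  obtain ⟨X₀, hX₀⟩ := h ε hε
  refine ⟨X₀, fun X hX G hG P ↦ (hX₀ X hX G hG P).trans ?_⟩
  have hQ : (2 : ℝ) ≤ Fintype.card k := by
    have : 1 < Fintype.card k := Fintype.one_lt_card
    exact_mod_cast this
  have hQ2 : (Fintype.card k : ℝ) / (Fintype.card k - 1) ≤ 2 := by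
    rw [div_le_iff₀ (by linarith)]; linarith
  have hQ0 : (0 : ℝ) ≤ (Fintype.card k : ℝ) / (Fintype.card k - 1) :=
    div_nonneg (by linarith) (by linarith)
  have h1 : 0 ≤ ∑ b ∈ P.powerset with S.Fam b, G b * Real.exp (-(S.nm b / X)) :=
    sum_nonneg fun b _ ↦ mul_nonneg (hG.nonneg b) (Real.exp_pos _).le
  have h2 : 0 ≤ (1 / Fintype.card k : ℝ) ^ r₀ *
              ∑ b ∈ P.powerset with S.Fam b, Real.exp (-(S.nm b / X)) +
            ∑ b ∈ P.powerset with (S.Fam b ∧ ExX S V T₀ r₀ (lg X) b),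
              Real.exp (-(S.nm b / X)) := by
    refine add_nonneg (mul_nonneg (by positivity) ?_) ?_ <;>
      exact sum_nonneg fun b _ ↦ (Real.exp_pos _).le
  refine add_le_add (add_le_add (mul_le_mul_of_nonneg_right hc h1)
    (mul_le_mul_of_nonneg_right ?_ h2)) le_rfl
  calc (Fintype.card U / Fintype.card Λ : ℝ) * (Fintype.card k / (Fintype.card k - 1))
      ≤ 1 * 2 := mul_le_mul hUL hQ2 hQ0 zero_le_one
    _ = 2 := one_mul _

/-- `MW` from `MTG`. -/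
theorem mw_of_mtg (hM : MTG) {ψ : AddChar k ℂ} {Lk : k → k → Prop} {Cs : k → AddSubgroup k}
    {M : ℕ} {κ : ℝ} {g : ℝ → ℝ} {K : ℕ} (hG : HypG S ψ Lk Cs M κ g K)
    {V : B → Prop} {ρ K₂ : ℝ} (hS : Spr S V ρ K₂) (h8 : 8 * ((Fintype.card k : ℝ) + 1) * ρ ≤ κ)
    {θ : ℝ} (hUL : (Fintype.card U / Fintype.card Λ : ℝ) ≤ 1)
    (hθ : (Fintype.card U / Fintype.card Λ : ℝ) *
      (Fintype.card k / (M * (Fintype.card k - 1))) ≤ θ) {T₀ : ℕ} (r₀ : ℕ) (hT : 1 ≤ T₀) :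
    MW S V θ T₀ r₀ g :=
  mw_of_bound hUL hθ (hM p B B₀ k U Λ C S ψ Lk Cs M κ g K hG V ρ K₂ hS h8 T₀ r₀ hT)

/-- `MW` from `MTG1`. -/
theorem mw_of_mtg1 (hM : MTG1) {ψ : AddChar k ℂ} {Lk : k → k → Prop} {Cs : k → AddSubgroup k}
    {M : ℕ} {κ : ℝ} {g : ℝ → ℝ} {K : ℕ} (hG : HypG S ψ Lk Cs M κ g K)
    {ψ₁ : AddChar (ZMod p) ℂ} {K₁ : ℕ} (h1 : S.Hyp ψ ψ₁ g K₁)
    {V : B → Prop} (hV : ∀ q, V q → S.spl q)
    {θ : ℝ} (hUL : (Fintype.card U / Fintype.card Λ : ℝ) ≤ 1)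
    (hθ : (Fintype.card U / Fintype.card Λ : ℝ) *
      (Fintype.card k / (p * (Fintype.card k - 1))) ≤ θ) {T₀ : ℕ} (r₀ : ℕ) (hT : 1 ≤ T₀) :
    MW S V θ T₀ r₀ g :=
  mw_of_bound hUL hθ (hM p B B₀ k U Λ C S ψ Lk Cs M κ g K hG ψ₁ K₁ h1 V hV T₀ r₀ hT)

/-- `MW` from `MTG1V`. -/
theorem mw_of_mtg1V (hM : MTG1V) {ψ : AddChar k ℂ} {Lk : k → k → Prop} {Cs : k → AddSubgroup k}
    {M : ℕ} {κ : ℝ} {g : ℝ → ℝ} {K : ℕ} (hG : HypG S ψ Lk Cs M κ g K)
    {ψ₁ : AddChar (ZMod p) ℂ} {K₁ : ℕ} (h1 : S.Hyp ψ ψ₁ g K₁) (hN : MerN S κ)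
    {V : B → Prop} {ρ K₂ : ℝ} (hS : Spr S V ρ K₂) (h8 : 8 * ((Fintype.card k : ℝ) + 1) * ρ ≤ κ)
    {θ : ℝ} (hUL : (Fintype.card U / Fintype.card Λ : ℝ) ≤ 1)
    (hθ : (Fintype.card U / Fintype.card Λ : ℝ) *
      (Fintype.card k / (p * (Fintype.card k - 1))) ≤ θ) {T₀ : ℕ} (r₀ : ℕ) (hT : 1 ≤ T₀) :
    MW S V θ T₀ r₀ g :=
  mw_of_bound hUL hθ
    (hM p B B₀ k U Λ C S ψ Lk Cs M κ g K hG ψ₁ K₁ h1 hN V ρ K₂ hS h8 T₀ r₀ hT)

end

end Pool.Agent.Helper38.TH
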