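import Pool.Agent.Helper38.TH.AsmC
import Pool.Agent.Helper38.TH.ChainW
import Pool.Agent.Helper38.TH.Goals4
import Pool.Agent.Helper37.TH.G4PSM
import Pool.Agent.Helper13.TH.G4SML
import Pool.Agent.Helper6.TH.G4SPL
import Pool.Agent.Helper23.TH.G4B
import Pool.Agent.Helper88.TH.G4C
import Pool.Agent.Helper87.TH.G4D
import Pool.Agent.Helper83.TH.G4PTW
import Pool.Agent.Helper16.TH.G4MTG
import Pool.Agent.Helper65.TH.G4NV
import Pool.Agent.Helper97.TH.G4BLK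

/-!
# Project TH: the moment theorem for the case `χ₀ ≡ ω`
-/

set_option autoImplicit false

namespace Pool.Agent.Helper38.TH

open Finset Pool.Agent.Helper17.PP Pool.Agent.Helper17.PP0 Pool.Agent.Helper17.PP2
  Pool.Agent.Helper17.M3 Pool.Agent.Helper11.M3

/-- The large blocks. -/
theorem blk4_of (h : G4_BLK) : BLK4 :=
  h Pool.Agent.Helper83.PP.c_lab Pool.Agent.Helper62.TH.t_fou
    (Pool.Agent.Helper94.M3.q_ful Pool.Agent.Helper83.PP.c_lab)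
    Pool.Agent.Helper3.M3.q_mn Pool.Agent.Helper6.TH.g4_spl
    (Pool.Agent.Helper13.TH.g4_sml Pool.Agent.Helper37.TH.g4_psm)
    Pool.Agent.Helper23.TH.g4_b Pool.Agent.Helper88.TH.g4_c Pool.Agent.Helper87.TH.g4_d
    Pool.Agent.Helper59.M3.q_sma Pool.Agent.Helper59.M3.q_smb
    Pool.Agent.Helper36.PP2.r_sm6

/-- The moment theorem. -/
theorem mtg4_of (h : G4_BLK) : MTG4 :=
  Pool.Agent.Helper16.TH.g4_mtg Pool.Agent.Helper91.M3.q_cnt
    (Pool.Agent.Helper35.M3.u_ort Pool.Agent.Helper83.PP.c_lab)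
    (Pool.Agent.Helper90.M3.u_lrg_of Pool.Agent.Helper22.PP.c_dec)
    (Pool.Agent.Helper32.M3.u_mns_of Pool.Agent.Helper22.PP.c_dec)
    Pool.Agent.Helper59.M3.u_sm1 Pool.Agent.Helper59.M3.u_sm2
    Pool.Agent.Helper59.M3.q_smb
    Pool.Agent.Helper15.M3.x_ex0
    (Pool.Agent.Helper54.M3.x_ex2_of Pool.Agent.Helper22.PP.c_dec)
    (Pool.Agent.Helper22.M3.x_ex5_of Pool.Agent.Helper22.PP.c_dec)
    Pool.Agent.Helper46.M3.x_exn
    Pool.Agent.Helper86.M3.q_mnb Pool.Agent.Helper83.TH.g4_ptw (blk4_of h)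

/-- The moment theorem for `χ₀ ≡ ω` with a weight. -/
theorem mtg4 : MTG4 := mtg4_of Pool.Agent.Helper97.TH.g4_blk

section

variable {p : ℕ} [Fact p.Prime] {B B₀ k U Λ C : Type} [Field k] [Fintype k] [Algebra (ZMod p) k]
    [AddCommGroup U] [Module k U] [Fintype U] [AddCommGroup Λ] [Module k Λ] [Fintype Λ]
    [AddCommGroup C] [Finite C] {S : Sys p B B₀ k U Λ C}

/-- `MW` from `MTG4`: the pivots are the primes which are not split. -/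
theorem mw_of_mtg4 (hM : MTG4) {ψ : AddChar k ℂ} {e : B → k} {g : ℝ → ℝ} {K : ℕ}
    (hG : HypG4 S ψ e (fun q ↦ ¬ S.spl q) g K) {κ : ℝ} (hκ : 0 < κ) (hN : MerN S κ)
    {V : B → Prop} {ρ K₂ : ℝ} (hS : Spr S V ρ K₂) (h8 : 8 * ((Fintype.card k : ℝ) + 1) * ρ ≤ κ)
    {θ : ℝ} (hUL : (Fintype.card U / Fintype.card Λ : ℝ) ≤ 1)
    (hθ : (Fintype.card U / Fintype.card Λ : ℝ) * (1 / (Fintype.card k - 1)) ≤ θ)
    {T₀ : ℕ} (r₀ : ℕ) (hT : 1 ≤ T₀) :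
    MW S V θ T₀ r₀ g := by
  obtain ⟨K', hK'⟩ := Pool.Agent.Helper65.TH.g4_nv p B B₀ k U Λ C S ψ e g K hG κ hκ hN V ρ K₂ hS h8
  exact mw_of_bound hUL hθ
    (hM p B B₀ k U Λ C S ψ e (fun q ↦ ¬ S.spl q ∧ ¬ V q) g K' hK' V (fun _ h ↦ h.2) T₀ r₀ hT)

end

end Pool.Agent.Helper38.TH
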