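import Pool.Agent.Helper38.TH.GoalsA
import Pool.Agent.Helper17.M3.Asm
import Pool.Agent.Helper12.TH.TSMG
import Pool.Agent.Helper16.TH.TSTJG
import Pool.Agent.Helper32.TH.TLRGG
import Pool.Agent.Helper34.TH.TCHN
import Pool.Agent.Helper39.TH.TOSBG
import Pool.Agent.Helper45.TH.PTW
import Pool.Agent.Helper46.TH.TBADW
import Pool.Agent.Helper47.TH.TBLK
import Pool.Agent.Helper59.TH.TMTG
import Pool.Agent.Helper62.TH.TFOU
import Pool.Agent.Helper64.TH.TPRTC
import Pool.Agent.Helper66.TH.TPRTB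
import Pool.Agent.Helper70.TH.TOSAG
import Pool.Agent.Helper80.TH.TSPLV
import Pool.Agent.Helper80.TH.TTTV
import Pool.Agent.Helper87.TH.TOSZG
import Pool.Agent.Helper61.PP.CMNB
import Pool.Agent.Helper59.PP.CSM2

/-!
# Project TH: the assembly of the abstract part
-/

set_option autoImplicit false

namespace Pool.Agent.Helper38.TH

open Pool.Agent.Helper17.PP Pool.Agent.Helper17.PP0 Pool.Agent.Helper17.M3

/-- The blocks above `√L`. -/
theorem blk : BLK :=
  Pool.Agent.Helper47.TH.t_blk Pool.Agent.Helper16.TH.t_stjg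
    (Pool.Agent.Helper32.TH.t_lrgg Pool.Agent.Helper62.TH.t_fou) Pool.Agent.Helper12.TH.t_smg
    (SML.c_sml Pool.Agent.Helper83.PP.c_lab Pool.Agent.Helper22.PP.c_dec
      (Pool.Agent.Helper79.PP.c_psm Pool.Agent.Helper83.PP.c_lab))
    Pool.Agent.Helper59.PP.c_sm2

/-- The primes in `V`. -/
theorem prtb : PRTB :=
  Pool.Agent.Helper66.TH.t_prtb blk Pool.Agent.Helper45.TH.t_ptw Pool.Agent.Helper61.PP.c_mnb

/-- The primes not in `V`. -/
theorem prtc : PRTC :=
  Pool.Agent.Helper64.TH.t_prtc blk Pool.Agent.Helper61.PP.c_mnb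
    (s_ful Pool.Agent.Helper83.PP.c_lab) Pool.Agent.Helper80.TH.t_splv
    Pool.Agent.Helper80.TH.t_ttv Pool.Agent.Helper87.TH.t_oszg
    (Pool.Agent.Helper70.TH.t_osag Pool.Agent.Helper62.TH.t_fou)
    (Pool.Agent.Helper39.TH.t_osbg Pool.Agent.Helper62.TH.t_fou) Pool.Agent.Helper5.M3.s_tl
    Pool.Agent.Helper36.PP2.r_sm5 Pool.Agent.Helper36.PP2.r_sm6

/-- The abstract moment theorem with a weight. -/
theorem mtg : MTG :=
  Pool.Agent.Helper59.TH.t_mtg Pool.Agent.Helper36.ND.w_cor Pool.Agent.Helper28.PP.c_cnt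
    EX0.c_ex0
    (EX2.c_ex2 Pool.Agent.Helper22.PP.c_dec)
    (EX5.c_ex5 Pool.Agent.Helper22.PP.c_dec)
    (EX6.c_ex6 Pool.Agent.Helper22.PP.c_dec)
    prtb prtc

/-- The moment theorem for a chain of systems. -/
theorem chain : CHAIN :=
  Pool.Agent.Helper34.TH.t_chn mtg Pool.Agent.Helper46.TH.t_badw

end Pool.Agent.Helper38.TH
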