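import Pool.Agent.Helper38.TH.GoalsB

/-!
# Project TH (MP_fc6b1e_nt, T100): the case `χ₀ = 1` for an arbitrary set `V`

The fields `J_l` of the levels need not be nested, so `V` (the split primes of the deeper levels) is not contained in the split
primes of the level. `P₁` is now the top prime which is not split and NOT IN `V`.
-/

set_option autoImplicit false

namespace Pool.Agent.Helper38.TH

open Finset Pool.Agent.Helper17.PP Pool.Agent.Helper17.PP0 Pool.Agent.Helper17.PP2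
  Pool.Agent.Helper11.M3
open Pool.Agent.Helper38.ND (W_COR)

section

variable {p : ℕ} {B B₀ k U Λ C : Type} [Field k] [AddCommGroup U] [Module k U]
    [AddCommGroup Λ] [Module k Λ] [AddCommGroup C] (S : Sys p B B₀ k U Λ C)

/-- `P` is the top prime among the primes of `b` which are neither split nor in `V`, alone in its block among them. -/
structure TopV (V : B → Prop) (b : Finset B) (P : B) : Prop where
  mem : P ∈ b
  spl : ¬ S.spl P
  nV : ¬ V P
  top : ∀ P' ∈ b, ¬ S.spl P' → ¬ V P' → P' ≠ P → S.bl P' < S.bl P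

open Classical in
/-- Mertens, lower bound, for the primes which are not split, with an explicit constant. -/
def MerN (κ : ℝ) : Prop :=
  ∃ K₃ : ℝ, ∀ m n : ℕ, 1 ≤ m → m ≤ n → κ * Real.log (n / m) - K₃ ≤
    ∑ q ∈ S.below n with ¬ S.spl q ∧ m ≤ S.bl q, (1 : ℝ) / S.N q

end

open Classical in
/-- **MTG1V**, the abstract moment theorem with a `V`-weight and the weak condition: constant `ρ₀ Q/(p(Q-1))`,
`ρ₀ = |U|/|Λ|`. `V` is arbitrary, sparse. -/
def MTG1V : Prop :=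
  ∀ (p : ℕ) [Fact p.Prime] (B B₀ k U Λ C : Type) [Field k] [Fintype k] [Algebra (ZMod p) k]
    [AddCommGroup U] [Module k U] [Fintype U] [AddCommGroup Λ] [Module k Λ] [Fintype Λ]
    [AddCommGroup C] [Finite C] (S : Sys p B B₀ k U Λ C) (ψ : AddChar k ℂ) (Lk : k → k → Prop)
    (Cs : k → AddSubgroup k) (M : ℕ) (κ : ℝ) (g : ℝ → ℝ) (K : ℕ), HypG S ψ Lk Cs M κ g K →
  ∀ (ψ₁ : AddChar (ZMod p) ℂ) (K₁ : ℕ), S.Hyp ψ ψ₁ g K₁ → MerN S κ →
  ∀ (V : B → Prop) (ρ K₂ : ℝ), Spr S V ρ K₂ → 8 * ((Fintype.card k : ℝ) + 1) * ρ ≤ κ →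
  ∀ (T₀ r₀ : ℕ), 1 ≤ T₀ → ∀ ε : ℝ, 0 < ε → ∃ X₀ : ℝ, ∀ X : ℝ, X₀ ≤ X →
  ∀ G : Finset B → ℝ, WtG S V G → ∀ P : Finset B,
    ∑ b ∈ P.powerset with (S.Fam b ∧ S.Bad b), G b * Real.exp (-(S.nm b / X)) ≤
      (Fintype.card U / Fintype.card Λ) * (Fintype.card k / (p * (Fintype.card k - 1))) *
        ∑ b ∈ P.powerset with S.Fam b, G b * Real.exp (-(S.nm b / X)) +
      (Fintype.card U / Fintype.card Λ) * (Fintype.card k / (Fintype.card k - 1)) *
        ((1 / Fintype.card k : ℝ) ^ r₀ *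
            ∑ b ∈ P.powerset with S.Fam b, Real.exp (-(S.nm b / X)) +
          ∑ b ∈ P.powerset with (S.Fam b ∧ ExX S V T₀ r₀ (lg X) b),
            Real.exp (-(S.nm b / X))) +
      ε * (X * g X)

open Classical in
/-- **T_OSBV** (`T_OSB1` with `TopV`). `G` is a `V`-weight, `V` arbitrary. The sum over the `b ⊆ P` in the family, over the
`q ∉ V` in the block `j` with `Wt` and over `P₁` in the block `i` with `TopV`, of `G b osc e(nm b/X)`, is at most
`K' (lg X + 2)^K' (i+j)^K₁ 2^(-min(i,j)/K₁) min(1, X/2^(i+j)) X g(X)`.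

PROOF. That of `T_OSB1` (`Pool.Agent.Helper49.TH.TOSB1`). `b = {q, P₁} ∪ r`; `q ∉ V` by the condition, `P₁ ∉ V` by `TopV.nV`, so `b_V = r_V` as
there. *Conditions*: the condition on `r` is now that all the primes of `r` which are neither split nor in `V` are in blocks `< i`. The
condition that `bs` is injective on `b`: `bs q ≠ bs P₁` and `bs q ∉ bs(r)` as there (`bsS`; no split prime of `r` is in the
block `j`); `bs P₁ ∉ bs(r)` does not follow any more (a prime of `r` in `V` may have the base of `P₁`), it is a condition on `P₁` for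
given `r`: it goes to `α P₁`, together with `¬ V P₁`. Everything else is the same. -/
def T_OSBV : Prop :=
  ∀ (p : ℕ) [Fact p.Prime] (B B₀ k U Λ C : Type) [Field k] [Fintype k] [Algebra (ZMod p) k]
    [AddCommGroup U] [Module k U] [Fintype U] [AddCommGroup Λ] [Module k Λ] [Fintype Λ]
    [AddCommGroup C] [Finite C] (S : Sys p B B₀ k U Λ C) (ψ : AddChar k ℂ) (Lk : k → k → Prop)
    (Cs : k → AddSubgroup k) (M : ℕ) (κ : ℝ) (g : ℝ → ℝ) (K : ℕ), HypG S ψ Lk Cs M κ g K →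
  ∀ (ψ₁ : AddChar (ZMod p) ℂ) (K₁ : ℕ), S.Hyp ψ ψ₁ g K₁ →
  ∃ K' : ℕ, ∀ (V : B → Prop) (G : Finset B → ℝ), WtG S V G →
  ∀ (E i j : ℕ) (s : ZMod p) (X : ℝ) (P : Finset B), 1 ≤ i → 1 ≤ j → j ≤ th E j →
      s ≠ 0 → 1 ≤ X →
    ‖∑ b ∈ P.powerset with S.Fam b, ∑ q ∈ b with (S.Wt E b q ∧ S.bl q = j ∧ ¬ V q),
      ∑ _P₁ ∈ b with (TopV S V b _P₁ ∧ S.bl _P₁ = i),
        (G b : ℂ) * S.osc ψ ψ₁ E P b q s * (Real.exp (-(S.nm b / X)) : ℂ)‖ ≤
      K' * (lg X + 2) ^ K' * (i + j) ^ K₁ * (2 : ℝ) ^ (-(min i j : ℝ) / K₁) *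
        min 1 (X / 2 ^ (i + j)) * (X * g X)

/-- **T_MTGV** (assembly of `MTG1V`).

PROOF. That of `T_MTG1` (`Pool/Agent/Helper41/TH/TMTG1.lean`), with these changes. (1) In the place of `C_EX3`: the set of the `b` all of whose
primes which are neither split nor in `V` are in blocks `< s = Nat.sqrt (lg X)` has measure `≤ ε' X g(X)` for large `X`. Proof: let
`f(q) = 0` if `q` is not split, not in `V` and `s ≤ bl q`, otherwise `1`. By `ht` the measure is `≤ K X g(X) e(Σ)`, `Σ` the sum of `1/N q` over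
the `q ∈ upto X` with `f(q) = 0`; with `L = lg X`, `below L ⊆ upto X`, so by `MerN` and `Spr.up` (`m = s`, `n = L`)
`Σ ≥ κ log(L/s) - K₃ - ρ log(L/s) - K₂ ≥ (κ/2) log s - K₃ - K₂` (`ρ ≤ κ/2`, `L/s ≥ s`), which tends to infinity (`κ > 0`). (`X₀` depends on `V`
only through `ρ`, `K₂`.) (2) If `b` is not in this set, nor in the one of `Z_EX2` (two primes in one block `≥ j₀`), there is `P₁` with
`TopV S V b P₁`, `s ≤ bl P₁` (as in `exists_top`, `Pool/Agent/Helper17/PP/FinA.lean`); at most one (`TopV.top`). (3) `T_OSBV` in the place of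
`T_OSB1`. -/
def T_MTGV : Prop :=
  W_COR → C_CNT → C_OSC → C_MNB → Z_EX0 → Z_EX2 → Z_EX5 → Z_EX6 → C_SM4 → BLK → PRTB →
    T_OSBV → MTG1V

end Pool.Agent.Helper38.TH
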