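import Pool.Agent.Helper38.TH.AsmA
import Pool.Agent.Helper38.TH.GoalsC
import Pool.Agent.Helper14.TH.TMTGV
import Pool.Agent.Helper60.TH.TOSBV
import Pool.Agent.Helper47.PP.CSM4
import Pool.Agent.Helper74.PP.COSC

/-!
# Project TH: the moment theorem for the case `χ₀ = 1`
-/

set_option autoImplicit false

namespace Pool.Agent.Helper38.TH

open Pool.Agent.Helper17.PP Pool.Agent.Helper17.PP0 Pool.Agent.Helper17.M3

/-- The abstract moment theorem with a weight and the weak condition. -/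
theorem mtg1V : MTG1V :=
  Pool.Agent.Helper14.TH.t_mtgv Pool.Agent.Helper36.ND.w_cor Pool.Agent.Helper28.PP.c_cnt
    (Pool.Agent.Helper74.PP.c_osc Pool.Agent.Helper83.PP.c_lab)
    Pool.Agent.Helper61.PP.c_mnb EX0.c_ex0
    (EX2.c_ex2 Pool.Agent.Helper22.PP.c_dec)
    (EX5.c_ex5 Pool.Agent.Helper22.PP.c_dec)
    (EX6.c_ex6 Pool.Agent.Helper22.PP.c_dec)
    Pool.Agent.Helper47.PP.c_sm4 blk prtb Pool.Agent.Helper60.TH.t_osbv

end Pool.Agent.Helper38.TH
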