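import Pool.Agent.Helper38.TH.GoalsD
import Pool.Agent.Helper57.TH.DFIN
import Pool.Agent.Helper57.TH.DRAM
import Pool.Agent.Helper32.TH.DUNR
import Pool.Agent.Helper8.TH.DINV

/-!
# Project TH: `T100` from `WOUT` and `DICH`
-/

set_option autoImplicit false

namespace Pool.Agent.Helper38.TH

/-- `T100` from the outputs of part W and part II. -/
theorem t100_of (hW : WOUT) (hD : DICH) : T100 :=
  Pool.Agent.Helper57.TH.d_fin hW hD Pool.Agent.Helper8.TH.d_inv Pool.Agent.Helper57.TH.d_ram
    Pool.Agent.Helper32.TH.d_unr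

end Pool.Agent.Helper38.TH
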