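import Pool.Agent.Helper11.M3.Goals3
import Pool.Agent.Helper17.PP.GoalsC3

/-!
# Project TH (MP_fc6b1e_nt, T100): independence of the levels, abstract part: definitions

`V` is a set of labelled primes. A `V`-weight is a function `G` of `b` with values in `[0, 1]` which depends only on the
primes of `b` in `V` and on the sums of the symbols `kap q' q`, `q' ∈ b` in `V`, over the `q ∈ b` not in `V`. For instance
the indicator of `Bad` for a system all of whose split primes are in `V`.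
-/

set_option autoImplicit false

namespace Pool.Agent.Helper38.TH

open Finset Pool.Agent.Helper17.PP Pool.Agent.Helper17.PP0 Pool.Agent.Helper17.PP2
  Pool.Agent.Helper11.M3
open Pool.Agent.Helper30.PP2 (c0 y0)

variable {p : ℕ} {B B₀ k U Λ C : Type} [Field k] [AddCommGroup U] [Module k U]
    [AddCommGroup Λ] [Module k Λ] [AddCommGroup C] (S : Sys p B B₀ k U Λ C)

open Classical in
/-- `G` is a `V`-weight. -/
structure WtG (V : B → Prop) (G : Finset B → ℝ) : Prop where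
  nonneg : ∀ b, 0 ≤ G b
  le_one : ∀ b, G b ≤ 1
  dep : ∀ b b' : Finset B, b.filter V = b'.filter V →
    (∀ q' ∈ b.filter V,
      ∑ q ∈ b with ¬ V q, S.kap q' q = ∑ q ∈ b' with ¬ V q, S.kap q' q) → G b = G b'

open Classical in
/-- The analytic hypotheses: those of `Hyp₃`, with more room in `ht` and `bl₁` and with an explicit constant in
the lower bound of Mertens for the split primes. -/
structure HypG [Fintype k] [Algebra (ZMod p) k] (ψ : AddChar k ℂ) (Lk : k → k → Prop)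
    (Cs : k → AddSubgroup k) (M : ℕ) (κ : ℝ) (g : ℝ → ℝ) (K : ℕ) : Prop
    extends Hyp₃ S ψ Lk Cs M g K where
  κ_pos : 0 < κ
  /-- The upper bound for sums of multiplicative functions. -/
  htG : ∀ (f : B → ℝ), (∀ q, 0 ≤ f q ∧ f q ≤ ((Fintype.card k : ℝ) + 1) ^ 2) →
    ∀ (Y : ℝ), 0 < Y →
    ∀ P : Finset B, ∑ b ∈ P.powerset, (∏ q ∈ b, f q) * Real.exp (-(S.nm b / Y)) ≤
      K * (Y * min 1 Y * g Y) * Real.exp (∑ q ∈ S.upto Y, (f q - 1) / S.N q)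
  /-- Mertens, lower bound, split primes. -/
  merK : ∀ m n : ℕ, 1 ≤ m → m ≤ n → κ * Real.log (n / m) - K ≤
    ∑ q ∈ S.below n with S.spl q ∧ m ≤ S.bl q, (1 : ℝ) / S.N q
  /-- Bilinear bound: a split prime `q` (the variable) and a modulus `D` of split primes. -/
  blG : ∀ (i j : ℕ) (t : k) (y c : B → k) (α : B → ℂ) (β : Finset B → ℂ) (Y : ℝ), 1 ≤ j →
    t ≠ 0 → 0 < Y → (∀ q, ‖α q‖ ≤ 1) → (∀ D, ‖β D‖ ≤ (Fintype.card k : ℝ) ^ (2 * D.card)) →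
    (∀ D, β D ≠ 0 → Set.InjOn S.bs (D : Set B) ∧ ∀ q ∈ D, S.spl q ∧ S.bl q ≠ j ∧ y q ≠ 0) →
    ‖∑ q ∈ S.blk j with S.spl q, ∑ D ∈ S.mods i, α q * β D * S.chr ψ D y c t q *
      (Real.exp (-(S.N q * S.nm D / Y)) : ℂ)‖ ≤
      K * 2 ^ (i + j) * (i + 1) ^ K * (2 : ℝ) ^ (-(min i j : ℝ) / K) *
        Real.exp (-((2 : ℝ) ^ (i + j) / (2 * Y)))

open Classical in
/-- The primes of `V` have density at most `ρ` (upper bound of Mertens). -/
structure Spr (V : B → Prop) (ρ K₂ : ℝ) : Prop where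
  nonneg : 0 ≤ ρ
  up : ∀ m n : ℕ, 1 ≤ m → m ≤ n →
    ∑ q ∈ S.below n with V q ∧ m ≤ S.bl q, (1 : ℝ) / S.N q ≤ ρ * Real.log (n / m) + K₂

open Classical in
/-- The exceptional sets: `b` contains a prime of `V` in a block `≥ L/T₀`, or fewer than `r₀` split primes in the
blocks `≥ L/T₀`. -/
def ExX (V : B → Prop) (T₀ r₀ L : ℕ) (b : Finset B) : Prop :=
  (∃ q ∈ b, V q ∧ L ≤ T₀ * S.bl q) ∨ (b.filter fun q ↦ S.spl q ∧ L ≤ T₀ * S.bl q).card < r₀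

/-- `q₁` is the top prime of `b`, except `q` and the primes of `V`, with a label linked with that of `q`, and it is in
a block `≥ T`. -/
structure TlV (V : B → Prop) (Lk : k → k → Prop) (T E : ℕ) (b : Finset B) (q : B) (t s : k)
    (c y : B → k) (q₁ : B) : Prop where
  mem : q₁ ∈ b
  nV : ¬ V q₁
  ne : q₁ ≠ q
  le : T ≤ S.bl q₁
  lk : Lq S Lk E (S.bl q) t s c y q₁
  top : ∀ q' ∈ b, ¬ V q' → q' ≠ q → q' ≠ q₁ → T ≤ S.bl q' →
    Lq S Lk E (S.bl q) t s c y q' → S.bl q' < S.bl q₁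

/-- No prime of `b` not in `V` in the blocks `≥ T`, except `q`, has a label linked with that of `q`, and `q₁`, `q₂` are
the top two primes (except `q` and the primes of `V`) with a label `≠ (0, 0)`; they are in blocks `≥ T`. -/
structure TtV (V : B → Prop) (Lk : k → k → Prop) (T E : ℕ) (b : Finset B) (q : B) (t s : k)
    (c y : B → k) (q₁ q₂ : B) : Prop where
  mem₁ : q₁ ∈ b
  mem₂ : q₂ ∈ b
  nV₁ : ¬ V q₁
  nV₂ : ¬ V q₂
  ne₁ : q₁ ≠ q
  ne₂ : q₂ ≠ q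
  le : T ≤ S.bl q₂
  lt : S.bl q₂ < S.bl q₁
  nz₁ : Nz S E (S.bl q) c y q₁
  nz₂ : Nz S E (S.bl q) c y q₂
  no : ∀ q' ∈ b, ¬ V q' → q' ≠ q → T ≤ S.bl q' → ¬ Lq S Lk E (S.bl q) t s c y q'
  top : ∀ q' ∈ b, ¬ V q' → q' ≠ q → q' ≠ q₁ → q' ≠ q₂ → T ≤ S.bl q' →
    Nz S E (S.bl q) c y q' → S.bl q' < S.bl q₂

/-- No prime of `b` not in `V` in the blocks `≥ T`, except `q`, has a label linked with that of `q`, and at most one
of them has a label `≠ (0, 0)`. -/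
structure ZoV (V : B → Prop) (Lk : k → k → Prop) (T E : ℕ) (b : Finset B) (q : B) (t s : k)
    (c y : B → k) : Prop where
  no : ∀ q' ∈ b, ¬ V q' → q' ≠ q → T ≤ S.bl q' → ¬ Lq S Lk E (S.bl q) t s c y q'
  one : ∀ q₁ ∈ b, ∀ q₂ ∈ b, ¬ V q₁ → ¬ V q₂ → q₁ ≠ q → q₂ ≠ q → T ≤ S.bl q₁ → T ≤ S.bl q₂ →
    Nz S E (S.bl q) c y q₁ → Nz S E (S.bl q) c y q₂ → q₁ = q₂

open Classical in
/-- **MTG**, the abstract moment theorem with a `V`-weight, `V` sparse. -/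
def MTG : Prop :=
  ∀ (p : ℕ) [Fact p.Prime] (B B₀ k U Λ C : Type) [Field k] [Fintype k] [Algebra (ZMod p) k]
    [AddCommGroup U] [Module k U] [Fintype U] [AddCommGroup Λ] [Module k Λ] [Fintype Λ]
    [AddCommGroup C] [Finite C] (S : Sys p B B₀ k U Λ C) (ψ : AddChar k ℂ) (Lk : k → k → Prop)
    (Cs : k → AddSubgroup k) (M : ℕ) (κ : ℝ) (g : ℝ → ℝ) (K : ℕ), HypG S ψ Lk Cs M κ g K →
  ∀ (V : B → Prop) (ρ K₂ : ℝ), Spr S V ρ K₂ → 8 * ((Fintype.card k : ℝ) + 1) * ρ ≤ κ →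
  ∀ (T₀ r₀ : ℕ), 1 ≤ T₀ → ∀ ε : ℝ, 0 < ε → ∃ X₀ : ℝ, ∀ X : ℝ, X₀ ≤ X →
  ∀ G : Finset B → ℝ, WtG S V G → ∀ P : Finset B,
    ∑ b ∈ P.powerset with (S.Fam b ∧ S.Bad b), G b * Real.exp (-(S.nm b / X)) ≤
      (Fintype.card U / Fintype.card Λ) * (Fintype.card k / (M * (Fintype.card k - 1))) *
        ∑ b ∈ P.powerset with S.Fam b, G b * Real.exp (-(S.nm b / X)) +
      (Fintype.card U / Fintype.card Λ) * (Fintype.card k / (Fintype.card k - 1)) *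
        ((1 / Fintype.card k : ℝ) ^ r₀ *
            ∑ b ∈ P.powerset with S.Fam b, Real.exp (-(S.nm b / X)) +
          ∑ b ∈ P.powerset with (S.Fam b ∧ ExX S V T₀ r₀ (lg X) b),
            Real.exp (-(S.nm b / X))) +
      ε * (X * g X)

/-- The systems of the chain differ only in `spl`, `lam₀`, `lam`, `res`, `a`, `dg`. -/
structure Chn (S : ℕ → Sys p B B₀ k U Λ C) : Prop where
  bs : ∀ i, (S i).bs = (S 0).bs
  N : ∀ i, (S i).N = (S 0).N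
  cls : ∀ i, (S i).cls = (S 0).cls
  cl₀ : ∀ i, (S i).cl₀ = (S 0).cl₀
  kap : ∀ i, (S i).kap = (S 0).kap

/-- The primes which are split in one of the systems `i + 1, ..., n - 1`. -/
def VU (S : ℕ → Sys p B B₀ k U Λ C) (n i : ℕ) (q : B) : Prop :=
  ∃ i', i < i' ∧ i' < n ∧ (S i').spl q

open Classical in
/-- **CHAIN**: the moment theorem for a chain of systems. -/
def CHAIN : Prop :=
  ∀ (p : ℕ) [Fact p.Prime] (B B₀ k U Λ C : Type) [Field k] [Fintype k] [Algebra (ZMod p) k]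
    [AddCommGroup U] [Module k U] [Fintype U] [AddCommGroup Λ] [Module k Λ] [Fintype Λ]
    [AddCommGroup C] [Finite C] (n : ℕ) (S : ℕ → Sys p B B₀ k U Λ C) (ψ : AddChar k ℂ)
    (Lk : ℕ → k → k → Prop) (Cs : ℕ → k → AddSubgroup k) (M : ℕ → ℕ) (κ : ℕ → ℝ) (g : ℝ → ℝ)
    (K : ℕ → ℕ), 0 < n → Chn S →
    (∀ i < n, HypG (S i) ψ (Lk i) (Cs i) (M i) (κ i) g (K i)) →
  ∀ (ρ K₂ : ℕ → ℝ), (∀ i < n, Spr (S 0) (VU S n i) (ρ i) (K₂ i)) →
    (∀ i < n, 8 * ((Fintype.card k : ℝ) + 1) * ρ i ≤ κ i) →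
  ∀ θ : ℝ, 0 ≤ θ → θ ≤ 1 → (Fintype.card U / Fintype.card Λ : ℝ) ≤ 1 →
    (∀ i < n, (Fintype.card U / Fintype.card Λ : ℝ) *
      (Fintype.card k / (M i * (Fintype.card k - 1))) ≤ θ) →
  ∀ (T₀ r₀ : ℕ → ℕ), (∀ i < n, 1 ≤ T₀ i) →
  ∀ ε : ℝ, 0 < ε → ∃ X₀ : ℝ, ∀ X : ℝ, X₀ ≤ X → ∀ P : Finset B,
    ∑ b ∈ P.powerset with ((S 0).Fam b ∧ ∀ i < n, (S i).Bad b),
        Real.exp (-((S 0).nm b / X)) ≤
      θ ^ n * ∑ b ∈ P.powerset with (S 0).Fam b, Real.exp (-((S 0).nm b / X)) +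
      ∑ i ∈ range n, 2 * ((1 / Fintype.card k : ℝ) ^ r₀ i *
            ∑ b ∈ P.powerset with (S 0).Fam b, Real.exp (-((S 0).nm b / X)) +
          ∑ b ∈ P.powerset with ((S 0).Fam b ∧ ExX (S i) (VU S n i) (T₀ i) (r₀ i) (lg X) b),
            Real.exp (-((S 0).nm b / X))) +
      ε * (X * g X)

end Pool.Agent.Helper38.TH
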