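import Pool.Agent.Helper38.TH.MainT
import Pool.Agent.Helper38.TH.GoalsE
import Pool.Agent.Helper17.TH.DICHF
import Pool.Agent.Helper42.TH.AsmF

/-!
# Project TH: the final theorem
-/

set_option autoImplicit false

namespace Pool.Agent.Helper38.TH

open NumberField Module Pool.Agent.Helper51.SigLeo
open Pool.Agent.Helper38.FD (Chr CutsOut LeopoldtFor)
open Pool.Agent.Helper38.FW (InDec IsOmega IsLocal IsWeight AllChr tame countChr)
open Pool.Agent.Helper38.FY (BaseChr)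

theorem main_t_of (hE : E_CYC) (p : ℕ) [Fact p.Prime] (K : Type) [Field K] [NumberField K]
    (ιinf : AlgebraicClosure K →+* ℂ) (ιp : AlgebraicClosure K →+* ℂ_[p])
    (L : IwasawaLog p ℂ_[p]) (ι : Type) [Fintype ι] [Nonempty ι] (D : ι → BaseChr ιinf ιp)
    (hD : ∀ i, p = 2 → ¬ IsOmega (D i).κ)
    (A : Set (IntermediateField K (AlgebraicClosure K) × Chr K (AlgebraicClosure K) ℂ_[p]))
    (hA : IsLocal A)
    (e : IntermediateField K (AlgebraicClosure K) × Chr K (AlgebraicClosure K) ℂ_[p] → ℕ)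
    (he : IsWeight e) :
    (∀ X : ℕ, {x | x ∈ AllChr p K ∧ tame p K x.1 * e x ≤ X}.Finite) ∧
    (∀ η : ι → ℕ → Chr K (AlgebraicClosure K) ℂ_[p], (∀ i, IsTower (η i)) →
      ∀ ε : ℝ, 0 < ε → ∀ᶠ X : ℕ in Filter.atTop,
      countChr e {x | x ∈ A ∧ ∃ i, {ξ | ξ ∈ Hat (η i) ∧ ¬ Full (D i) L (η i) x ξ}.Infinite} X ≤
        ε * countChr e A X) ∧
    (∃ η : ℕ → Chr K (AlgebraicClosure K) ℂ_[p], IsTower η ∧
      ∀ τ : AlgebraicClosure K →+* ℂ_[p], ∃ n g, InDec τ g ∧ η n g ≠ 1) ∧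
    (∃ δ : ℝ, 0 < δ ∧ ∀ᶠ X : ℕ in Filter.atTop,
      0 < countChr e (AllChr p K) X ∧ δ * countChr e (AllChr p K) X ≤ countChr e A X) := by
  obtain ⟨h1, -, h3⟩ := Pool.Agent.Helper38.FY.main_y p K ιinf ιp L ι D A hA e he
  refine ⟨h1, fun η hη ε hε ↦ ?_, hE p K, h3⟩
  refine main_of Pool.Agent.Helper17.TH.dich L D (fun i ↦ ?_) η hη A hA e he ε hε
  refine Pool.Agent.Helper42.TH.w_at (D i) L ?_
  by_cases hp : p = 2
  · exact Or.inr (hD i hp)
  · exact Or.inl hp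

end Pool.Agent.Helper38.TH
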