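import Pool.Agent.Helper38.TH.Defs
import Pool.Agent.Helper38.ND.Goals

/-!
# Project TH (MP_fc6b1e_nt, T100): independence of the levels, abstract part: goals

Every statement is a `def ... : Prop` with its complete proof in the docstring. `Q = |k|`, `e(z)` is `exp(-z)`. In the
statements with `∃ K'` the constant `K'` depends on everything except `V, G, I, E, T, i, j, m, t, s, X, P`; in
`T_OSZG` it may depend on `V, ρ, K₂` too.
-/

set_option autoImplicit false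

namespace Pool.Agent.Helper38.TH

open Finset Pool.Agent.Helper17.PP Pool.Agent.Helper17.PP0 Pool.Agent.Helper17.PP2
  Pool.Agent.Helper11.M3
open Pool.Agent.Helper30.PP2 (c0 y0)
open Pool.Agent.Helper38.ND (W_COR)

open Classical in
/-- **T_FOU** (the Fourier expansion of a `V`-weight). There is `h`, `‖h D z‖ ≤ 1`, `h D z` depends only on `z` on `D`, with
`G b = p^(-|P|) ∑_{z ∈ lab P} p^|b_V| h(b_V, z) ∏_{q' ∈ b_V} ∏_{q ∈ b, q ∉ V} ψ₁(z q' κ(q', q))` for `b ⊆ P`, `b_V = b.filter V`.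

PROOF (from `C_LAB`, for the field `ZMod p`). For `D : Finset B` and `v : B → ZMod p` let `H D v` be `G b'` if there is a
`b'` with `b'.filter V = D` and `∑_{q ∈ b', q ∉ V} κ(q', q) = v q'` for all `q' ∈ D` (choose one), otherwise `0`. `0 ≤ H ≤ 1`,
`H D v` depends only on `v` on `D` (as a proposition in `v`; use `WtG.dep`), and `G b = H (b_V) v_b`, where
`v_b q' = ∑_{q ∈ b, q ∉ V} κ(q', q)` for `q' ∈ b_V` and `0` otherwise, by `WtG.dep`. Let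
`h D z = p^(-|D|) ∑_{v ∈ lab (ZMod p) D} H D v ψ₁(-∑_{q' ∈ D} z q' v q')`. `‖h D z‖ ≤ 1` (`|lab D| = p^|D|`, `C_LAB` (1)). Inversion: for
`w ∈ lab D`, `∑_{z ∈ lab D} h D z ψ₁(∑_{q' ∈ D} z q' w q') = p^(-|D|) ∑_v H D v ∑_z ψ₁(∑_{q' ∈ D} z q' (w q' - v q')) = H D w`: if
`w ≠ v` there is `q₁ ∈ D` with `w q₁ ≠ v q₁` and `a ∈ ZMod p` with `ψ₁(a (w q₁ - v q₁)) ≠ 1` (`ψ₁ ≠ 1`, `ZMod p` is a field), so the sum
over `z` is `0` by `C_LAB` (3) (translate by the function `a` at `q₁`, `0` elsewhere); if `w = v` it is `p^|D|`. With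
`D = b_V`, `w = v_b`: `ψ₁(∑_{q' ∈ D} z q' v_b q') = ∏_{q' ∈ D} ∏_{q ∈ b, q ∉ V} ψ₁(z q' κ(q', q))` (`AddChar.map_sum_eq_prod`).
Finally replace the sum over `z ∈ lab D` by the sum over `z ∈ lab P` (`C_LAB` (5), `D ⊆ P`; the summand depends only on `z` on
`D`): this gives the factor `p^|D| p^(-|P|)`. -/
def T_FOU : Prop :=
  ∀ (p : ℕ) [Fact p.Prime] (B B₀ k U Λ C : Type) [Field k]
    [AddCommGroup U] [Module k U] [AddCommGroup Λ] [Module k Λ]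
    [AddCommGroup C] (S : Sys p B B₀ k U Λ C) (ψ₁ : AddChar (ZMod p) ℂ), ψ₁ ≠ 1 →
  ∀ (V : B → Prop) (G : Finset B → ℝ), WtG S V G → ∀ P : Finset B,
  ∃ h : Finset B → (B → ZMod p) → ℂ, (∀ D z, ‖h D z‖ ≤ 1) ∧
    (∀ D z z', (∀ q ∈ D, z q = z' q) → h D z = h D z') ∧
    ∀ b ⊆ P, (G b : ℂ) = (1 / (p : ℂ)) ^ P.card * ∑ z ∈ lab (ZMod p) P,
      (p : ℂ) ^ (b.filter V).card * h (b.filter V) z *
        ∏ q' ∈ b with V q', ∏ q ∈ b with ¬ V q, ψ₁ (z q' * S.kap q' q)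

open Classical in
/-- **T_LRGG** (the large moduli, with a weight). `G` is a `V`-weight and `I q` implies `q ∉ V`. The sum over `b` in the family,
over the `q` in the block `j` with `Wt` and `I q`, over the `D ⊆ rg E b q` in the block `i` and over all `χ`, of
`G b · part · e(nm b/X)`, is at most `K' (lg X + 2)^K' (i+1)^K 2^(-min(i,j)/K) X g(X)`.

PROOF. The proof of `C_LRG` (docstring in `Pool/Agent/Helper17/PP/GoalsC2.lean`, Lean proof `Pool/Agent/Helper9/PP/CLRG.lean` and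
its version for `Hyp₀`, `Pool/Agent/Helper17/PP0/LRG.lean`; use their lemmas) with `T_FOU`. Choose `u₀ ∈ k` with `ψ u₀ ≠ 1` and let
`ψ₁ w = ψ(u₀ · algebraMap w)`, a nontrivial character of `ZMod p`. Insert `T_FOU` for `G` and `P`, bring the sum over
`z ∈ lab (ZMod p) P` outside (with `x, t, χ, c, y`) and fix `z` too. Write `b = {q} ∪ D ∪ r` as there. `q ∉ V` because of `I q`, so
`b_V = D_V ∪ r_V` (disjoint), `p^|b_V| = p^|D_V| p^|r_V|`, `h(b_V, z)` depends on `D` and `r` only, and the product over `q' ∈ b_V` and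
`q'' ∈ b`, `q'' ∉ V` (so `q'' = q` or `q'' ∈ D ∪ r`) splits into: (a) `q'' = q`, `q' ∈ r_V`: a function of `q` (and `r`) of norm 1,
goes to `α q`; (b) `q'' = q`, `q' ∈ D_V`: `∏_{q' ∈ D_V} ψ₁(z q' κ(q', q))`; (c) `q'' ∈ D ∪ r`: a function of `D` (and `r`) of norm 1,
goes to `β D`. (b) is put into `chr`: `y ≠ 0` on `D` (condition (7) there), and for `q' ∈ D`
`ψ(y q' (t a(q', q) + c̃ q' κ)) ψ₁(z q' κ) = ψ(y q' (t a(q', q) + (c̃ q' + u₀ z q'/y q') κ))`, `κ = κ(q', q)`, so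
`chr ψ D y c̃ t q · (b) = chr ψ D y c' t q` with `c' q' = c̃ q' + (if V q' then u₀ z q'/y q' else 0)` (only the values at `q' ∈ D`,
where `y q' ≠ 0`, matter). `I q` is one more condition on `q` only (put it into `α`). So for fixed `x, t, χ, c, y, z, r, γ` we get
`Q^|rs_j(r)| p^|r_V| 1[(8)]` times a sum as in `blG` with `‖β D‖ ≤ Q^|rs_j(D)| p^|D_V| ≤ Q^(2|D|)` (`p ≤ Q`: `k` contains `ZMod p`).
*Summation.* As there (`|lab (ZMod p) P| = p^|P|` cancels the factor `p^(-|P|)`), with the additional factor `p^|r_V| ≤ p^|r|`: the total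
is at most `|U| Q |C| K 2^(i+j) (i+1)^K 2^(-min(i,j)/K) ∑_{r ⊆ P} p^|r| e(nm r/Y')`, `Y' = 2X/2^(i+j) ≤ X`, and by `ht` (or `htG`) with
`f = p ≤ Q` the last sum is at most `K Y' min(1,Y') g(Y') exp((p-1) ∑_{upto Y'} 1/N q)`; `g(Y') ≤ K g(X)`, and
`∑_{upto Y'} 1/N q ≤ ∑_{upto X} 1/N q ≤ K (1 + log(lg X + 1))` (`che`; `upto X` is contained in the union of the blocks `1, ..., lg X`; as in
`C_OSB`, lemma `upto_sum` in `Pool/Agent/Helper30/PP2/ROSA.lean`), so the exponential is at most `e^(pK) (lg X + 2)^(pK)`. (If `i + j = 0`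
is not possible: `j ≥ 1`.) -/
def T_LRGG : Prop :=
  ∀ (p : ℕ) [Fact p.Prime] (B B₀ k U Λ C : Type) [Field k] [Fintype k] [Algebra (ZMod p) k]
    [AddCommGroup U] [Module k U] [Fintype U] [AddCommGroup Λ] [Module k Λ] [Fintype Λ]
    [AddCommGroup C] [Finite C] (S : Sys p B B₀ k U Λ C) (ψ : AddChar k ℂ) (Lk : k → k → Prop)
    (Cs : k → AddSubgroup k) (M : ℕ) (κ : ℝ) (g : ℝ → ℝ) (K : ℕ), HypG S ψ Lk Cs M κ g K →
  ∃ K' : ℕ, ∀ (V : B → Prop) (G : Finset B → ℝ) (I : B → Prop), WtG S V G → (∀ q, I q → ¬ V q) →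
  ∀ (E i j : ℕ) (X : ℝ) (P : Finset B), 1 ≤ j → j ≤ th E j → 1 ≤ X →
    ‖∑ b ∈ P.powerset with S.Fam b, ∑ q ∈ b with (S.Wt E b q ∧ S.bl q = j ∧ I q),
      ∑ D ∈ (S.rg E b q).powerset with Nat.log 2 (S.nm D) = i, ∑ χ : AddChar Λ ℂ,
        (G b : ℂ) * S.part ψ E P b q D χ * (Real.exp (-(S.nm b / X)) : ℂ)‖ ≤
      K' * (lg X + 2) ^ K' * (i + 1) ^ K * (2 : ℝ) ^ (-(min i j : ℝ) / K) * (X * g X)

/-- **T_SMG** (sum of the bounds of `T_LRGG`), `E = 2K(K+1)`.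

PROOF (compare `C_SM1`, `Pool/Agent/Helper29/PP/CSM1.lean`). `A = 2K (2K' + 4)`. Let `C_K` be a bound for `(i+1)^K 2^(-i/(2K))`,
`i ∈ ℕ`. For `i ≤ j` the term `(i+1)^K 2^(-min(i,j)/K)` is `≤ C_K 2^(-i/(2K))`, and the sum over `i ≥ ti A j` of this is
`≤ C' 2^(-ti A j/(2K)) = C' 2^(-(2K'+4) Nat.log 2 j) ≤ C' (2/j)^(2K'+4)` (`2^(Nat.log 2 j) > j/2`). For `j < i < tb E j` the term is at most
`2^K (tb E j)^K 2^(-j/K)`, so the sum is at most `2^K (tb E j)^(K+1) 2^(-j/K) ≤ 2^K 2^((K+1) j/E - j/K) = 2^K 2^(-j/(2K))`, which is at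
most `C'' (2/j)^(2K'+4)` too. The sum over `j ≥ s = Nat.sqrt L` (`s ≥ 2`) of `(2/j)^(2K'+4)` is at most `2^(2K'+4) s^(-(2K'+2)) ∑ j⁻²
≤ C''' s^(-(2K'+2))`, and `s ≥ √L/2`, so the total is at most `C (L+2)^K' L^(-(K'+1))`, which tends to `0`. -/
def T_SMG : Prop :=
  ∀ (K K' : ℕ), 1 ≤ K → ∃ A : ℕ, 1 ≤ A ∧ ∀ ε : ℝ, 0 < ε → ∃ L₀ : ℕ, ∀ L, L₀ ≤ L → ∀ J : ℕ,
    ∑ j ∈ Ico (Nat.sqrt L) J, ∑ i ∈ Ico (ti A j) (tb (2 * K * (K + 1)) j),
      ((L : ℝ) + 2) ^ K' * ((i : ℝ) + 1) ^ K * (2 : ℝ) ^ (-(min i j : ℝ) / K) ≤ ε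

open Classical in
/-- **T_SPLV** (exactly one of the cases `ZoV`, `TlV .. q₁`, `TtV .. q₁ q₂`).

PROOF. That of `S_SPL` (`Pool/Agent/Helper17/M3/Spl.lean`) with `b` replaced by the primes of `b` not in `V` in all the
conditions. -/
def T_SPLV : Prop :=
  ∀ (p : ℕ) (B B₀ k U Λ C : Type) [Field k] [Fintype k] [Algebra (ZMod p) k]
    [AddCommGroup U] [Module k U] [Fintype U] [AddCommGroup Λ] [Module k Λ] [Fintype Λ]
    [AddCommGroup C] (S : Sys p B B₀ k U Λ C) (ψ : AddChar k ℂ) (V : B → Prop)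
    (Lk : k → k → Prop) (T E : ℕ) (P b : Finset B) (q : B) (t s : k),
    Ok S (fun _ ↦ True) T b →
    ful₃ S ψ E P b q t s (fun _ _ ↦ True) = ful₃ S ψ E P b q t s (ZoV S V Lk T E b q t s) +
      ∑ q₁ ∈ b, ful₃ S ψ E P b q t s (fun c y ↦ TlV S V Lk T E b q t s c y q₁) +
      ∑ q₁ ∈ b, ∑ q₂ ∈ b,
        ful₃ S ψ E P b q t s (fun c y ↦ TtV S V Lk T E b q t s c y q₁ q₂)

open Classical in
/-- **T_TTV** (at most one pair `q₁, q₂` satisfies `TtV`): the sum over `q₁, q₂` is at most `|U| Q^|b|`, and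
`TlV`, `TtV` are impossible in the wrong blocks.

PROOF. Copy `tt_uniq`, `norm_tt_one`, `norm_tt_le`, `ful₃_tl_zero`, `ful₃_tt_zero` of `Pool/Agent/Helper17/M3/FinA.lean` with `TlV`, `TtV`
(the field `top` is applied only to primes which are not in `V`, by `nV₁`, `nV₂`). -/
def T_TTV : Prop :=
  ∀ (p : ℕ) (B B₀ k U Λ C : Type) [Field k] [Fintype k] [Algebra (ZMod p) k]
    [AddCommGroup U] [Module k U] [Fintype U] [AddCommGroup Λ] [Module k Λ] [Fintype Λ]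
    [AddCommGroup C] (S : Sys p B B₀ k U Λ C) (ψ : AddChar k ℂ) (V : B → Prop)
    (Lk : k → k → Prop) (T E : ℕ) (P b : Finset B) (q : B) (t s : k),
    (‖∑ q₁ ∈ b, ∑ q₂ ∈ b, ful₃ S ψ E P b q t s (fun c y ↦ TtV S V Lk T E b q t s c y q₁ q₂)‖ ≤
      Fintype.card U * (Fintype.card k : ℝ) ^ b.card) ∧
    (∀ q₁, (S.bl q₁ < T ∨ S.bl q₁ = S.bl q) →
      ful₃ S ψ E P b q t s (fun c y ↦ TlV S V Lk T E b q t s c y q₁) = 0) ∧
    ∀ q₁ q₂, ¬ (T ≤ S.bl q₂ ∧ S.bl q₂ < S.bl q₁) →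
      ful₃ S ψ E P b q t s (fun c y ↦ TtV S V Lk T E b q t s c y q₁ q₂) = 0

open Classical in
/-- **T_OSZG** (at most one label outside `V` in the blocks `≥ T`). Let `1 ≤ T ≤ j`, and let all the primes of
`P` be in blocks `≤ th E j`. The sum over `b ⊆ P` and over `q` in the block `j` with `Wt` of
`‖ful₃ E P b q t s ZoV‖ e(nm b/X)` is at most `K' (T+2)^K' j⁻¹ min(1, X/2^j) (max 1 n)^(-κ/8) X g(X)`,
`n = lg X - (j+1)` (subtraction in `ℕ`).

PROOF (adaptation of `S_OSZ`, `Pool/Agent/Helper19/M3/SOSZ.lean`). `|ph| = 1`, so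
`‖ful₃‖ ≤ |U| Q^|rs b q| |lab k P|⁻² #{(c, y) : ZoV}`. Let `A` be the set of the split primes of `b.erase q` not in `V` in the
blocks `T ≤ · < j`, `A'` the set of those in the blocks `≥ T`, `≠ j`, `n' = |A'|` (`A ⊆ A'`). If `ZoV` holds then there is
`q₁ ∈ A'` such that `c = 0` on `A \ {q₁}` and `y = 0` on `A' \ {q₁}`, or `c = 0` on `A` and `y = 0` on `A'`
(all the primes of `b` are in blocks `≤ th E j`). By `C_LAB` (4) the number of these pairs is at most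
`(1 + n' Q²) |lab k P|² Q^(-|A|) Q^(-|A'|)`, and `1 + n' Q² ≤ 2 Q² (3/2)^n'`. So
`‖ful₃‖ ≤ 2 |U| Q² ∏_{q' ∈ b.erase q} f q'`, `f q' = Q` if `q'` is split in a block `< T`; `f q' = Q` if `q'` is split, in `V`, in a
block `T ≤ · < j`; `f q' = (3/2)/Q` if `q'` is split, not in `V`, in a block `≥ T`, `≠ j`; and `f q' = 1` otherwise.
With `Y = X/N q`, `ht` gives the bound `K Y min(1, Y) g(Y) exp(Σ)`, `Σ = ∑_{upto Y} (f - 1)/N q'`, `upto Y` is contained in the blocks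
`< n + 2` (`N q ≥ 2^j`, `Y ≤ X/2^j`) and contains `below n` (as in `S_OSZ`). So `Σ` is at most
`(Q-1) ∑_{bl < T} 1/N + (Q-1) ∑_{V, T ≤ bl < n+2} 1/N - (1 - 3/(2Q)) ∑_{split, not V, T ≤ bl < n, ≠ j} 1/N`. The first sum is at most
`K (1 + log(T+1))` (`che`). *Case `n ≤ T`*: the second sum is at most `ρ log 3 + K₂` (`Spr.up` with `m = T`, `n := n + 2 ≤ 3T`, or it is
empty), the third one is dropped, and `(max 1 n)^(κ/8) ≤ T^(κ/8)`. *Case `n > T`*: the second sum is at most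
`ρ log((n+2)/T) + K₂ ≤ ρ log(n/T) + ρ log 3 + K₂`; the third one is at least `κ log(n/T) - K - (ρ log(n/T) + K₂) - K` (`merK`, `Spr.up`,
`che` for the block `j`) and it is `≥ 0`; `1 - 3/(2Q) ≥ 1/4`. So
`Σ ≤ C + [(Q-1) ρ + ρ/4 - κ/4] log(n/T) + (Q-1) K log(T+1) ≤ C - (κ/8) log(n/T) + (Q-1) K log(T+1)`, because
`(Q - 1) ρ + ρ/4 ≤ (Q+1) ρ ≤ κ/8`. The rest is as in `S_OSZ` (`K'` is at least `κ/8 + ...`). -/
def T_OSZG : Prop :=
  ∀ (p : ℕ) [Fact p.Prime] (B B₀ k U Λ C : Type) [Field k] [Fintype k] [Algebra (ZMod p) k]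
    [AddCommGroup U] [Module k U] [Fintype U] [AddCommGroup Λ] [Module k Λ] [Fintype Λ]
    [AddCommGroup C] [Finite C] (S : Sys p B B₀ k U Λ C) (ψ : AddChar k ℂ) (Lk : k → k → Prop)
    (Cs : k → AddSubgroup k) (M : ℕ) (κ : ℝ) (g : ℝ → ℝ) (K : ℕ), HypG S ψ Lk Cs M κ g K →
  ∀ (V : B → Prop) (ρ K₂ : ℝ), Spr S V ρ K₂ → 8 * ((Fintype.card k : ℝ) + 1) * ρ ≤ κ →
  ∃ K' : ℕ, ∀ (E T j : ℕ) (t s : k) (X : ℝ) (P : Finset B), 1 ≤ T → T ≤ j →
      (∀ q ∈ P, S.bl q ≤ th E j) → 1 ≤ X →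
    ∑ b ∈ P.powerset, ∑ q ∈ b with (S.Wt E b q ∧ S.bl q = j),
        ‖ful₃ S ψ E P b q t s (ZoV S V Lk T E b q t s)‖ * Real.exp (-(S.nm b / X)) ≤
      K' * ((T : ℝ) + 2) ^ K' / j * min 1 (X / 2 ^ j) *
        ((max 1 (lg X - (j + 1)) : ℕ) : ℝ) ^ (-(κ / 8)) * (X * g X)

open Classical in
/-- **T_OSAG** (the oscillating sums of the first kind, with a weight). `G` is a `V`-weight. Let `1 ≤ T ≤ i, j`, `i ≠ j`,
`t, s ≠ 0`. The sum over the `b ⊆ P` in the family with `Ok T b`, over the `q ∉ V` in the block `j` with `Wt` and over `q₁` in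
the block `i`, of `G b · ful₃ E P b q t s (TlV .. q₁) · e(nm b/X)`, is at most
`K' (lg X + 2)^K' (i+j)^K 2^(-min(i,j)/K) min(1, X/2^(i+j)) X g(X)`.

PROOF. That of `S_OSA` (`Pool/Agent/Helper83/M3/SOSA.lean`; use its lemmas) with `T_FOU` for `ψ₁ w = ψ(u₀ algebraMap w)`, `ψ u₀ ≠ 1`
(or any nontrivial character of `ZMod p`). Bring also the sum over `z ∈ lab (ZMod p) P` outside and fix `z`. `b = {q, q₁} ∪ r`,
`q ∉ V`, `q₁ ∉ V` (`TlV.nV`), so `b_V = r_V` is fixed by `r`: `p^|b_V| h(b_V, z)` is a function of `r` of norm at most `p^|r|`, and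
the product over `q' ∈ r_V`, `q'' ∈ {q, q₁} ∪ r`, `q'' ∉ V` is a function of `q` (`q'' = q`; goes to the coefficient of `q`) times a
function of `q₁` (`q'' = q₁`; goes to the coefficient of `q₁`) times a function of `r`, all of norm 1. The condition `q ∉ V` goes
to the coefficient of `q`, `q₁ ∉ V` to the one of `q₁`; the conditions of `TlV` at the `q' ∈ r` (not in `V`, or no condition) are the
ones of `Tl` there. *Summation.* As there, with `∑_{r ⊆ P} (Q p)^|r| e(nm r/Y')` in the place of `∑ Q^|r| e(nm r/Y')`: `htG` with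
`f = Q p ≤ (Q+1)²` (`p ≤ Q`); the exponent is at most `Q p K (1 + log(lg X + 1))`. -/
def T_OSAG : Prop :=
  ∀ (p : ℕ) [Fact p.Prime] (B B₀ k U Λ C : Type) [Field k] [Fintype k] [Algebra (ZMod p) k]
    [AddCommGroup U] [Module k U] [Fintype U] [AddCommGroup Λ] [Module k Λ] [Fintype Λ]
    [AddCommGroup C] [Finite C] (S : Sys p B B₀ k U Λ C) (ψ : AddChar k ℂ) (Lk : k → k → Prop)
    (Cs : k → AddSubgroup k) (M : ℕ) (κ : ℝ) (g : ℝ → ℝ) (K : ℕ), HypG S ψ Lk Cs M κ g K →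
  ∃ K' : ℕ, ∀ (V : B → Prop) (G : Finset B → ℝ), WtG S V G →
  ∀ (E T i j : ℕ) (t s : k) (X : ℝ) (P : Finset B), 1 ≤ T → T ≤ i → T ≤ j → i ≠ j →
      t ≠ 0 → s ≠ 0 → 1 ≤ X →
    ‖∑ b ∈ P.powerset with (S.Fam b ∧ Ok S (fun _ ↦ True) T b),
      ∑ q ∈ b with (S.Wt E b q ∧ S.bl q = j ∧ ¬ V q), ∑ q₁ ∈ b with S.bl q₁ = i,
        (G b : ℂ) * ful₃ S ψ E P b q t s (fun c y ↦ TlV S V Lk T E b q t s c y q₁) *
          (Real.exp (-(S.nm b / X)) : ℂ)‖ ≤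
      K' * (lg X + 2) ^ K' * (i + j) ^ K * (2 : ℝ) ^ (-(min i j : ℝ) / K) *
        min 1 (X / 2 ^ (i + j)) * (X * g X)

open Classical in
/-- **T_OSBG** (the oscillating sums of the second kind, with a weight). `G` is a `V`-weight. Let `1 ≤ T ≤ i₂ < i₁`,
`T ≤ m`, `t ≠ 0`, `s ∈ Cs t`, `s ≠ 0`. The sum over the `b ⊆ P` in the family with `Ok T b`, over the `q ∈ b` not in `V` in the
blocks `≥ m` with `Wv`, over `q₁` in the block `i₁` and `q₂` in the block `i₂`, of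
`G b · ful₃ E P b q t s (TtV .. q₁ q₂) · e(nm b/X)`, is at most `K' (lg X + 2)^K' (i₁+i₂)^K 2^(-i₂/K) min(1, X/2^(i₁+i₂)) X g(X)`.

PROOF. That of `S_OSB` (`Pool/Agent/Helper18/M3/SOSB.lean`; use its lemmas) with `T_FOU` as in `T_OSAG`: `b = {q₁, q₂} ∪ r`,
`q₁, q₂ ∉ V` (`TtV.nV₁`, `nV₂`), `q ∈ r`, `b_V = r_V`; the phases with `q'' = q₁`, `q'' = q₂` go to the coefficients of `q₁`, `q₂`. *Summation*:
`∑_{q ∈ r} (Q p)^|r| ≤ Q p (Q p + 1)^|r|` (Bernoulli), and `htG` with `f = Q p + 1 ≤ (Q+1)²`. -/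
def T_OSBG : Prop :=
  ∀ (p : ℕ) [Fact p.Prime] (B B₀ k U Λ C : Type) [Field k] [Fintype k] [Algebra (ZMod p) k]
    [AddCommGroup U] [Module k U] [Fintype U] [AddCommGroup Λ] [Module k Λ] [Fintype Λ]
    [AddCommGroup C] [Finite C] (S : Sys p B B₀ k U Λ C) (ψ : AddChar k ℂ) (Lk : k → k → Prop)
    (Cs : k → AddSubgroup k) (M : ℕ) (κ : ℝ) (g : ℝ → ℝ) (K : ℕ), HypG S ψ Lk Cs M κ g K →
  ∃ K' : ℕ, ∀ (V : B → Prop) (G : Finset B → ℝ), WtG S V G →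
  ∀ (E T i₁ i₂ m : ℕ) (t s : k) (X : ℝ) (P : Finset B), 1 ≤ T → T ≤ i₂ → i₂ < i₁ →
      T ≤ m → t ≠ 0 → s ∈ Cs t → s ≠ 0 → 1 ≤ X →
    ‖∑ b ∈ P.powerset with (S.Fam b ∧ Ok S (fun _ ↦ True) T b),
      ∑ q ∈ b with (Wv S b q ∧ m ≤ S.bl q ∧ ¬ V q),
        ∑ q₁ ∈ b with S.bl q₁ = i₁, ∑ q₂ ∈ b with S.bl q₂ = i₂,
          (G b : ℂ) * ful₃ S ψ E P b q t s (fun c y ↦ TtV S V Lk T E b q t s c y q₁ q₂) *
            (Real.exp (-(S.nm b / X)) : ℂ)‖ ≤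
      K' * (lg X + 2) ^ K' * (i₁ + i₂) ^ K * (2 : ℝ) ^ (-(i₂ : ℝ) / K) *
        min 1 (X / 2 ^ (i₁ + i₂)) * (X * g X)

open Classical in
/-- **T_PTW** (the main terms, pointwise). If all the primes of `b` are in the blocks `≤ th E s` and `s ≤ m`, the sum over the `q`
with `Wt E b q` and `s ≤ bl q < m` of `(Q - 1) Q^(-|rt E b q|)` is at most `Q · Q^(-n)`, `n` the number of the split primes of `b`
in the blocks `≥ m`.

PROOF (compare `C_MNB`, `Pool/Agent/Helper61/PP/CMNB.lean`). Let `W` be the set of these `q`; they are split and in distinct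
blocks. For `q ∈ W` the set `rt E b q` contains all the split `q' ∈ b` with `bl q < bl q'` (`bl q' ≤ th E s ≤ th E (bl q)`, `th` is
monotone), in particular the `n` split primes in the blocks `≥ m` and (disjoint from these) the `q' ∈ W` with `bl q < bl q'`. So
`|rt E b q| ≥ n + h(q)`, `h` injective on `W`, and the sum is at most `(Q - 1) Q^(-n) ∑_{h ≥ 0} Q^(-h) = Q Q^(-n)`. -/
def T_PTW : Prop :=
  ∀ (p : ℕ) (B B₀ k U Λ C : Type) [Field k] [Fintype k]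
    [AddCommGroup U] [Module k U] [AddCommGroup Λ] [Module k Λ]
    [AddCommGroup C] (S : Sys p B B₀ k U Λ C) (E s m : ℕ) (b : Finset B),
    (∀ q ∈ b, S.bl q ≤ th E s) → s ≤ m →
    ∑ q ∈ b with (S.Wt E b q ∧ s ≤ S.bl q ∧ S.bl q < m),
      ((Fintype.card k : ℝ) - 1) * (1 / Fintype.card k : ℝ) ^ (S.rt E b q).card ≤
    Fintype.card k * (1 / Fintype.card k : ℝ) ^ (b.filter fun q ↦ S.spl q ∧ m ≤ S.bl q).card

open Classical in
/-- **T_STJG** (one block, with a weight and a condition on `q`). Let `1 ≤ ti A j`, `1 ≤ j ≤ th E j`, `1 ≤ X`, `0 ≤ G ≤ 1`. The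
sum over the `b` in the family and the `q` in the block `j` with `Wt` and `I q` of `G b · cnt · e(nm b/X)` is at most the sum of: the
main term `(|U|/|Λ|) (Q - 1) ∑_b ∑_q G b Q^(-|rt E b q|) e(nm b/X)`; the left side of `C_SML` with `I = ti A j` (without `G` and without
the condition `I`); and the left sides of `T_LRGG` for `ti A j ≤ i < tb E j`.

PROOF (from `C_ORT`, `C_PMN`): the one of `C_STJ`, `Pool/Agent/Helper29/PP/CSTJ.lean`, with the weight `G b e(nm b/X)` and the condition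
`I q`; in the second term use `G ≤ 1` and drop the condition `I q` (the terms are nonnegative). -/
def T_STJG : Prop :=
  ∀ (p : ℕ) [Fact p.Prime] (B B₀ k U Λ C : Type) [Field k] [Fintype k] [Algebra (ZMod p) k]
    [AddCommGroup U] [Module k U] [Fintype U] [AddCommGroup Λ] [Module k Λ] [Fintype Λ]
    [AddCommGroup C] (S : Sys p B B₀ k U Λ C) (ψ : AddChar k ℂ), ψ ≠ 1 →
  ∀ (G : Finset B → ℝ) (I : B → Prop), (∀ b, 0 ≤ G b ∧ G b ≤ 1) →
  ∀ (E A j : ℕ) (X : ℝ) (P : Finset B), 1 ≤ ti A j → 1 ≤ j → j ≤ th E j → 1 ≤ X →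
    ∑ b ∈ P.powerset with S.Fam b, ∑ q ∈ b with (S.Wt E b q ∧ S.bl q = j ∧ I q),
      G b * (S.cnt E b q : ℝ) * Real.exp (-(S.nm b / X)) ≤
    (Fintype.card U / Fintype.card Λ : ℝ) * ((Fintype.card k : ℝ) - 1) *
      ∑ b ∈ P.powerset with S.Fam b, ∑ q ∈ b with (S.Wt E b q ∧ S.bl q = j ∧ I q),
        G b * (1 / Fintype.card k : ℝ) ^ (S.rt E b q).card * Real.exp (-(S.nm b / X)) +
    ∑ b ∈ P.powerset with S.Fam b, ∑ q ∈ b with (S.Wt E b q ∧ S.bl q = j),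
      ∑ D ∈ (S.rg E b q).powerset with Nat.log 2 (S.nm D) < ti A j,
        ∑ χ : AddChar Λ ℂ with (D.Nonempty ∨ χ ≠ 1),
          ‖S.part ψ E P b q D χ‖ * Real.exp (-(S.nm b / X)) +
    ∑ i ∈ Ico (ti A j) (tb E j),
      ‖∑ b ∈ P.powerset with S.Fam b, ∑ q ∈ b with (S.Wt E b q ∧ S.bl q = j ∧ I q),
        ∑ D ∈ (S.rg E b q).powerset with Nat.log 2 (S.nm D) = i, ∑ χ : AddChar Λ ℂ,
          (G b : ℂ) * S.part ψ E P b q D χ * (Real.exp (-(S.nm b / X)) : ℂ)‖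

open Classical in
/-- **BLK** (the blocks `≥ √L`, with a weight and a condition on `q`). `G` is a `V'`-weight, `I q` implies `q ∉ V'`. For every
`ε > 0` there is `X₀` such that for `X ≥ X₀` and all `P` with primes in blocks `≤ th E s`, `s = Nat.sqrt (lg X)`, `E = 2K(K+1)`:
the sum over `b` in the family and over the `q` with `Wt`, `I q` in the blocks `s ≤ bl q` of `G b cnt e(nm b/X)` is at most
`(|U|/|Λ|) ∑_b G b (∑_{q : Wt, s ≤ bl q, I q} (Q-1) Q^(-|rt E b q|)) e(nm b/X) + ε X g(X)`. `X₀` does not depend on `V'`, `G`, `I`. -/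
def BLK : Prop :=
  ∀ (p : ℕ) [Fact p.Prime] (B B₀ k U Λ C : Type) [Field k] [Fintype k] [Algebra (ZMod p) k]
    [AddCommGroup U] [Module k U] [Fintype U] [AddCommGroup Λ] [Module k Λ] [Fintype Λ]
    [AddCommGroup C] [Finite C] (S : Sys p B B₀ k U Λ C) (ψ : AddChar k ℂ) (Lk : k → k → Prop)
    (Cs : k → AddSubgroup k) (M : ℕ) (κ : ℝ) (g : ℝ → ℝ) (K : ℕ), HypG S ψ Lk Cs M κ g K →
  ∀ ε : ℝ, 0 < ε → ∃ X₀ : ℝ, ∀ X : ℝ, X₀ ≤ X →
  ∀ (V' : B → Prop) (G : Finset B → ℝ) (I : B → Prop), WtG S V' G → (∀ q, I q → ¬ V' q) →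
  ∀ P : Finset B, (∀ q ∈ P, S.bl q ≤ th (2 * K * (K + 1)) (Nat.sqrt (lg X))) →
    ∑ b ∈ P.powerset with S.Fam b,
      (∑ q ∈ b with (S.Wt (2 * K * (K + 1)) b q ∧ Nat.sqrt (lg X) ≤ S.bl q ∧ I q),
        (S.cnt (2 * K * (K + 1)) b q : ℝ)) * (G b * Real.exp (-(S.nm b / X))) ≤
    (Fintype.card U / Fintype.card Λ : ℝ) * ∑ b ∈ P.powerset with S.Fam b,
      (∑ q ∈ b with (S.Wt (2 * K * (K + 1)) b q ∧ Nat.sqrt (lg X) ≤ S.bl q ∧ I q),
        ((Fintype.card k : ℝ) - 1) *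
          (1 / Fintype.card k : ℝ) ^ (S.rt (2 * K * (K + 1)) b q).card) *
        (G b * Real.exp (-(S.nm b / X))) + ε * (X * g X)

/-- **T_BLK**.

PROOF (from `T_STJG`, `T_LRGG`, `T_SMG`, `Z_SML`, `C_SM2`). Let `K₁` be the constant of `T_LRGG`, `K₂` the one of `Z_SML`, `A` the one of
`T_SMG` for `(K, K₁)`. Choose `ε'` with `(K₁ + K₂) ε' ≤ ε`, and `X₀` such that for `L = lg X`: `T_SMG` holds for `L` and `ε'`; `s ≥ 2`, `s ≥ j₁`
(`C_SM2` for `(K, K₂, A, ε')`; take `j₀ = j₁` fixed there, the sum over `s ≤ j < J` is a part of the one over `j₀ ≤ j < J`), `j ≤ th E j` for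
`j ≥ s` (`le_th_of_large`), `L ≥ L₀`. Sum `T_STJG` over `s ≤ j < J = th E s + 1` (the sum over the `q` with `s ≤ bl q` is the sum over
these blocks: `S.sum_blocks`, as in `step4`). `ti A j ≥ 1` because `A ≥ 1`, `j ≥ 2`. The second terms are at most
`K₂ · (sum of C_SM2) · X g(X)` (`X < 2^(L+1)`: `min_bound`), the third ones at most `K₁ · (sum of T_SMG) · X g(X)`. -/
def T_BLK : Prop := T_STJG → T_LRGG → T_SMG → Z_SML → C_SM2 → BLK

open Classical in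
/-- **PRTB** (the primes in `V`). In the situation of `MTG`: for every `ε > 0` there is `X₀` such that for `X ≥ X₀` and all `P`
with primes in blocks `≤ th E s` the sum over `b` in the family and over the `q ∈ V` with `Wt`, `s ≤ bl q`, of
`cnt E b q e(nm b/X)` is at most `(|U|/|Λ|) Q [Q^(-r₀) ∑_{Fam} e + ∑_{Fam, ExX} e] + ε X g(X)`. -/
def PRTB : Prop :=
  ∀ (p : ℕ) [Fact p.Prime] (B B₀ k U Λ C : Type) [Field k] [Fintype k] [Algebra (ZMod p) k]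
    [AddCommGroup U] [Module k U] [Fintype U] [AddCommGroup Λ] [Module k Λ] [Fintype Λ]
    [AddCommGroup C] [Finite C] (S : Sys p B B₀ k U Λ C) (ψ : AddChar k ℂ) (Lk : k → k → Prop)
    (Cs : k → AddSubgroup k) (M : ℕ) (κ : ℝ) (g : ℝ → ℝ) (K : ℕ), HypG S ψ Lk Cs M κ g K →
  ∀ (V : B → Prop) (T₀ r₀ : ℕ), 1 ≤ T₀ →
  ∀ ε : ℝ, 0 < ε → ∃ X₀ : ℝ, ∀ X : ℝ, X₀ ≤ X →
  ∀ P : Finset B, (∀ q ∈ P, S.bl q ≤ th (2 * K * (K + 1)) (Nat.sqrt (lg X))) →
    ∑ b ∈ P.powerset with S.Fam b,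
      (∑ q ∈ b with (S.Wt (2 * K * (K + 1)) b q ∧ Nat.sqrt (lg X) ≤ S.bl q ∧ V q),
        (S.cnt (2 * K * (K + 1)) b q : ℝ)) * Real.exp (-(S.nm b / X)) ≤
    (Fintype.card U / Fintype.card Λ : ℝ) * (Fintype.card k *
      ((1 / Fintype.card k : ℝ) ^ r₀ *
          ∑ b ∈ P.powerset with S.Fam b, Real.exp (-(S.nm b / X)) +
        ∑ b ∈ P.powerset with (S.Fam b ∧ ExX S V T₀ r₀ (lg X) b),
          Real.exp (-(S.nm b / X)))) + ε * (X * g X)

/-- **T_PRTB**.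

PROOF (from `BLK`, `T_PTW`, `C_MNB`). `BLK` with `V' = ∅` (`False`), `G = 1`, `I = V` (a constant
weight is a weight). Pointwise in `b` (all primes in blocks `≤ th E s`): let `m` be the least natural number with `L ≤ T₀ m`
(`L = lg X`), so that `L ≤ T₀ x ↔ m ≤ x` for natural numbers `x` (`m = (L + T₀ - 1)/T₀`); `s ≤ m` for `L ≥ T₀²` (`T₀ s ≤ √L s ≤ L`: if
`m < s` then `L ≤ T₀ m < T₀ s ≤ L`). If `ExX` does not hold, all `q ∈ b` in `V` have `bl q < m`, and `b` has at least `r₀` split primes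
in the blocks `≥ m`; so `∑_{q : Wt, s ≤ bl q, V q} (Q-1) Q^(-|rt|) ≤ ∑_{q : Wt, s ≤ bl q < m} .. ≤ Q Q^(-r₀)` by `T_PTW`. If `ExX` holds
the sum is at most `Q` by `C_MNB`. -/
def T_PRTB : Prop := BLK → T_PTW → C_MNB → PRTB

open Classical in
/-- **PRTC** (the primes not in `V`). In the situation of `MTG`: for every `ε > 0` there is `j₁` such that for `j₀ ≥ j₁` there is `X₀`
such that for `X ≥ X₀`, every `V`-weight `G`, every `P` with primes in blocks `≤ th E s` there is `T ≥ j₀`, `T ≤ s`, such that the sum over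
`b` in the family with `Ok T b` and over the `q ∉ V` with `Wt`, `s ≤ bl q`, of `G b cnt₂ E b q e(nm b/X)` is at most
`(|U|/|Λ|) (Q/M) ∑_{Fam} G b e(nm b/X) + ε X g(X)`. `T` does not depend on `G`, `P`. -/
def PRTC : Prop :=
  ∀ (p : ℕ) [Fact p.Prime] (B B₀ k U Λ C : Type) [Field k] [Fintype k] [Algebra (ZMod p) k]
    [AddCommGroup U] [Module k U] [Fintype U] [AddCommGroup Λ] [Module k Λ] [Fintype Λ]
    [AddCommGroup C] [Finite C] (S : Sys p B B₀ k U Λ C) (ψ : AddChar k ℂ) (Lk : k → k → Prop)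
    (Cs : k → AddSubgroup k) (M : ℕ) (κ : ℝ) (g : ℝ → ℝ) (K : ℕ), HypG S ψ Lk Cs M κ g K →
  ∀ (V : B → Prop) (ρ K₂ : ℝ), Spr S V ρ K₂ → 8 * ((Fintype.card k : ℝ) + 1) * ρ ≤ κ →
  ∀ ε : ℝ, 0 < ε → ∀ j₀ : ℕ, 1 ≤ j₀ → ∃ X₀ : ℝ, ∀ X : ℝ, X₀ ≤ X →
  ∃ T : ℕ, j₀ ≤ T ∧ T ≤ Nat.sqrt (lg X) ∧
  ∀ G : Finset B → ℝ, WtG S V G →
  ∀ P : Finset B, (∀ q ∈ P, S.bl q ≤ th (2 * K * (K + 1)) (Nat.sqrt (lg X))) →
    ∑ b ∈ P.powerset with (S.Fam b ∧ Ok S (fun _ ↦ True) T b),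
      (∑ q ∈ b with (S.Wt (2 * K * (K + 1)) b q ∧ Nat.sqrt (lg X) ≤ S.bl q ∧ ¬ V q),
        (S.cnt₂ (2 * K * (K + 1)) b q : ℝ)) * (G b * Real.exp (-(S.nm b / X))) ≤
    (Fintype.card U / Fintype.card Λ : ℝ) * (Fintype.card k / M *
      ∑ b ∈ P.powerset with S.Fam b, G b * Real.exp (-(S.nm b / X))) + ε * (X * g X)

/-- **T_PRTC**.

PROOF (from `BLK` and `S_FUL`, `T_SPLV`, `T_TTV`, `T_OSZG`, `T_OSAG`, `T_OSBG`, `S_TL`, `R_SM5`, `R_SM6`,
`C_MNB`). Compare `s_finw` in `Pool/Agent/Helper17/M3/FinC.lean` and the lemmas `first_le`, `second_eq`, `third_le`, `step7₃` in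
`Helper17/M3/FinB.lean`. `E = 2K(K+1)`; `K₃`, `K₇`, `K₆` the constants of `T_OSAG`, `T_OSBG`, `T_OSZG`; `A₃, A₇` the ones of `R_SM6` for
`(K, K₃)`, `(K, K₇)`, `A₂ = A₃ + A₇`, `L = lg X`, `s = Nat.sqrt L`, `T = ti A₂ L + j₀ ≤ s` (`ti_le_sqrt`), `J = th E s + 1`.
(1) `S_FUL` for each `b`, `q`: the left side is at most `(1/M) ∑_b ∑_q G cnt e + (1/M) ∑_{t ≠ 0} ∑_{s' ∈ Cs t, s' ≠ 0} Re (∑_b G b
(∑_q ful₃ t s' True) e)`. (2) The first sum (drop `Ok`): `BLK` with `V' = V`, `I q = ¬ V q`, and pointwise `C_MNB` (the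
sum over the `q ∉ V` is part of the sum over all `q`): at most `(|U|/|Λ|) Q ∑_{Fam} G e + ε' X g(X)`. (3) For fixed `t, s'`: by `T_SPLV` the
sum is `(ZoV) + (TlV) + (TtV)`. (ZoV): at most `∑_{s ≤ j < J}` of the left sides of `T_OSZG` (`G ≤ 1`); let `K₉ ≥ 1` be a natural number with
`1/(2 K₉) ≤ κ/8`; `(max 1 n)^(-κ/8) ≤ (max 1 n)^(-1/(2 K₉))` and `R_SM5` with `K₉`. (TlV): `∑_{s ≤ j < J} ∑_{T ≤ i < J, i ≠ j}` of the left
sides of `T_OSAG` (`T_TTV` (2)), summed by `R_SM6`. (TtV): replace `Wt` by `Wv` (`nm_of_not_wt`): `∑_{T ≤ i₂ < i₁ < J}` of the left sides of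
`T_OSBG` with `m = s` (`T_TTV` (3)), summed by `R_SM6` (`i₂ = min(i₁, i₂)`), plus the sum over the `q` with `Wv`, not `Wt`, where
`nm b ≥ 2^(tb E (bl q))` and `T_TTV` (1) and `S_TL` apply. At most `Q²` pairs `(t, s')`. -/
def T_PRTC : Prop :=
  BLK → C_MNB → S_FUL → T_SPLV → T_TTV → T_OSZG → T_OSAG → T_OSBG → S_TL → R_SM5 → R_SM6 → PRTC

open Classical in
/-- **T_MTG** (assembly of `MTG`).

PROOF (compare `s_finw`, `Pool/Agent/Helper17/M3/FinC.lean`, and `step1W`, `step4W` in `Pool/Agent/Helper85/ND/WMT2S.lean`, which hold for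
any nonnegative weight `W b`; here `W b = G b e(nm b/X)` and `W_COR` is used for `w t = exp(-t)`). `E = 2K(K+1)`, `ρ₀ = |U|/|Λ|`. Choose
`j₀ ≥ 2` with `j ≤ th E j` for `j ≥ j₀`, `j₀ ≥` the `j₁` of `Z_EX5`, `W_COR`, and `K₅/j₀ ≤ ε'` (`Z_EX2`), then `X₀` for `Z_EX0` (`j₀`), `Z_EX6`,
`W_COR` (`j₀`), `PRTB`, `PRTC` (`j₀`), and `s ≥ j₀`. `P' ⊆ P` the primes in blocks `≤ th E s`.
`step1W`: `∑_{Fam, Bad} W ≤ (exceptional sets, W ≤ e: at most 4 ε' X g(X)) + ∑_{b ⊆ P', Fam, Ok j₀, ∃ q Wt, j₀ ≤ bl q, Q-1 ≤ cnt₂} W`.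
`(Q - 1)` times the last sum is at most `∑_b W (∑_{q : Wt, j₀ ≤ bl q < s} cnt) + ∑_{b : Ok T} W (∑_{q : Wt, s ≤ bl q} cnt₂)` (`step4W`, with `T` from
`PRTC`; `Ok j₀` implies `Ok T`). The first part is at most the same sum with `e` in the place of `W`, `≤ ε' X g(X)` by `W_COR`. In the
second part split `q ∈ V` (`cnt₂ ≤ cnt`, `W ≤ e`, drop `Ok`: `PRTB`) and `q ∉ V` (`PRTC`). Divide by `Q - 1`; the sums over `b ⊆ P'` on
the right are at most the sums over `b ⊆ P`. (`ρ₀ (Q/M)/(Q-1) = ρ₀ Q/(M(Q-1))`, `ρ₀ Q/(Q-1)`.) -/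
def T_MTG : Prop :=
  W_COR → C_CNT → Z_EX0 → Z_EX2 → Z_EX5 → Z_EX6 → PRTB → PRTC → MTG

/-- **T_BADW** (the indicator of `Bad` is a weight). If all the split primes of `S` are in `V` then the indicator of `Bad` is a
`V`-weight for `S`, and products of `V`-weights, constants in `[0, 1]` are `V`-weights; `WtG` depends only on `kap`.

PROOF. Let `b.filter V = b'.filter V`, with the same sums of `kap q' ·` over the primes not in `V`, for `q' ∈ b.filter V`. If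
`(x, c)` is a solution for `b`, it is one for `b'`: `supp`: `c q ≠ 0 → q ∈ b`, `spl q`, so `q ∈ b.filter V = b'.filter V`. `lam`: in
`∑_{q ∈ b} lam q (c q)` only the `q ∈ b.filter V` contribute. `loc`: let `q ∈ b'`, `spl q`; then `q ∈ b.filter V`; in `R b x c q` the first
sum is over the `q' ∈ b.erase q` with `c q' ≠ 0`, so over `b.filter V`, and `∑_{q' ∈ b.erase q} κ(q, q')` is the sum over
`(b.filter V).erase q` plus the sum over the `q' ∈ b` not in `V` (`q ∈ V`). So `R b x c q = R b' x c q`. -/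
def T_BADW : Prop :=
  ∀ (p : ℕ) (B B₀ k U Λ C : Type) [Field k] [Algebra (ZMod p) k]
    [AddCommGroup U] [Module k U] [AddCommGroup Λ] [Module k Λ]
    [AddCommGroup C] (S S' : Sys p B B₀ k U Λ C) (V : B → Prop),
    (S'.kap = S.kap → (∀ q, S'.spl q → V q) →
      WtG S V (fun b ↦ open Classical in if S'.Bad b then 1 else 0)) ∧
    (∀ G G' : Finset B → ℝ, WtG S V G → WtG S V G' → WtG S V fun b ↦ G b * G' b) ∧
    ∀ v : ℝ, 0 ≤ v → v ≤ 1 → WtG S V fun _ ↦ v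

/-- **T_CHN** (assembly of `CHAIN`).

PROOF (from `MTG`, `T_BADW`). Let `Φ i` (`i ≤ n`) be the sum over the `b ⊆ P` in the family with `Bad (S i') b` for all
`i ≤ i' < n`, of `e(nm b/X)`. `Φ n` is the sum over the family. For `i < n` let `G_i b = 1` if `Bad (S i') b` for all `i < i' < n`, otherwise `0`: it is a
product of indicators, a `VU S n i`-weight for `S i` by `T_BADW` (`(S i').kap = (S i).kap` by `Chn`). All the `S i` have the same `bs`,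
`N`, `cls`, `cl₀`, so the same `nm`, `bl`, `below`, `Fam` (rewrite with `Chn`; it is convenient to prove first
`(S i).nm = (S 0).nm`, `(S i).Fam = (S 0).Fam`, `Spr (S i) = Spr (S 0)` for fixed arguments). `MTG` for `S i` with `ε/(n+1)` and the weight `G_i`:
`Φ i ≤ θ Φ (i+1) + 2 [..]_i + ε/(n+1) X g(X)` (`(|U|/|Λ|) Q/(Q-1) ≤ 2`). Induction from `n` down (`θ ≤ 1`):
`Φ i ≤ θ^(n-i) Φ n + ∑_{i ≤ i' < n} (2 [..]_{i'} + ε/(n+1) X g(X))`. For `n = 0` the statement is trivial (`X₀ = 1`, `g ≥ 1` is not known then: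
the left side is equal to the first term of the right side and `ε X g X` must be `≥ 0`; so for `n = 0` this needs `g ≥ 0`:
use the hypothesis `0 < n`). -/
def T_CHN : Prop := MTG → T_BADW → CHAIN

end Pool.Agent.Helper38.TH
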