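import Pool.Agent.Helper38.TH.GoalsA

/-!
# Project TH (MP_fc6b1e_nt, T100): the case `χ₀ = 1`, and the chain in terms of `MW`

For `χ₀ = 1` and a level `J ≠ K` one has `|U|/|Λ| ≤ 1` only and `M = 1`, so the constant of `MTG` is too large. The weak
condition (at the top prime of the support, for the top prime which is not split) gives the factor `1/p`, as in `MT`.
All the primes of `V` are split here, so the top prime which is not split is not in `V`.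
-/

set_option autoImplicit false

namespace Pool.Agent.Helper38.TH

open Finset Pool.Agent.Helper17.PP Pool.Agent.Helper17.PP0 Pool.Agent.Helper17.PP2
  Pool.Agent.Helper11.M3
open Pool.Agent.Helper38.ND (W_COR)

variable {p : ℕ} {B B₀ k U Λ C : Type} [Field k] [AddCommGroup U] [Module k U]
    [AddCommGroup Λ] [Module k Λ] [AddCommGroup C]

open Classical in
/-- **MW**: the conclusion of the moment theorem with a `V`-weight, with the constant `θ`. -/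
def MW [Fintype k] [Algebra (ZMod p) k] (S : Sys p B B₀ k U Λ C) (V : B → Prop) (θ : ℝ)
    (T₀ r₀ : ℕ) (g : ℝ → ℝ) : Prop :=
  ∀ ε : ℝ, 0 < ε → ∃ X₀ : ℝ, ∀ X : ℝ, X₀ ≤ X →
  ∀ G : Finset B → ℝ, WtG S V G → ∀ P : Finset B,
    ∑ b ∈ P.powerset with (S.Fam b ∧ S.Bad b), G b * Real.exp (-(S.nm b / X)) ≤
      θ * ∑ b ∈ P.powerset with S.Fam b, G b * Real.exp (-(S.nm b / X)) +
      2 * ((1 / Fintype.card k : ℝ) ^ r₀ *
            ∑ b ∈ P.powerset with S.Fam b, Real.exp (-(S.nm b / X)) +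
          ∑ b ∈ P.powerset with (S.Fam b ∧ ExX S V T₀ r₀ (lg X) b),
            Real.exp (-(S.nm b / X))) +
      ε * (X * g X)

open Classical in
/-- **CHAINW**: the moment theorem for a chain of systems, from `MW` for each system. -/
def CHAINW : Prop :=
  ∀ (p : ℕ) [Fact p.Prime] (B B₀ k U Λ C : Type) [Field k] [Fintype k] [Algebra (ZMod p) k]
    [AddCommGroup U] [Module k U] [AddCommGroup Λ] [Module k Λ] [AddCommGroup C]
    (n : ℕ) (S : ℕ → Sys p B B₀ k U Λ C) (g : ℝ → ℝ), (∀ Y, 1 ≤ g Y) → Chn S →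
  ∀ θ : ℝ, 0 ≤ θ → θ ≤ 1 → ∀ (T₀ r₀ : ℕ → ℕ),
    (∀ i < n, MW (S i) (VU S n i) θ (T₀ i) (r₀ i) g) →
  ∀ ε : ℝ, 0 < ε → ∃ X₀ : ℝ, ∀ X : ℝ, X₀ ≤ X → ∀ P : Finset B,
    ∑ b ∈ P.powerset with ((S 0).Fam b ∧ ∀ i < n, (S i).Bad b),
        Real.exp (-((S 0).nm b / X)) ≤
      θ ^ n * ∑ b ∈ P.powerset with (S 0).Fam b, Real.exp (-((S 0).nm b / X)) +
      ∑ i ∈ range n, 2 * ((1 / Fintype.card k : ℝ) ^ r₀ i *
            ∑ b ∈ P.powerset with (S 0).Fam b, Real.exp (-((S 0).nm b / X)) +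
          ∑ b ∈ P.powerset with ((S 0).Fam b ∧ ExX (S i) (VU S n i) (T₀ i) (r₀ i) (lg X) b),
            Real.exp (-((S 0).nm b / X))) +
      ε * (X * g X)

open Classical in
/-- **MTG1**, the abstract moment theorem with a `V`-weight and the weak condition: constant `ρ₀ Q/(p(Q-1))`,
`ρ₀ = |U|/|Λ|`. The primes of `V` are split. (`HypG` may be the one with `Lk = False`, `Cs = ⊥`, `M = 1`.) -/
def MTG1 : Prop :=
  ∀ (p : ℕ) [Fact p.Prime] (B B₀ k U Λ C : Type) [Field k] [Fintype k] [Algebra (ZMod p) k]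
    [AddCommGroup U] [Module k U] [Fintype U] [AddCommGroup Λ] [Module k Λ] [Fintype Λ]
    [AddCommGroup C] [Finite C] (S : Sys p B B₀ k U Λ C) (ψ : AddChar k ℂ) (Lk : k → k → Prop)
    (Cs : k → AddSubgroup k) (M : ℕ) (κ : ℝ) (g : ℝ → ℝ) (K : ℕ), HypG S ψ Lk Cs M κ g K →
  ∀ (ψ₁ : AddChar (ZMod p) ℂ) (K₁ : ℕ), S.Hyp ψ ψ₁ g K₁ →
  ∀ (V : B → Prop), (∀ q, V q → S.spl q) →
  ∀ (T₀ r₀ : ℕ), 1 ≤ T₀ → ∀ ε : ℝ, 0 < ε → ∃ X₀ : ℝ, ∀ X : ℝ, X₀ ≤ X →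
  ∀ G : Finset B → ℝ, WtG S V G → ∀ P : Finset B,
    ∑ b ∈ P.powerset with (S.Fam b ∧ S.Bad b), G b * Real.exp (-(S.nm b / X)) ≤
      (Fintype.card U / Fintype.card Λ) * (Fintype.card k / (p * (Fintype.card k - 1))) *
        ∑ b ∈ P.powerset with S.Fam b, G b * Real.exp (-(S.nm b / X)) +
      (Fintype.card U / Fintype.card Λ) * (Fintype.card k / (Fintype.card k - 1)) *
        ((1 / Fintype.card k : ℝ) ^ r₀ *
            ∑ b ∈ P.powerset with S.Fam b, Real.exp (-(S.nm b / X)) +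
          ∑ b ∈ P.powerset with (S.Fam b ∧ ExX S V T₀ r₀ (lg X) b),
            Real.exp (-(S.nm b / X))) +
      ε * (X * g X)

open Classical in
/-- **T_OSB1** (the oscillating sums of `C_OSB`, with a weight). `G` is a `V`-weight, the primes of `V` are split. The sum
over the `b ⊆ P` in the family, over the `q ∉ V` in the block `j` with `Wt` and over `P₁` in the block `i` with `Top`, of
`G b osc e(nm b/X)`, is at most `K' (lg X + 2)^K' (i+j)^K₁ 2^(-min(i,j)/K₁) min(1, X/2^(i+j)) X g(X)`.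

PROOF. That of `C_OSB` (docstring in `Pool/Agent/Helper17/PP/GoalsC2.lean`, Lean proof `Pool/Agent/Helper30/PP/COSB.lean`; use its
lemmas) with `T_FOU` for the character `ψ₁` (compare `Pool/Agent/Helper39/TH/TOSBG.lean`, where the same was done for `T_OSBG`).
`b = {q, P₁} ∪ r`; `q ∉ V` by the condition, `P₁ ∉ V` because `P₁` is not split. So `b_V = r_V` is fixed by `r`: insert `T_FOU` for `G`
and `P`, bring the sum over `z ∈ lab (ZMod p) P` outside (with `x, t, c, y`) and fix `z` too. `p^|b_V| h(b_V, z)` is a function of `r` of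
norm at most `p^|r|`, and the product over `q' ∈ r_V`, `q'' ∈ {q, P₁} ∪ r`, `q'' ∉ V`, of `ψ₁(z q' κ(q', q''))` is a function of `q`
(`q'' = q`; goes to `β q`) times a function of `P₁` (`q'' = P₁`; goes to `α P₁`) times a function of `r`, all of norm 1. The condition
`q ∉ V` goes to `β q`. *Summation.* As there, with `∑_{r ⊆ P} (Q p)^|r| e(nm r/Y')` in the place of `∑ Q^|r| e(nm r/Y')`: `htG` with
`f = Q p ≤ (Q+1)²` (`p ≤ Q`); the exponent is at most `Q p K (1 + log(lg X + 1))` (`che`). `|lab (ZMod p) P| = p^|P|` cancels the factor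
`(1/p)^|P|` of `T_FOU`. -/
def T_OSB1 : Prop :=
  ∀ (p : ℕ) [Fact p.Prime] (B B₀ k U Λ C : Type) [Field k] [Fintype k] [Algebra (ZMod p) k]
    [AddCommGroup U] [Module k U] [Fintype U] [AddCommGroup Λ] [Module k Λ] [Fintype Λ]
    [AddCommGroup C] [Finite C] (S : Sys p B B₀ k U Λ C) (ψ : AddChar k ℂ) (Lk : k → k → Prop)
    (Cs : k → AddSubgroup k) (M : ℕ) (κ : ℝ) (g : ℝ → ℝ) (K : ℕ), HypG S ψ Lk Cs M κ g K →
  ∀ (ψ₁ : AddChar (ZMod p) ℂ) (K₁ : ℕ), S.Hyp ψ ψ₁ g K₁ →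
  ∃ K' : ℕ, ∀ (V : B → Prop) (G : Finset B → ℝ), WtG S V G → (∀ q, V q → S.spl q) →
  ∀ (E i j : ℕ) (s : ZMod p) (X : ℝ) (P : Finset B), 1 ≤ i → 1 ≤ j → j ≤ th E j →
      s ≠ 0 → 1 ≤ X →
    ‖∑ b ∈ P.powerset with S.Fam b, ∑ q ∈ b with (S.Wt E b q ∧ S.bl q = j ∧ ¬ V q),
      ∑ _P₁ ∈ b with (S.Top b _P₁ ∧ S.bl _P₁ = i),
        (G b : ℂ) * S.osc ψ ψ₁ E P b q s * (Real.exp (-(S.nm b / X)) : ℂ)‖ ≤
      K' * (lg X + 2) ^ K' * (i + j) ^ K₁ * (2 : ℝ) ^ (-(min i j : ℝ) / K₁) *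
        min 1 (X / 2 ^ (i + j)) * (X * g X)

/-- **T_MTG1** (assembly of `MTG1`).

PROOF (compare `w_mt1`, `Pool/Agent/Helper91/ND/WMT1.lean` (use `step1w` and the parts of `step4w`), and `t_mtg`,
`Pool/Agent/Helper59/TH/TMTG.lean`). `E = 2K(K+1)` with the `K` of `HypG`, `ρ₀ = |U|/|Λ|`, `W b = G b e(nm b/X)`, `0 ≤ W ≤ e`. Choose `j₀ ≥ 2`
with `j ≤ th E j` for `j ≥ j₀`, `j₀ ≥` the `j₁` of `Z_EX5`, `W_COR` (`w t = exp(-t)`: `Pool.Agent.Helper59.TH.wf_exp`), and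
`K₅/j₀ ≤ ε'` (`Z_EX2`), then `X₀` for `Z_EX0` (`j₀`), `Z_EX6`, `C_EX3` (for `S.Hyp`), `W_COR` (`j₀`), `PRTB`, `BLK`, `C_SM4` (`K₁`, the constant of
`T_OSB1`), and `s = Nat.sqrt (lg X) ≥ j₀`. `P' ⊆ P` the primes in blocks `≤ th E s`, `J = th E s + 1`.
(1) `step1w`: `∑_{Fam, Bad} W ≤` (exceptional sets: at most `5 ε' X g(X)`) `+ ∑_{b ⊆ P', Fam, ∃ Top, ∃ q Wt, j₀ ≤ bl q, Q-1 ≤ cnt₂} W`.
(2) `(Q - 1)` times the last sum is at most `∑_{Fam} (∑_{q : Wt, j₀ ≤ bl q < s} cnt) W` (`≤` the same sum with `e`, `≤ ε' X g(X)` by `W_COR`) plus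
`∑_{Fam} (∑_{q : Wt, s ≤ bl q, V q} cnt) e` (`cnt₂ ≤ cnt`; `PRTB`) plus
`∑_{Fam} (∑_{q : Wt, s ≤ bl q, ¬ V q} ∑_{P₁ : Top, s ≤ bl P₁} cnt₂) W` (`PP.step2` in `Helper17/PP/FinB.lean`, splitting `q ∈ V`, `q ∉ V`).
(3) By `C_OSC` and because there is at most one `P₁` (as in `PP.step3`), the last sum is at most
`(1/p) ∑_{Fam} (∑_{q : Wt, s ≤ bl q, ¬ V q} cnt) W + (1/p) ∑_{s' ≠ 0} ∑_{s ≤ i, j < J} ‖..‖`, the norms of the sums of `T_OSB1` (as in `step4w`). By `BLK`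
(`V' = V`, `I q = ¬ V q`) and pointwise `C_MNB` (the sum over the `q ∉ V` is a part of the sum over all `q`) the first term is at
most `(1/p) (ρ₀ Q ∑_{Fam} W + ε' X g(X))`; by `T_OSB1` and `C_SM4` the second one is at most `K₃ ε' X g(X)`.
(4) Divide by `Q - 1`; the sums over `b ⊆ P'` on the right are at most the sums over `b ⊆ P`. -/
def T_MTG1 : Prop :=
  W_COR → C_CNT → C_OSC → C_MNB → Z_EX0 → Z_EX2 → C_EX3 → Z_EX5 → Z_EX6 → C_SM4 → BLK → PRTB →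
    T_OSB1 → MTG1

end Pool.Agent.Helper38.TH
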