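import Pool.Agent.Helper38.TH.AllZpU

/-!
# Project TH: the assembly of the theorem
-/

set_option autoImplicit false

namespace Pool.Agent.Helper38.TH

open NumberField Module IsDedekindDomain TensorProduct
open Pool.Agent.Helper51.SigLeo Pool.Agent.Helper51.RP Pool.Agent.Helper42.RD
open Pool.Agent.Helper38.FD (Chr CutsOut LeopoldtFor)
open Pool.Agent.Helper38.FW (InDec IsOmega IsLocal IsWeight AllChr tame countChr)
open Pool.Agent.Helper38.FY (BaseChr)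
open Pool.Agent.Helper57.TH (tower_pow tower_le tower_ord exists_level chr_pow_finrank chr_cancel
  hat_mul)

section

variable {p : ℕ} [Fact p.Prime] {K : Type} [Field K] [NumberField K]
  {ιinf : AlgebraicClosure K →+* ℂ} {ιp : AlgebraicClosure K →+* ℂ_[p]}

/-- `WOUT` for one base character. -/
def WAt (D : BaseChr ιinf ιp) (L : IwasawaLog p ℂ_[p]) : Prop :=
  ∀ (η : ℕ → Chr K (AlgebraicClosure K) ℂ_[p]), IsTower η →
  ∀ (A : Set (IntermediateField K (AlgebraicClosure K) × Chr K (AlgebraicClosure K) ℂ_[p])),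
    IsLocal A →
  ∀ (e : IntermediateField K (AlgebraicClosure K) × Chr K (AlgebraicClosure K) ℂ_[p] → ℕ),
    IsWeight e → ∀ (n₀ : ℕ) (ε : ℝ), 0 < ε → ∀ᶠ X : ℕ in Filter.atTop,
    countChr e {x | x ∈ A ∧ ∀ n, n₀ ≤ n → ¬ LeopoldtFor ιinf ιp L D.S (D.κ * x.2 * η n)} X ≤
      ε * countChr e A X

/-- The finiteness of the set of the exceptional `ξ`, if `κ φ η_n` is good for one `n ≥ n₁`. -/
theorem exc_finite (hDich : DICH) (D : BaseChr ιinf ιp) (L : IwasawaLog p ℂ_[p])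
    {η : ℕ → Chr K (AlgebraicClosure K) ℂ_[p]} (hη : IsTower η) :
    ∃ n₁ : ℕ, ∀ x ∈ AllChr p K, ∀ n, n₁ ≤ n → LeopoldtFor ιinf ιp L D.S (D.κ * x.2 * η n) →
      {ξ | ξ ∈ Hat η ∧ ¬ Full D L η x ξ}.Finite := by
  have hp : p.Prime := Fact.out
  have hcl : PlaceClosed (TSet ιinf ιp D.S) :=
    Pool.Agent.Helper35.RD.tset_closed ιinf ιp D.S D.isOrdinary
  have hκ : ∃ N : ℕ, 0 < N ∧ D.κ ^ N = 1 := by
    have := D.finite
    exact ⟨finrank K D.H, finrank_pos, chr_pow_finrank D.cutsOut⟩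
  obtain ⟨n₁, hn₁⟩ := Pool.Agent.Helper57.TH.d_ram p K η hη D.κ hκ
  refine ⟨n₁, fun x hx n hn hgood ↦ full_finite hDich D L hη x hx ?_⟩
  have hφ : x.2 ^ p = 1 := by
    have h2 := chr_pow_finrank hx.2
    rw [hx.1] at h2
    exact h2
  have hfin := hDich p K ιinf ιp L D.S hcl (D.κ * x.2 * η n) η hη
    (Pool.Agent.Helper32.TH.d_unr p K η hη) (hn₁ n hn x.2 hφ) hgood
  refine Set.Finite.subset (hfin.image fun ξ => η n * ξ) ?_
  rintro ξ ⟨hξ, hbad⟩
  refine ⟨(η n)⁻¹ * ξ, ⟨hat_mul hη n hξ, fun hL => hbad fun σ => ?_⟩, ?_⟩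
  · have h3 : D.κ * x.2 * η n * ((η n)⁻¹ * ξ) = D.κ * x.2 * ξ := by
      rw [mul_assoc (D.κ * x.2), chr_cancel]
    rw [h3] at hL
    exact Pool.Agent.Helper8.TH.d_inv p K ιinf ιp L D.S hcl _ hL σ
  · show η n * ((η n)⁻¹ * ξ) = ξ
    rw [chr_cancel]

/-- The theorem for finitely many base characters. -/
theorem main_of (hDich : DICH) (L : IwasawaLog p ℂ_[p]) {ι : Type} [Fintype ι] [Nonempty ι]
    (D : ι → BaseChr ιinf ιp) (hW : ∀ i, WAt (D i) L)
    (η : ι → ℕ → Chr K (AlgebraicClosure K) ℂ_[p]) (hη : ∀ i, IsTower (η i))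
    (A : Set (IntermediateField K (AlgebraicClosure K) × Chr K (AlgebraicClosure K) ℂ_[p]))
    (hA : IsLocal A)
    (e : IntermediateField K (AlgebraicClosure K) × Chr K (AlgebraicClosure K) ℂ_[p] → ℕ)
    (he : IsWeight e) (ε : ℝ) (hε : 0 < ε) : ∀ᶠ X : ℕ in Filter.atTop,
    countChr e {x | x ∈ A ∧ ∃ i, {ξ | ξ ∈ Hat (η i) ∧ ¬ Full (D i) L (η i) x ξ}.Infinite} X ≤
      ε * countChr e A X := by
  classical
  choose n₁ hn₁ using fun i ↦ exc_finite hDich (D i) L (hη i)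
  have hc : (0 : ℝ) < Fintype.card ι + 1 := by positivity
  have h1 : ∀ i, ∀ᶠ X : ℕ in Filter.atTop,
      countChr e {x | x ∈ A ∧ ∀ n, n₁ i ≤ n →
        ¬ LeopoldtFor ιinf ιp L (D i).S ((D i).κ * x.2 * η i n)} X ≤
      ε / (Fintype.card ι + 1) * countChr e A X := fun i ↦
    hW i (η i) (hη i) A hA e he (n₁ i) _ (div_pos hε hc)
  filter_upwards [Filter.eventually_all.2 h1] with X hX
  have hfin : ∀ B : Set (IntermediateField K (AlgebraicClosure K) ×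
      Chr K (AlgebraicClosure K) ℂ_[p]), B ⊆ A →
      {x | x ∈ B ∧ tame p K x.1 * e x ≤ X}.Finite := fun B hB ↦
    (Pool.Agent.Helper57.TH.fin_y p K ιinf ιp L (D (Classical.arbitrary ι)) A hA e he X).subset
      fun x hx ↦ ⟨hA.subset (hB hx.1), hx.2⟩
  set W : ι → Set (IntermediateField K (AlgebraicClosure K) ×
      Chr K (AlgebraicClosure K) ℂ_[p]) := fun i ↦ {x | x ∈ A ∧ ∀ n, n₁ i ≤ n →
        ¬ LeopoldtFor ιinf ιp L (D i).S ((D i).κ * x.2 * η i n)} with hWd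
  have hsub : {x | x ∈ {x | x ∈ A ∧ ∃ i, {ξ | ξ ∈ Hat (η i) ∧
      ¬ Full (D i) L (η i) x ξ}.Infinite} ∧ tame p K x.1 * e x ≤ X} ⊆
      ⋃ i ∈ (Finset.univ : Finset ι), {x | x ∈ W i ∧ tame p K x.1 * e x ≤ X} := by
    rintro x ⟨⟨hxA, i, hi⟩, hxX⟩
    simp only [Finset.mem_univ, Set.iUnion_true, Set.mem_iUnion]
    exact ⟨i, ⟨hxA, fun n hn hg ↦ hi (hn₁ i x (hA.subset hxA) n hn hg)⟩, hxX⟩
  have hU : (⋃ i ∈ (Finset.univ : Finset ι), {x | x ∈ W i ∧ tame p K x.1 * e x ≤ X}).Finite :=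
    Set.Finite.biUnion (Finset.univ : Finset ι).finite_toSet fun i _ ↦ hfin (W i) fun x hx ↦ hx.1
  have h2 : countChr e {x | x ∈ A ∧ ∃ i, {ξ | ξ ∈ Hat (η i) ∧
      ¬ Full (D i) L (η i) x ξ}.Infinite} X ≤ ∑ i, countChr e (W i) X := by
    unfold countChr
    have h3 := (Set.ncard_le_ncard hsub hU).trans (Finset.set_ncard_biUnion_le _ _)
    exact_mod_cast h3
  refine h2.trans ((Finset.sum_le_sum fun i _ ↦ hX i).trans ?_)
  rw [Finset.sum_const, Finset.card_univ, nsmul_eq_mul]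
  have h4 : (0 : ℝ) ≤ countChr e A X := by unfold countChr; positivity
  have h5 : (Fintype.card ι : ℝ) * (ε / (Fintype.card ι + 1)) ≤ ε := by
    rw [mul_div_assoc', div_le_iff₀ hc]
    nlinarith
  calc (Fintype.card ι : ℝ) * (ε / (Fintype.card ι + 1) * countChr e A X)
      = ((Fintype.card ι : ℝ) * (ε / (Fintype.card ι + 1))) * countChr e A X := by ring
    _ ≤ ε * countChr e A X := mul_le_mul_of_nonneg_right h5 h4

end

end Pool.Agent.Helper38.TH
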