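import Pool.Agent.Helper38.TH.OMB
import Pool.Agent.Helper42.TH.GoalsALO
import Pool.Agent.Helper11.TH.W0
import Pool.Agent.Helper42.WY.AZT
import Pool.Agent.Helper42.PW.Asm1
import Pool.Agent.Helper96.WY.YSGB
import Pool.Agent.Helper93.M3.AZT1

/-!
# Project TH, the case `χ₀ ≡ ω`: the arithmetic part `AL_OMC`
-/

set_option autoImplicit false

namespace Pool.Agent.Helper38.TH

open NumberField Polynomial Module IsDedekindDomain
open Pool.Agent.Helper51.RP Pool.Agent.Helper42.RD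
open Pool.Agent.Helper77.PPS Pool.Agent.Helper77.PPO
open Pool.Agent.Helper42.PP (Spl Base)
open Pool.Agent.Helper42.PP1 (SitW NTV)
open Pool.Agent.Helper42.PB (TauF sysB SitB BaseB)
open Pool.Agent.Helper17.PP (Sys)
open Pool.Agent.Helper17.PB
open Pool.Agent.Helper76.PP (psK SmF KumF)
open Pool.Agent.Helper76.PB (NrmInd V_SMN)
open Pool.Agent.Helper11.PP (Slow)
open Pool.Agent.Helper60.PPS (vis_sub)
open Pool.Agent.Helper11.M3
open Pool.Agent.Helper11.TH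
open Pool.Agent.Helper42.TH (ALevO AL_OMC)
open Pool.Agent.Helper42.WY (Pw2)
open Pool.Agent.Helper18.M3 (tc_of_prim')
open Pool.Agent.Helper17.M3 (trace_ne)

/-- `J ≠ K` implies `[M₂ : K] ≥ 2 [K₁ : K]`. -/
theorem two_le_deg {p : ℕ} [hpF : Fact p.Prime] {K M K₁ M₁ J M₂ : Type} [Field K] [NumberField K]
    [Field M] [NumberField M] [Field K₁] [NumberField K₁] [Field M₁] [NumberField M₁] [Field J]
    [NumberField J] [Field M₂] [NumberField M₂] [Algebra K M] [Algebra K K₁] [Algebra K M₁]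
    [Algebra M M₁] [Algebra K₁ M₁] [Algebra K J] [Algebra K M₂] [Algebra M M₂] [Algebra K₁ M₂]
    [Algebra M₁ M₂] [Algebra J M₂] {ε : K₁} {δ : M ≃ₐ[K] M} {P : (ZMod p)[X]} {a₀ : M₂ˣ}
    (hB : SitB p K M K₁ M₁ J M₂ ε δ P a₀) (hJ : finrank K J ≠ 1) :
    2 * finrank K K₁ ≤ finrank K M₂ := by
  have hs := hB.sit
  have := hs.st1
  have := hs.st2
  have := hs.gM
  have := hs.gK
  have := hs.gMK
  have := hB.t1
  have := hB.t2
  have := hB.t3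
  have := hB.t4
  have := hB.gM₂
  have t6 : IsScalarTower K K₁ M₂ := IsScalarTower.of_algebraMap_eq fun x ↦ by
    rw [IsScalarTower.algebraMap_apply K M₁ M₂, IsScalarTower.algebraMap_apply K K₁ M₁,
      ← IsScalarTower.algebraMap_apply K₁ M₁ M₂]
  have hp : p.Prime := hpF.out
  have hdv := Pool.Agent.Helper14.RD.finrank_dvd_pred p K K₁ ε hs.prim hs.gen
  obtain ⟨l, hl⟩ := hB.degJ
  have hl0 : l ≠ 0 := by
    rintro rfl
    exact hJ (by rw [hl, pow_zero])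
  have h1 : finrank K J ∣ finrank K M₂ := ⟨_, (finrank_mul_finrank K J M₂).symm⟩
  have h2 : finrank K K₁ ∣ finrank K M₂ := ⟨_, (finrank_mul_finrank K K₁ M₂).symm⟩
  have hp0 : 0 < p - 1 := Nat.sub_pos_of_lt hp.one_lt
  have hc : (finrank K K₁).Coprime p := by
    have : (p - 1).Coprime p := by
      rw [Nat.coprime_comm, Nat.Prime.coprime_iff_not_dvd hp]
      exact Nat.not_dvd_of_pos_of_lt hp0 (Nat.sub_lt hp.pos one_pos)
    exact Nat.Coprime.coprime_dvd_left hdv this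
  have hp2 : p ∣ finrank K J := by
    rw [hl]
    exact dvd_pow_self p hl0
  have h3 : finrank K K₁ * p ∣ finrank K M₂ := hc.mul_dvd_of_dvd_of_dvd h2 (hp2.trans h1)
  have h4 := Nat.le_of_dvd finrank_pos h3
  calc 2 * finrank K K₁ ≤ p * finrank K K₁ := Nat.mul_le_mul_right _ hp.two_le
    _ = finrank K K₁ * p := Nat.mul_comm _ _
    _ ≤ _ := h4

open Classical in
/-- `HypG4` for `subS (sysB ..) W`. -/
theorem hypG4_sub (p : ℕ) [hpF : Fact p.Prime]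
    (K M K₁ M₁ J M₂ : Type) [Field K]
    [NumberField K] [Field M] [NumberField M] [Field K₁] [NumberField K₁] [IsTotallyComplex K₁]
    [Field M₁] [NumberField M₁] [IsTotallyComplex M₁] [Field J] [NumberField J] [Field M₂]
    [NumberField M₂] [Algebra K M] [Algebra K K₁] [Algebra K M₁] [Algebra M M₁] [Algebra K₁ M₁]
    [Algebra K J] [Algebra K M₂] [Algebra M M₂] [Algebra K₁ M₂] [Algebra M₁ M₂] [Algebra J M₂]
    (ε : K₁) (δ : M ≃ₐ[K] M) (P : (ZMod p)[X]) [Fact (Irreducible P)] [Fintype (AdjoinRoot P)]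
    (a₀ : M₂ˣ) (hB : SitB p K M K₁ M₁ J M₂ ε δ P a₀) (hO : OmS p M₁ ε δ P)
    (hJ : finrank K J ≠ 1)
    (B : Base p K M K₁ M₁ ε δ P) (D : BaseB B a₀) (hNr : Nrml B) (n : ℕ) (E : TauF n B)
    (aτ : K₁ˣ) (hN : NrmInd E M₂) (hZK : ZK E M₂)
    (W : Submodule (AdjoinRoot P) (Fin B.r → AdjoinRoot P)) (hW : IsCompl W (Zt B M₂))
    (tr : AdjoinRoot P →ₗ[ZMod p] ZMod p) (htr : tr ≠ 0)
    (ψ₁ : AddChar (ZMod p) ℂ) (hψ₁ : ψ₁ ≠ 1) :
    ∃ K' : ℕ, HypG4 (subS (sysB B E (Spl M₂ B.S) D.s0 aτ) W) (psK tr ψ₁) (eL B)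
      (fun q ↦ ¬ (subS (sysB B E (Spl M₂ B.S) D.s0 aτ) W).spl q)
      (gK (((p : ℝ) - 1) / finrank K K₁)) K' := by
  have hTWO := Pool.Agent.Helper51.REC.r_two
  have hs := hB.sit
  have := hs.st1
  have := hs.st2
  have := hs.gM
  have := hs.gK
  have := hs.gMK
  have := hB.t1
  have := hB.t2
  have := hB.t3
  have := hB.gM₂
  have t6 : IsScalarTower K K₁ M₂ := IsScalarTower.of_algebraMap_eq fun x ↦ by
    rw [IsScalarTower.algebraMap_apply K M₁ M₂, IsScalarTower.algebraMap_apply K K₁ M₁,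
      ← IsScalarTower.algebraMap_apply K₁ M₁ M₂]
  have hV : Spl M₂ B.S ⊆ B.Vis := vis_sub (K₁ := M₁) B.S
  have hdv := Pool.Agent.Helper14.RD.finrank_dvd_pred p K K₁ ε hs.prim hs.gen
  have hpsK : psK tr ψ₁ ≠ 1 := by
    intro h
    apply one_ne_zero (α := ZMod p)
    apply Pool.Agent.Helper12.PP.kap_psi p ψ₁ hψ₁
    obtain ⟨x, hx⟩ := Pool.Agent.Helper12.PP.kap_surj p P tr htr 1
    have h1 := DFunLike.congr_fun h x
    rw [← hx]
    exact h1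
  obtain ⟨Ka, hKa⟩ := sv0B p K M K₁ M₁ M₂ ε δ P B E hdv D.s0 aτ
    ((Fintype.card (AdjoinRoot P) : ℝ) + 4)
  have hSVa := hKa Ka le_rfl
  obtain ⟨Kg, hKg⟩ := sv0B p K M K₁ M₁ M₂ ε δ P B E hdv D.s0 aτ
    (((Fintype.card (AdjoinRoot P) : ℝ) + 1) ^ 2)
  obtain ⟨Kb, hKb1, hKb⟩ := Pool.Agent.Helper3.M3.a_bl1 (a_blg hTWO) Pool.Agent.Helper15.M3.a_nzo
    p K M K₁ M₁ ε δ P hs hO B hNr n E (Spl M₂ B.S) D.s0 aτ hV tr ψ₁ htr hψ₁ Ka hSVa.che
  obtain ⟨Kc, hKc1, hKc⟩ := Pool.Agent.Helper18.M3.a_bl4 Pool.Agent.Helper32.M3.a_blh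
    Pool.Agent.Helper15.M3.a_nzo p K M K₁ M₁ ε δ P hs hO B n E (Spl M₂ B.S) D.s0 aτ hV tr ψ₁
    htr hψ₁ Ka hSVa.che
  obtain ⟨Kd, hKd1, hKd⟩ := Pool.Agent.Helper64.M3.a_bl5 (a_blg hTWO)
    Pool.Agent.Helper32.M3.a_blh Pool.Agent.Helper15.M3.a_nzo
    p K M K₁ M₁ ε δ P hs hO B hNr n E (Spl M₂ B.S) D.s0 aτ hV tr ψ₁ htr hψ₁ Ka hSVa.che
  obtain ⟨Kb', hKb1', hKb'⟩ := o_bl1 (a_blg hTWO) Pool.Agent.Helper15.M3.a_nzo
    p K M K₁ M₁ ε δ P hs hO B hNr n E (Spl M₂ B.S) D.s0 aτ hV tr ψ₁ htr hψ₁ Ka hSVa.che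
  obtain ⟨Kc', hKc1', hKc'⟩ := o_bl4 Pool.Agent.Helper32.M3.a_blh
    Pool.Agent.Helper15.M3.a_nzo p K M K₁ M₁ ε δ P hs hO B n E (Spl M₂ B.S) D.s0 aτ hV tr ψ₁
    htr hψ₁ Ka hSVa.che
  obtain ⟨hcas, Ke, hKe⟩ := Pool.Agent.Helper85.M3.a_cas p K M K₁ M₁ J M₂ ε δ P a₀ hB hO B D n E aτ
  obtain ⟨Ks, hKs1, hKs⟩ := Pool.Agent.Helper90.M3.a_smo p K M K₁ M₁ J M₂ ε δ P a₀ hB B D n E hN hZK
    aτ tr ψ₁ htr hψ₁
  obtain ⟨K', hK'⟩ : ∃ K' : ℕ, K' = Ka + Kb + Kc + Kd + Ke + Kg + Kb' + Kc' + Ks := ⟨_, rfl⟩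
  have hSV := hKa K' (by omega)
  have hSVg := hKg K' (by omega)
  have hNV : NV B J M₂ = fun q => ¬ (subS (sysB B E (Spl M₂ B.S) D.s0 aτ) W).spl q := by
    funext q
    exact propext ⟨fun h => h.resolve_left hJ, fun h => Or.inr h⟩
  have hHW : HypW (subS (sysB B E (Spl M₂ B.S) D.s0 aτ) W) (psK tr ψ₁)
      (gK (((p : ℝ) - 1) / finrank K K₁)) K' :=
    { one_le := hSV.one_le
      ψ_ne := hpsK
      che := hSV.che
      g_one := hSV.g_one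
      g_mono := hSV.g_mono
      ht := hSV.ht
      mers := hSV.mers }
  have hmN := hKe K' (by omega)
  rw [hNV] at hmN
  have hH4 : Hyp₄ (subS (sysB B E (Spl M₂ B.S) D.s0 aτ) W) (psK tr ψ₁) (eL B)
      (fun q ↦ ¬ (subS (sysB B E (Spl M₂ B.S) D.s0 aτ) W).spl q) ⊥
      (gK (((p : ℝ) - 1) / finrank K K₁)) K' :=
    mk4 _ _ (eL B) _ ⊥ _ K' hHW (eL_ne B) (Or.inr ⟨fun q hq => hq, rfl⟩) hmN
      (hKs K' (by omega) W hW.sup_eq_top)
      (Pool.Agent.Helper61.M3.a_kum Pool.Agent.Helper98.M3.a_kue p K M K₁ M₁ J M₂ ε δ P a₀ hB B D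
        n E aτ W hW.inf_eq_bot) (hKb K' (by omega)) (hKc K' (by omega) _)
      (hKd K' (by omega) _ _ (Or.inl rfl))
  refine ⟨K', ?_⟩
  exact
    { toHyp₄ := hH4
      nspl := fun q hq => hq
      htG := hSVg.ht
      bl₁G := hKb' K' (by omega)
      bl₄G := hKc' K' (by omega) _ fun q hq => hq }

/-- **AL_OMC**. -/
theorem al_omc : AL_OMC := by
  classical
  intro p hpF K M K₁ M₁ _ _ _ _ _ _ _ _ _ _ _ _ _ _ J M₂ _ _ _ _ _ _ _ _ _ _ ε δ P hirr hfin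
    a₀ hB hO hJ hZt T hext
  intro lv hlv S₀
  have hp : p.Prime := hpF.out
  have hs := (hB 0).sit
  have htc : IsTotallyComplex K₁ := tc_of_prim' hO.two hs.prim
  have hprM : IsPrimitiveRoot (algebraMap K₁ M₁ ε) p :=
    hs.prim.map_of_injective (algebraMap K₁ M₁).injective
  have htcM : IsTotallyComplex M₁ := tc_of_prim' hO.two hprM
  obtain ⟨N, hN⟩ : ∃ N, ∀ i, lv i < N := by
    obtain ⟨b, hb⟩ := hlv.bddAbove
    exact ⟨b + 1, fun i => Nat.lt_succ_of_le (hb ⟨i, rfl⟩)⟩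
  obtain ⟨B, hSB, hNr, hD⟩ := w0_base hs J M₂ a₀ N (fun i _ => hB i) S₀
  obtain ⟨W, hW⟩ := exists_isCompl (Zt B (M₂ (lv 0)))
  have hle : ∀ l l' : ℕ, Zt B (M₂ l) ≤ Zt B (M₂ l') := by
    intro l l'
    unfold Zt
    refine Submodule.span_mono ?_
    rintro x ⟨y, h1, h2, h3, h4⟩
    exact ⟨y, h1, h2, hZt l l' y h3, h4⟩
  have hWi : ∀ i, IsCompl W (Zt B (M₂ (lv i))) := fun i => by
    rw [le_antisymm (hle (lv i) (lv 0)) (hle (lv 0) (lv i))]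
    exact hW.symm
  have D : ∀ i, BaseB B (a₀ (lv i)) := fun i => (hD (lv i) (hN i)).some
  refine ⟨B, D, gK (((p : ℝ) - 1) / finrank K K₁), _, W, hSB, slow_gK _ (kap_one hs),
    fun i => (hWi i).sup_eq_top, ?_⟩
  intro aτ haτ
  obtain ⟨n, hr, hE⟩ := hext B
  choose E hE' using fun i => hE (lv i) (D i) aτ haτ
  obtain ⟨c, X₁, hc, hlow⟩ := lowG hs B (E 0).toTauF (Spl (M₂ (lv 0)) B.S) (D 0).s0 aτ
  obtain ⟨ψ₁, hψ₁⟩ := Pool.Agent.Helper12.PP.kap_ex p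
  have hP0 : P ≠ 0 := hs.irr.ne_zero
  have hcard : Fintype.card (AdjoinRoot P) = p := by
    have hfinA : Module.Finite (ZMod p) (AdjoinRoot P) := (AdjoinRoot.powerBasis hP0).finite
    rw [Module.card_eq_pow_finrank (K := ZMod p) (V := AdjoinRoot P),
      ZMod.card, (AdjoinRoot.powerBasis hP0).finrank, AdjoinRoot.powerBasis_dim, hO.deg, pow_one]
  have hp1 : (1 : ℝ) < p := by exact_mod_cast hp.one_lt
  have hpp : (0 : ℝ) < (p : ℝ) - 1 := by linarith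
  have hsize : (Nat.card W / Fintype.card (Fin n → AdjoinRoot P) : ℝ) ≤ 1 := by
    have hcW : (Nat.card W : ℝ) = (p : ℝ) ^ finrank (AdjoinRoot P) W := by
      have : Fintype W := Fintype.ofFinite _
      rw [Nat.card_eq_fintype_card, Module.card_eq_pow_finrank (K := AdjoinRoot P) (V := W),
        hcard, Nat.cast_pow]
    have h4 : (Fintype.card (Fin n → AdjoinRoot P) : ℝ) = (p : ℝ) ^ n := by
      rw [Fintype.card_fun, hcard, Fintype.card_fin, Nat.cast_pow]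
    have hrk := Submodule.finrank_add_eq_of_isCompl (hWi 0)
    rw [Module.finrank_fin_fun] at hrk
    have hZ := Pool.Agent.Helper93.M3.a_zt1 p K M K₁ M₁ (J (lv 0)) (M₂ (lv 0)) ε δ P (a₀ (lv 0))
      (hB (lv 0)) hO B (D 0) (hJ (lv 0))
    have hZ1 : 1 ≤ finrank (AdjoinRoot P) (Zt B (M₂ (lv 0))) := by
      rw [Nat.one_le_iff_ne_zero, Ne, Submodule.finrank_eq_zero]
      exact hZ
    have h7 : finrank (AdjoinRoot P) W ≤ n := by omega
    rw [hcW, h4, div_le_one (by positivity)]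
    exact pow_le_pow_right₀ hp1.le h7
  refine ⟨n, E, c, X₁, hc, fun i => ⟨?_, ?_⟩, hsize, ?_, hlow⟩
  · obtain ⟨K', hK'⟩ := hypG4_sub p K M K₁ M₁ (J (lv i)) (M₂ (lv i)) ε δ P (a₀ (lv i)) (hB (lv i))
      hO (hJ (lv i)) B (D i) hNr n (E i).toTauF aτ (hE' i)
      (Pool.Agent.Helper42.WY.zk_tau Pool.Agent.Helper42.PW.a_grp Pool.Agent.Helper96.WY.y_sgb
        (hB (lv i)) (E i)) W (hWi i) (Algebra.trace (ZMod p) (AdjoinRoot P)) (trace_ne P) ψ₁ hψ₁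
    exact ⟨_, eL B, K', hK'⟩
  · have hsi := (hB (lv i)).sit
    have := hsi.st1
    have := hsi.st2
    have := hsi.gK
    have := (hB (lv i)).t1
    have := (hB (lv i)).t2
    have := (hB (lv i)).t3
    have := (hB (lv i)).gM₂
    have t6 : IsScalarTower K K₁ (M₂ (lv i)) := IsScalarTower.of_algebraMap_eq fun x ↦ by
      rw [IsScalarTower.algebraMap_apply K M₁ (M₂ (lv i)), IsScalarTower.algebraMap_apply K K₁ M₁,
        ← IsScalarTower.algebraMap_apply K₁ M₁ (M₂ (lv i))]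
    exact mernK p K M K₁ M₁ (M₂ (lv i)) ε δ P B (E i).toTauF (two_le_deg (hB (lv i)) (hJ (lv i)))
      (D i).s0 aτ
  · rw [hcard]
    calc _ ≤ 1 * (1 / ((p : ℝ) - 1)) := mul_le_mul_of_nonneg_right hsize (by positivity)
      _ = _ := one_mul _

end Pool.Agent.Helper38.TH
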